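import Pool.Agent.H9.FM.Frequent

set_option autoImplicit false

/-!
# Frankl's inequality for large finite lattices in which frequent joins have short chains

Theorem of helper75 (lattices of bounded length), with the generalisations of helper61 (joins of maximal
join-irreducibles) and helper49 (only frequent elements count), on the inequality of helper87 for lattices with few
maximal join-irreducibles.

Let `L` be a finite lattice with `N` elements and `A` a set of join-irreducibles such that every join-irreducible is
below a member of `A` (for instance the maximal join-irreducibles, or all of them). Let `J` be the set of all joins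
of members of `A`, the empty join included, and call `z` frequent if `|{x : z ≤ x}| ≥ g N`.

* (`nearHalf`, helper87's inequality) If every join-irreducible is below one of `r` elements `z`, each of which lies
  below at least `(1 / 2 - 1 / (4 (r + 1))) N` elements, then `N ≤ 2 ^ (2 r (r + 1))`: chain rule weights for the
  coordinates `x ⊓ z`, the pair inequality for `x ⊓ y`, and a trace inequality for a matrix with at most `r + 1`
  positive eigenvalues.
* (`covOne`, `covMany_of_covOne`) For every positive function `F` there are `R` and `δ > 0` such that, for `w ∈ J`
  frequent of height at most `h` among the frequent members of `J`, all members of `J` below `w` which lie below at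
  least `(1 / 2 - δ) N` elements are covered by at most `r ≤ R` elements below at least `(1 / 2 - F(r)) N` elements.
  Induction on `h`: if `w` itself lies below `(1 / 2 - F(1)) N` elements, take `w`. Otherwise a greedy choice gives
  a set `W` in which every subset with join `≠ w` has at most as many members as the height of its join
  (`greedy`); an element not above `w` is above at most `h - 1` members of `W`, so `W` is short (`greedy_short`), and
  the joins `< w` of subsets of `W` cover everything.
* (`covTop`) The same on the whole of `J`: here all joins of `n + 1` members of `W` are not frequent, while by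
  convexity their average frequency is about `2 ^ -(n + 1)` (`rare_joins`).
-/

universe u

namespace Pool.Agent.H61.Fr.CopyBoundedLength

/-- For every `n` and every `g < (1 / 2) ^ (n + 1)` there are `C` and `δ > 0` such that the following holds for
every finite lattice `L` with more than `C` elements. Let `A` be a set of join-irreducibles such that every
join-irreducible is below a member of `A`. If no `n + 2` elements `z` which are joins of members of `A` and satisfy
`|{x : z ≤ x}| ≥ g |L|` form a chain, then some `a` in `A` satisfies `|{x : a ≤ x}| < (1 / 2 - δ) |L|`. -/
theorem result (n : ℕ) (g : ℝ) (hg : g < (1 / 2 : ℝ) ^ (n + 1)) :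
    ∃ (C : ℕ) (δ : ℝ), 0 < δ ∧ ∀ (L : Type u) [Lattice L] [Finite L] (A : Finset L),
      (∀ a ∈ A, SupIrred a) → (∀ j : L, SupIrred j → ∃ a ∈ A, j ≤ a) →
      (∀ z : Fin (n + 2) → L, (∀ i, (∃ B : Finset L, B ⊆ A ∧ IsLUB (B : Set L) (z i)) ∧
        g * (Nat.card L : ℝ) ≤ (Nat.card {x : L // z i ≤ x} : ℝ)) → ¬ StrictMono z) →
      C < Nat.card L →
      ∃ a ∈ A, SupIrred a ∧
        (Nat.card {x : L // a ≤ x} : ℝ) < (1 / 2 - δ) * (Nat.card L : ℝ) := by
  obtain ⟨C, δ, hδ, H⟩ := Pool.Agent.H9.FM.frequent.{u} n g hg
  refine ⟨C, δ, hδ, ?_⟩
  intro L _ _ A hA hdom hch hC
  obtain ⟨a, ha, h⟩ := H L A hdom hch hC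
  exact ⟨a, ha, hA a ha, h⟩

end Pool.Agent.H61.Fr.CopyBoundedLength
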