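import Mathlib

set_option autoImplicit false

/-!
# Frankl's inequality for semimodular lattices of breadth at most three

Let `L` be a finite upper semimodular lattice with at least two elements and `T` a set of at most
two join-irreducibles such that the interval `[⋁ T, 1]` has breadth at most `3 - |T|`: of any
`4 - |T|` elements of this interval one lies below the join of the others.  Then some
join-irreducible `a` satisfies `2 |{x : a ≤ x}| ≤ |L|`.  For `T = ∅` the hypothesis says that `L`
has breadth at most three.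

* `T = {a, b}`, so `[a ⊔ b, 1]` is a chain (`of_chain_above`, valid in every finite lattice).  Among the pairs `(a, b)` of
  join-irreducibles with `[a ⊔ b, 1]` a chain take one with `[a ⊔ b, 1]` smallest; put `w = a ⊔ b`.
  For `y > w` let `e_y` be minimal with `w ⊔ e_y = y`; it is join-irreducible, since `[w, 1]` is a
  chain, and it is above neither `a` nor `b`, since otherwise `(e_y, b)` or `(a, e_y)` is a better
  pair.  So `y ↦ e_y`, `w ↦ 0` injects the elements above `a` and `b` into the elements above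
  neither, and one of `a, b` is below at most half of the elements.
* `T = ∅` and `T = {j}` (`exists_chain_pair`).  Fix a maximal chain `0 = c₀ < c₁ < … < c_m = 1`.
  Among all pairs `(a, b)` (for `T = {j}`: with `a = j`) take one for which the sequence
  `w ⊔ c_m, …, w ⊔ c₀` with `w = a ⊔ b` is lexicographically maximal.  Then every `y ≥ w` equals
  `w ⊔ c_k` for some `k`: otherwise take `k` maximal with `c_k ≤ y` and `d` minimal with `d ≤ y`,
  `d ≰ w ⊔ c_k`; the four elements `a, b, c_{k+1}, d` give `a ≤ b ⊔ c_{k+1} ⊔ d` (or the same with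
  `a` and `b` exchanged), and `(d, b)` is a better pair.  So `[w, 1]` is a chain.
-/

namespace Pool.Agent.H61.Fr.CopyBreadthThree

open Finset

/-! ## Numbers -/

lemma sum_lt_pow (B : ℕ) (f : ℕ → ℕ) :
    ∀ K : ℕ, (∀ j, j < K → f j < B) → ∑ j ∈ range K, B ^ j * f j < B ^ K := by
  intro K
  induction K with
  | zero => intro _; simp
  | succ K ih =>
    intro h
    have h1 := ih (fun j hj => h j (by omega))
    have h2 : f K + 1 ≤ B := h K (by omega)
    rw [Finset.sum_range_succ]
    calc ∑ j ∈ range K, B ^ j * f j + B ^ K * f K < B ^ K + B ^ K * f K := by omega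
      _ = B ^ K * (f K + 1) := by ring
      _ ≤ B ^ K * B := Nat.mul_le_mul_left _ h2
      _ = B ^ (K + 1) := (pow_succ B K).symm

lemma sum_lt_sum_of_lex (B : ℕ) (f g : ℕ → ℕ) (K : ℕ) (hf : ∀ j, j < K → f j < B)
    (hgt : ∀ j, K < j → f j ≤ g j) (hK : f K < g K) :
    ∀ M : ℕ, K ≤ M → ∑ j ∈ range (M + 1), B ^ j * f j < ∑ j ∈ range (M + 1), B ^ j * g j := by
  intro M
  induction M with
  | zero =>
    intro hM
    have hK0 : K = 0 := by omega
    subst hK0
    simpa using hK
  | succ M ih =>
    intro hM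
    rcases Nat.lt_or_ge M K with h | h
    · have hKM : K = M + 1 := by omega
      subst hKM
      have h1 := sum_lt_pow B f (M + 1) hf
      rw [Finset.sum_range_succ _ (M + 1), Finset.sum_range_succ _ (M + 1)]
      calc ∑ j ∈ range (M + 1), B ^ j * f j + B ^ (M + 1) * f (M + 1)
          < B ^ (M + 1) + B ^ (M + 1) * f (M + 1) := by omega
        _ = B ^ (M + 1) * (f (M + 1) + 1) := by ring
        _ ≤ B ^ (M + 1) * g (M + 1) := Nat.mul_le_mul_left _ hK
        _ ≤ ∑ j ∈ range (M + 1), B ^ j * g j + B ^ (M + 1) * g (M + 1) := Nat.le_add_left _ _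
    · have h1 := ih h
      rw [Finset.sum_range_succ _ (M + 1), Finset.sum_range_succ _ (M + 1)]
      have h2 : B ^ (M + 1) * f (M + 1) ≤ B ^ (M + 1) * g (M + 1) :=
        Nat.mul_le_mul_left _ (hgt _ (by omega))
      exact Nat.add_lt_add_of_lt_of_le h1 h2

/-! ## Lattices -/

section Lat

variable {L : Type*} [Lattice L]

lemma wcov_sup [IsUpperModularLattice L] {x y : L} (h : x ⩿ y) (z : L) : z ⊔ x ⩿ z ⊔ y := by
  by_cases hy : y ≤ z ⊔ x
  · have : z ⊔ y = z ⊔ x := le_antisymm (sup_le le_sup_left hy) (sup_le_sup_left h.le z)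
    rw [this]
    exact WCovBy.refl _
  · have hne : y ⊓ (z ⊔ x) ≠ y := fun he => hy (inf_eq_left.1 he)
    have hlt : y ⊓ (z ⊔ x) < y := lt_of_le_of_ne inf_le_left hne
    have hx : x ≤ y ⊓ (z ⊔ x) := le_inf h.le le_sup_right
    have hxe : y ⊓ (z ⊔ x) = x := by
      by_contra hc
      exact h.2 (lt_of_le_of_ne hx (Ne.symm hc)) hlt
    have hcov : y ⊓ (z ⊔ x) ⋖ y := by
      rw [hxe]
      exact h.covBy_of_ne (fun e => hne (by rw [hxe, e]))
    have h2 := IsUpperModularLattice.covBy_sup_of_inf_covBy hcov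
    have h3 : y ⊔ (z ⊔ x) = z ⊔ y := by
      apply le_antisymm
      · exact sup_le le_sup_right (sup_le_sup_left h.le z)
      · exact sup_le (le_sup_left.trans le_sup_right) le_sup_left
    rw [h3] at h2
    exact h2.wcovBy

lemma exists_chain [OrderBot L] [Finite L] (x : L) :
    ∃ (m : ℕ) (c : ℕ → L), c 0 = ⊥ ∧ c m = x ∧ ∀ k, c k ⩿ c (k + 1) := by
  induction x using WellFoundedLT.induction with
  | ind x ih =>
    by_cases hx : x = ⊥
    · exact ⟨0, fun _ => ⊥, rfl, hx.symm, fun k => WCovBy.refl _⟩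
    · have hlt : ⊥ < x := bot_lt_iff_ne_bot.2 hx
      obtain ⟨y, _, hy⟩ := exists_le_covBy_of_lt hlt
      obtain ⟨m, c, h0, hm, hc⟩ := ih y hy.lt
      refine ⟨m + 1, fun k => if k ≤ m then c k else x, ?_, ?_, ?_⟩
      · simp [h0]
      · simp
      · intro k
        rcases lt_trichotomy k m with h | h | h
        · have h1 : k ≤ m := h.le
          have h2 : k + 1 ≤ m := h
          simpa [h1, h2] using hc k
        · subst h
          simpa [hm] using hy.wcovBy
        · have h1 : ¬ k ≤ m := by omega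
          have h2 : ¬ k + 1 ≤ m := by omega
          simp [h1, h2]

lemma exists_last (c : ℕ → L) (y : L) (h0 : c 0 ≤ y) :
    ∀ m : ℕ, ∃ k, k ≤ m ∧ c k ≤ y ∧ (k = m ∨ ¬ c (k + 1) ≤ y) := by
  intro m
  induction m with
  | zero => exact ⟨0, le_rfl, h0, Or.inl rfl⟩
  | succ m ih =>
    obtain ⟨k, hk, hck, h⟩ := ih
    rcases h with h | h
    · subst h
      by_cases h1 : c (k + 1) ≤ y
      · exact ⟨k + 1, le_rfl, h1, Or.inl rfl⟩
      · exact ⟨k, by omega, hck, Or.inr h1⟩
    · exact ⟨k, by omega, hck, Or.inr h⟩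

lemma exists_supIrred_le [OrderBot L] [Finite L] {y v : L} (h : ¬ y ≤ v) :
    ∃ d : L, SupIrred d ∧ d ≤ y ∧ ¬ d ≤ v := by
  obtain ⟨d, ⟨hdy, hdv⟩, hmin⟩ :=
    (wellFounded_lt : WellFounded ((· < ·) : L → L → Prop)).has_min
      {z : L | z ≤ y ∧ ¬ z ≤ v} ⟨y, le_rfl, h⟩
  refine ⟨d, ⟨?_, ?_⟩, hdy, hdv⟩
  · intro hm
    exact hdv ((hm bot_le).trans bot_le)
  · intro b c hbc
    by_contra hcon
    push Not at hcon
    have hb : b < d := lt_of_le_of_ne (hbc ▸ le_sup_left) hcon.1
    have hc : c < d := lt_of_le_of_ne (hbc ▸ le_sup_right) hcon.2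
    have hb' : b ≤ v := by
      by_contra hn
      exact hmin b ⟨hb.le.trans hdy, hn⟩ hb
    have hc' : c ≤ v := by
      by_contra hn
      exact hmin c ⟨hc.le.trans hdy, hn⟩ hc
    exact hdv (hbc ▸ sup_le hb' hc')

end Lat

/-! ## Counting -/

section Count

variable {L : Type*} [Lattice L] [Fintype L]

open Classical in
/-- The number of elements above `a`. -/
noncomputable def up (a : L) : ℕ := (univ.filter (fun x : L => a ≤ x)).card

open Classical in
/-- The number of elements below `a`. -/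
noncomputable def dn (a : L) : ℕ := (univ.filter (fun x : L => x ≤ a)).card

lemma dn_mono {x y : L} (h : x ≤ y) : dn x ≤ dn y := by
  classical
  unfold dn
  apply Finset.card_le_card
  intro z hz
  simp only [mem_filter, mem_univ, true_and] at hz ⊢
  exact hz.trans h

lemma dn_lt {x y : L} (h : x < y) : dn x < dn y := by
  classical
  unfold dn
  apply Finset.card_lt_card
  rw [Finset.ssubset_iff_of_subset]
  · exact ⟨y, by simp, by simpa using not_le_of_gt h⟩
  · intro z hz
    simp only [mem_filter, mem_univ, true_and] at hz ⊢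
    exact hz.trans h.le

lemma dn_le (x : L) : dn x < Fintype.card L + 1 := by
  classical
  unfold dn
  exact Nat.lt_succ_of_le (Finset.card_le_univ _)

open Classical in
lemma up_add_up (a b : L)
    (h : (univ.filter (fun y : L => a ≤ y ∧ b ≤ y)).card ≤
      (univ.filter (fun x : L => ¬ a ≤ x ∧ ¬ b ≤ x)).card) :
    up a + up b ≤ Fintype.card L := by
  have h1 : up a + up b = (univ.filter (fun x : L => a ≤ x) ∪ univ.filter (fun x : L => b ≤ x)).card
      + (univ.filter (fun x : L => a ≤ x) ∩ univ.filter (fun x : L => b ≤ x)).card :=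
    (Finset.card_union_add_card_inter _ _).symm
  have h2 : univ.filter (fun x : L => a ≤ x) ∩ univ.filter (fun x : L => b ≤ x) =
      univ.filter (fun y : L => a ≤ y ∧ b ≤ y) := by
    ext z; simp
  have h3 : (univ.filter (fun x : L => a ≤ x) ∪ univ.filter (fun x : L => b ≤ x)).card +
      (univ.filter (fun x : L => ¬ a ≤ x ∧ ¬ b ≤ x)).card = Fintype.card L := by
    rw [← Finset.card_union_of_disjoint, ← Finset.card_univ]
    · congr 1
      ext z
      simp only [mem_union, mem_filter, mem_univ, true_and, iff_true]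
      tauto
    · rw [Finset.disjoint_left]
      intro z hz hz'
      simp only [mem_union, mem_filter, mem_univ, true_and] at hz hz'
      tauto
  rw [h2] at h1
  omega

end Count

section Main

variable {L : Type*} [Lattice L] [Fintype L] [BoundedOrder L]

/-- The potential of `w` along the chain `c`. -/
noncomputable def pot (c : ℕ → L) (m : ℕ) (w : L) : ℕ :=
  ∑ j ∈ range (m + 1), (Fintype.card L + 1) ^ j * dn (w ⊔ c j)

omit [BoundedOrder L] in
lemma pot_lt (c : ℕ → L) (hc : Monotone c) (m K : ℕ) (hK : K ≤ m) (w d w' : L)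
    (h : w ⊔ d ≤ w' ⊔ c K) (hd : ¬ d ≤ w ⊔ c K) : pot c m w < pot c m w' := by
  unfold pot
  refine sum_lt_sum_of_lex _ _ _ K (fun j _ => dn_le _) (fun j hj => ?_) ?_ m hK
  · apply dn_mono
    refine sup_le ?_ le_sup_right
    exact (le_sup_left.trans h).trans (sup_le_sup_left (hc hj.le) w')
  · apply dn_lt
    refine lt_of_le_of_ne (sup_le (le_sup_left.trans h) le_sup_right) (fun he => hd ?_)
    rw [he]
    exact le_sup_right.trans h

/-- For the best pair `a, b` every element above `w = a ⊔ b` has the form `w ⊔ c k`. -/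
lemma chain_above [IsUpperModularLattice L] (P : L → L → Prop)
    (hP : ∀ a b e d : L, P a b → SupIrred d →
      (P d b ∧ a ≤ b ⊔ e ⊔ d) ∨ (P a d ∧ b ≤ a ⊔ e ⊔ d) ∨ e ≤ a ⊔ b ⊔ d ∨ d ≤ a ⊔ b ⊔ e)
    (c : ℕ → L) (m : ℕ) (h0 : c 0 = ⊥) (hm : c m = ⊤)
    (hc : ∀ k, c k ⩿ c (k + 1)) (a b : L) (hab : P a b)
    (hmax : ∀ a' b' : L, P a' b' → pot c m (a' ⊔ b') ≤ pot c m (a ⊔ b))
    (y : L) (hy : a ⊔ b ≤ y) : ∃ k, k ≤ m ∧ y = a ⊔ b ⊔ c k := by
  have hmono : Monotone c := monotone_nat_of_le_succ (fun k => (hc k).le)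
  obtain ⟨k, hk, hck, hlast⟩ := exists_last c y (by rw [h0]; exact bot_le) m
  refine ⟨k, hk, ?_⟩
  rcases hlast with hkm | hlast
  · subst hkm
    apply le_antisymm
    · rw [hm]; exact le_top.trans le_sup_right
    · exact sup_le hy hck
  · by_contra hne
    have hle : a ⊔ b ⊔ c k ≤ y := sup_le hy hck
    have hnot : ¬ y ≤ a ⊔ b ⊔ c k := fun h => hne (le_antisymm h hle)
    obtain ⟨d, hdi, hdy, hd⟩ := exists_supIrred_le hnot
    have hkm : k + 1 ≤ m := by
      rcases Nat.lt_or_ge k m with h | h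
      · exact h
      · exfalso
        have hkm : k = m := le_antisymm hk h
        subst hkm
        exact hd (by rw [hm]; exact le_top.trans le_sup_right)
    -- `d` is not below `w ⊔ c (k+1)`
    have hd1 : ¬ d ≤ a ⊔ b ⊔ c (k + 1) := by
      intro hcon
      have hw := wcov_sup (hc k) (a ⊔ b)
      have hlt : a ⊔ b ⊔ c k < a ⊔ b ⊔ c k ⊔ d :=
        lt_of_le_of_ne le_sup_left (fun h => hd (by rw [h]; exact le_sup_right))
      have hle2 : a ⊔ b ⊔ c k ⊔ d ≤ a ⊔ b ⊔ c (k + 1) := sup_le hw.le hcon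
      have heq : a ⊔ b ⊔ c k ⊔ d = a ⊔ b ⊔ c (k + 1) := by
        by_contra hn
        exact hw.2 hlt (lt_of_le_of_ne hle2 hn)
      apply hlast
      calc c (k + 1) ≤ a ⊔ b ⊔ c (k + 1) := le_sup_right
        _ = a ⊔ b ⊔ c k ⊔ d := heq.symm
        _ ≤ y := sup_le hle hdy
    rcases hP a b (c (k + 1)) d hab hdi with ⟨hp, h⟩ | ⟨hp, h⟩ | h | h
    · -- replace `a` by `d`
      have h1 : a ⊔ b ⊔ d ≤ d ⊔ b ⊔ c (k + 1) := by
        refine sup_le (sup_le ?_ (le_sup_right.trans le_sup_left)) (le_sup_left.trans le_sup_left)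
        calc a ≤ b ⊔ c (k + 1) ⊔ d := h
          _ ≤ d ⊔ b ⊔ c (k + 1) :=
            sup_le (sup_le (le_sup_right.trans le_sup_left) le_sup_right)
              (le_sup_left.trans le_sup_left)
      exact absurd (hmax d b hp)
        (not_le_of_gt (pot_lt c hmono m (k + 1) hkm (a ⊔ b) d (d ⊔ b) h1 hd1))
    · -- replace `b` by `d`
      have h1 : a ⊔ b ⊔ d ≤ a ⊔ d ⊔ c (k + 1) := by
        refine sup_le (sup_le (le_sup_left.trans le_sup_left) ?_) (le_sup_right.trans le_sup_left)
        calc b ≤ a ⊔ c (k + 1) ⊔ d := h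
          _ ≤ a ⊔ d ⊔ c (k + 1) :=
            sup_le (sup_le (le_sup_left.trans le_sup_left) le_sup_right)
              (le_sup_right.trans le_sup_left)
      exact absurd (hmax a d hp)
        (not_le_of_gt (pot_lt c hmono m (k + 1) hkm (a ⊔ b) d (a ⊔ d) h1 hd1))
    · exact hlast (h.trans (sup_le hy hdy))
    · exact hd1 h

/-- A set of pairs with the exchange property contains a pair with a chain above its join. -/
lemma exists_chain_pair [IsUpperModularLattice L] (P : L → L → Prop)
    (hP : ∀ a b e d : L, P a b → SupIrred d →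
      (P d b ∧ a ≤ b ⊔ e ⊔ d) ∨ (P a d ∧ b ≤ a ⊔ e ⊔ d) ∨ e ≤ a ⊔ b ⊔ d ∨ d ≤ a ⊔ b ⊔ e)
    (hne : ∃ a b : L, P a b) :
    ∃ a b : L, P a b ∧ ∀ y z : L, a ⊔ b ≤ y → a ⊔ b ≤ z → y ≤ z ∨ z ≤ y := by
  classical
  obtain ⟨m, c, h0, hm, hc⟩ := exists_chain (⊤ : L)
  have hmono : Monotone c := monotone_nat_of_le_succ (fun k => (hc k).le)
  obtain ⟨a₀, b₀, hab₀⟩ := hne
  obtain ⟨⟨a, b⟩, hab, hmax⟩ := Finset.exists_max_image
    (univ.filter (fun p : L × L => P p.1 p.2)) (fun p => pot c m (p.1 ⊔ p.2))
    ⟨(a₀, b₀), by simpa using hab₀⟩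
  simp only [mem_filter, mem_univ, true_and] at hab hmax
  have key := chain_above P hP c m h0 hm hc a b hab (fun a' b' h => hmax (a', b') h)
  refine ⟨a, b, hab, fun y z hy hz => ?_⟩
  obtain ⟨k, _, hk⟩ := key y hy
  obtain ⟨l, _, hl⟩ := key z hz
  rcases le_total k l with h | h
  · left
    rw [hk, hl]
    exact sup_le_sup_left (hmono h) _
  · right
    rw [hk, hl]
    exact sup_le_sup_left (hmono h) _

/-- If `[a ⊔ b, 1]` is a chain for some join-irreducibles `a, b`, then some join-irreducible is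
below at most half of the elements. -/
lemma of_chain_above (h : ∃ a b : L, SupIrred a ∧ SupIrred b ∧
      ∀ y z : L, a ⊔ b ≤ y → a ⊔ b ≤ z → y ≤ z ∨ z ≤ y) :
    ∃ a : L, SupIrred a ∧ 2 * up a ≤ Fintype.card L := by
  classical
  obtain ⟨a₀, b₀, ha₀, hb₀, h₀⟩ := h
  obtain ⟨⟨a, b⟩, hab, hmin⟩ := Finset.exists_min_image
    (univ.filter (fun p : L × L => SupIrred p.1 ∧ SupIrred p.2 ∧
      ∀ y z : L, p.1 ⊔ p.2 ≤ y → p.1 ⊔ p.2 ≤ z → y ≤ z ∨ z ≤ y)) (fun p => up (p.1 ⊔ p.2))
    ⟨(a₀, b₀), by simp only [mem_filter, mem_univ, true_and]; exact ⟨ha₀, hb₀, h₀⟩⟩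
  simp only [mem_filter, mem_univ, true_and] at hab hmin
  obtain ⟨ha, hb, hch⟩ := hab
  have hne : ∀ a : L, SupIrred a → ¬ a ≤ ⊥ := fun a ha h => ha.1 (fun z _ => h.trans bot_le)
  have hlt : ∀ y : L, a ⊔ b < y → up y < up (a ⊔ b) := by
    intro y hy
    unfold up
    apply Finset.card_lt_card
    rw [Finset.ssubset_iff_of_subset]
    · exact ⟨a ⊔ b, by simp, by simpa using not_le_of_gt hy⟩
    · intro z hz
      simp only [mem_filter, mem_univ, true_and] at hz ⊢
      exact hy.le.trans hz
  -- every element above `a ⊔ b` is the join of `a ⊔ b` and an element above neither `a` nor `b`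
  have key : ∀ y : L, a ⊔ b ≤ y → ∃ e : L, ¬ a ≤ e ∧ ¬ b ≤ e ∧ a ⊔ b ⊔ e = y := by
    intro y hy
    by_cases hyw : y = a ⊔ b
    · exact ⟨⊥, hne a ha, hne b hb, by rw [hyw]; exact sup_bot_eq _⟩
    · have hwy : a ⊔ b < y := lt_of_le_of_ne hy (Ne.symm hyw)
      obtain ⟨e, he, hemin⟩ :=
        (wellFounded_lt : WellFounded ((· < ·) : L → L → Prop)).has_min
          {z : L | a ⊔ b ⊔ z = y} ⟨y, sup_eq_right.2 hy⟩
      have he' : a ⊔ b ⊔ e = y := he
      have hei : SupIrred e := by
        constructor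
        · intro hm
          apply hyw
          rw [← he']
          exact sup_eq_left.2 ((hm bot_le).trans bot_le)
        · intro p q hpq
          by_contra hcon
          push Not at hcon
          have hp : p < e := lt_of_le_of_ne (hpq ▸ le_sup_left) hcon.1
          have hq : q < e := lt_of_le_of_ne (hpq ▸ le_sup_right) hcon.2
          have hp' : a ⊔ b ⊔ p ≠ y := fun h => hemin p h hp
          have hq' : a ⊔ b ⊔ q ≠ y := fun h => hemin q h hq
          have hs : a ⊔ b ⊔ p ⊔ (a ⊔ b ⊔ q) = y := by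
            rw [← he', ← hpq]
            exact (sup_sup_distrib_left (a ⊔ b) p q).symm
          rcases hch (a ⊔ b ⊔ p) (a ⊔ b ⊔ q) le_sup_left le_sup_left with h | h
          · exact hq' ((sup_eq_right.2 h).symm.trans hs)
          · exact hp' ((sup_eq_left.2 h).symm.trans hs)
      refine ⟨e, ?_, ?_, he'⟩
      · intro hae
        have heq : e ⊔ b = y := by
          rw [← he']
          apply le_antisymm
          · exact sup_le le_sup_right (le_sup_right.trans le_sup_left)
          · exact sup_le (sup_le (hae.trans le_sup_left) le_sup_right) le_sup_left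
        have h1 := hmin (e, b) ⟨hei, hb, by
          simp only [heq]
          exact fun u v hu hv => hch u v (hy.trans hu) (hy.trans hv)⟩
        simp only [heq] at h1
        exact absurd (hlt y hwy) (not_lt_of_ge h1)
      · intro hbe
        have heq : a ⊔ e = y := by
          rw [← he']
          apply le_antisymm
          · exact sup_le (le_sup_left.trans le_sup_left) le_sup_right
          · exact sup_le (sup_le le_sup_left (hbe.trans le_sup_right)) le_sup_right
        have h1 := hmin (a, e) ⟨ha, hei, by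
          simp only [heq]
          exact fun u v hu hv => hch u v (hy.trans hu) (hy.trans hv)⟩
        simp only [heq] at h1
        exact absurd (hlt y hwy) (not_lt_of_ge h1)
  have hcard : (univ.filter (fun y : L => a ≤ y ∧ b ≤ y)).card ≤
      (univ.filter (fun x : L => ¬ a ≤ x ∧ ¬ b ≤ x)).card := by
    have key' : ∀ y : L, ∃ e : L, a ⊔ b ≤ y → (¬ a ≤ e ∧ ¬ b ≤ e ∧ a ⊔ b ⊔ e = y) := by
      intro y
      by_cases hy : a ⊔ b ≤ y
      · obtain ⟨e, he⟩ := key y hy
        exact ⟨e, fun _ => he⟩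
      · exact ⟨y, fun h => absurd h hy⟩
    choose g hg using key'
    apply Finset.card_le_card_of_injOn g
    · intro y hy
      have hy' : a ≤ y ∧ b ≤ y := by simpa using hy
      have h1 := hg y (sup_le hy'.1 hy'.2)
      simpa using ⟨h1.1, h1.2.1⟩
    · intro y hy z hz hyz
      have hy' : a ≤ y ∧ b ≤ y := by simpa using hy
      have hz' : a ≤ z ∧ b ≤ z := by simpa using hz
      have h1 := (hg y (sup_le hy'.1 hy'.2)).2.2
      have h2 := (hg z (sup_le hz'.1 hz'.2)).2.2
      rw [← h1, ← h2, hyz]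
  have h1 := up_add_up a b hcard
  rcases le_total (up a) (up b) with h | h
  · exact ⟨a, ha, by omega⟩
  · exact ⟨b, hb, by omega⟩

omit [Fintype L] [BoundedOrder L] in
/-- The four-element form of breadth at most three. -/
lemma four_of_card (h : ∀ S : Finset L, S.card = 4 →
      ∃ s ∈ S, ∀ z : L, (∀ t ∈ S, t ≠ s → t ≤ z) → s ≤ z) (p q r s : L) :
    p ≤ q ⊔ r ⊔ s ∨ q ≤ p ⊔ r ⊔ s ∨ r ≤ p ⊔ q ⊔ s ∨ s ≤ p ⊔ q ⊔ r := by
  classical
  by_contra hcon
  push Not at hcon
  obtain ⟨h1, h2, h3, h4⟩ := hcon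
  have hpq : p ≠ q := fun e => h1 (e.le.trans (le_sup_left.trans le_sup_left))
  have hpr : p ≠ r := fun e => h1 (e.le.trans (le_sup_right.trans le_sup_left))
  have hps : p ≠ s := fun e => h1 (e.le.trans le_sup_right)
  have hqr : q ≠ r := fun e => h2 (e.le.trans (le_sup_right.trans le_sup_left))
  have hqs : q ≠ s := fun e => h2 (e.le.trans le_sup_right)
  have hrs : r ≠ s := fun e => h3 (e.le.trans le_sup_right)
  obtain ⟨x, hx, hxz⟩ := h {p, q, r, s} (by simp [hpq, hpr, hps, hqr, hqs, hrs])
  simp only [mem_insert, mem_singleton] at hx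
  rcases hx with rfl | rfl | rfl | rfl
  · refine h1 (hxz _ fun t ht hne => ?_)
    simp only [mem_insert, mem_singleton] at ht
    rcases ht with rfl | rfl | rfl | rfl
    · exact absurd rfl hne
    · exact le_sup_left.trans le_sup_left
    · exact le_sup_right.trans le_sup_left
    · exact le_sup_right
  · refine h2 (hxz _ fun t ht hne => ?_)
    simp only [mem_insert, mem_singleton] at ht
    rcases ht with rfl | rfl | rfl | rfl
    · exact le_sup_left.trans le_sup_left
    · exact absurd rfl hne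
    · exact le_sup_right.trans le_sup_left
    · exact le_sup_right
  · refine h3 (hxz _ fun t ht hne => ?_)
    simp only [mem_insert, mem_singleton] at ht
    rcases ht with rfl | rfl | rfl | rfl
    · exact le_sup_left.trans le_sup_left
    · exact le_sup_right.trans le_sup_left
    · exact absurd rfl hne
    · exact le_sup_right
  · refine h4 (hxz _ fun t ht hne => ?_)
    simp only [mem_insert, mem_singleton] at ht
    rcases ht with rfl | rfl | rfl | rfl
    · exact le_sup_left.trans le_sup_left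
    · exact le_sup_right.trans le_sup_left
    · exact le_sup_right
    · exact absurd rfl hne

omit [Fintype L] [BoundedOrder L] in
/-- The three-element form of breadth at most two above `j`. -/
lemma three_of_card (j : L) (h : ∀ S : Finset L, (∀ s ∈ S, j ≤ s) → S.card = 3 →
      ∃ s ∈ S, ∀ z : L, (∀ t ∈ S, t ≠ s → t ≤ z) → s ≤ z) (p q r : L)
    (hp : j ≤ p) (hq : j ≤ q) (hr : j ≤ r) :
    p ≤ q ⊔ r ∨ q ≤ p ⊔ r ∨ r ≤ p ⊔ q := by
  classical
  by_contra hcon
  push Not at hcon
  obtain ⟨h1, h2, h3⟩ := hcon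
  have hpq : p ≠ q := fun e => h1 (e.le.trans le_sup_left)
  have hpr : p ≠ r := fun e => h1 (e.le.trans le_sup_right)
  have hqr : q ≠ r := fun e => h2 (e.le.trans le_sup_right)
  obtain ⟨x, hx, hxz⟩ := h {p, q, r}
    (by
      intro s hs
      simp only [mem_insert, mem_singleton] at hs
      rcases hs with rfl | rfl | rfl
      · exact hp
      · exact hq
      · exact hr)
    (by simp [hpq, hpr, hqr])
  simp only [mem_insert, mem_singleton] at hx
  rcases hx with rfl | rfl | rfl
  · refine h1 (hxz _ fun t ht hne => ?_)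
    simp only [mem_insert, mem_singleton] at ht
    rcases ht with rfl | rfl | rfl
    · exact absurd rfl hne
    · exact le_sup_left
    · exact le_sup_right
  · refine h2 (hxz _ fun t ht hne => ?_)
    simp only [mem_insert, mem_singleton] at ht
    rcases ht with rfl | rfl | rfl
    · exact le_sup_left
    · exact absurd rfl hne
    · exact le_sup_right
  · refine h3 (hxz _ fun t ht hne => ?_)
    simp only [mem_insert, mem_singleton] at ht
    rcases ht with rfl | rfl | rfl
    · exact le_sup_left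
    · exact le_sup_right
    · exact absurd rfl hne

omit [Fintype L] [BoundedOrder L] in
/-- The two-element form of breadth at most one above `a` and `b`. -/
lemma two_of_card (a b : L) (h : ∀ S : Finset L, (∀ s ∈ S, a ≤ s ∧ b ≤ s) → S.card = 2 →
      ∃ s ∈ S, ∀ z : L, (∀ t ∈ S, t ≠ s → t ≤ z) → s ≤ z) (y z : L)
    (hy : a ⊔ b ≤ y) (hz : a ⊔ b ≤ z) : y ≤ z ∨ z ≤ y := by
  classical
  by_contra hcon
  push Not at hcon
  obtain ⟨h1, h2⟩ := hcon
  have hyz : y ≠ z := fun e => h1 e.le
  obtain ⟨x, hx, hxz⟩ := h {y, z}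
    (by
      intro s hs
      simp only [mem_insert, mem_singleton] at hs
      rcases hs with rfl | rfl
      · exact sup_le_iff.1 hy
      · exact sup_le_iff.1 hz)
    (by simp [hyz])
  simp only [mem_insert, mem_singleton] at hx
  rcases hx with rfl | rfl
  · refine h1 (hxz _ fun t ht hne => ?_)
    simp only [mem_insert, mem_singleton] at ht
    rcases ht with rfl | rfl
    · exact absurd rfl hne
    · exact le_rfl
  · refine h2 (hxz _ fun t ht hne => ?_)
    simp only [mem_insert, mem_singleton] at ht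
    rcases ht with rfl | rfl
    · exact le_rfl
    · exact absurd rfl hne

end Main

/-- Frankl's inequality for a finite upper semimodular lattice `L` with a set `T` of at most two
join-irreducibles such that `[⋁ T, 1]` has breadth at most `3 - |T|`; for `T = ∅`: `L` has breadth
at most three.  (`s ≤ z` for all upper bounds `z` of the other elements of `S` says that `s` is
below the join of the others.) -/
theorem result (L : Type*) [Lattice L] [Finite L] [Nontrivial L] [IsUpperModularLattice L]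
    (T : Finset L) (hT : ∀ j ∈ T, SupIrred j) (hT2 : T.card ≤ 2)
    (h : ∀ S : Finset L, (∀ s ∈ S, ∀ j ∈ T, j ≤ s) → S.card + T.card = 4 →
      ∃ s ∈ S, ∀ z : L, (∀ t ∈ S, t ≠ s → t ≤ z) → s ≤ z) :
    ∃ a : L, SupIrred a ∧ 2 * Nat.card {x : L // a ≤ x} ≤ Nat.card L := by
  classical
  have := Fintype.ofFinite L
  let _ : BoundedOrder L := Fintype.toBoundedOrder L
  have hbt : ¬ (⊤ : L) ≤ ⊥ := fun h => bot_ne_top (le_antisymm bot_le h)
  obtain ⟨d, hd, -, -⟩ := exists_supIrred_le hbt
  have hch : ∃ a b : L, SupIrred a ∧ SupIrred b ∧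
      ∀ y z : L, a ⊔ b ≤ y → a ⊔ b ≤ z → y ≤ z ∨ z ≤ y := by
    have hT3 : T.card = 0 ∨ T.card = 1 ∨ T.card = 2 := by omega
    rcases hT3 with hc | hc | hc
    · -- `T = ∅`
      rw [Finset.card_eq_zero] at hc
      subst hc
      have h' := four_of_card (fun S hS => h S (by simp) (by simpa using hS))
      obtain ⟨a, b, ⟨ha, hb⟩, hab⟩ := exists_chain_pair
        (fun a b : L => SupIrred a ∧ SupIrred b)
        (fun a b e d hab hdi => by
          rcases h' a b e d with h1 | h1 | h1 | h1
          · exact Or.inl ⟨⟨hdi, hab.2⟩, h1⟩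
          · exact Or.inr (Or.inl ⟨⟨hab.1, hdi⟩, h1⟩)
          · exact Or.inr (Or.inr (Or.inl h1))
          · exact Or.inr (Or.inr (Or.inr h1)))
        ⟨d, d, hd, hd⟩
      exact ⟨a, b, ha, hb, hab⟩
    · -- `T = {j}`
      obtain ⟨j, rfl⟩ := Finset.card_eq_one.1 hc
      have hj : SupIrred j := hT j (Finset.mem_singleton_self j)
      have h' := three_of_card j (fun S hj hS => h S (by simpa using hj) (by rw [hc, hS]))
      obtain ⟨a, b, ⟨ha, hb⟩, hab⟩ := exists_chain_pair
        (fun a b : L => a = j ∧ SupIrred b)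
        (fun a b e d hab hdi => by
          obtain ⟨rfl, hb⟩ := hab
          rcases h' (a ⊔ b) (a ⊔ e) (a ⊔ d) le_sup_left le_sup_left le_sup_left with h1 | h1 | h1
          · refine Or.inr (Or.inl ⟨⟨rfl, hdi⟩, (le_sup_right.trans h1).trans ?_⟩)
            exact sup_le le_sup_left (sup_le (le_sup_left.trans le_sup_left) le_sup_right)
          · refine Or.inr (Or.inr (Or.inl ((le_sup_right.trans h1).trans ?_)))
            exact sup_le le_sup_left (sup_le (le_sup_left.trans le_sup_left) le_sup_right)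
          · refine Or.inr (Or.inr (Or.inr ((le_sup_right.trans h1).trans ?_)))
            exact sup_le le_sup_left (sup_le (le_sup_left.trans le_sup_left) le_sup_right))
        ⟨j, d, rfl, hd⟩
      exact ⟨a, b, ha ▸ hj, hb, hab⟩
    · -- `T = {a, b}`
      obtain ⟨a, b, hne, rfl⟩ := Finset.card_eq_two.1 hc
      exact ⟨a, b, hT a (by simp), hT b (by simp),
        two_of_card a b (fun S hj hS => h S (by simpa using hj) (by rw [hc, hS]))⟩
  obtain ⟨a, ha, hu⟩ := of_chain_above hch
  refine ⟨a, ha, ?_⟩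
  rw [Nat.card_eq_fintype_card, Nat.card_eq_fintype_card, Fintype.card_subtype]
  have : up a = (univ.filter (fun x : L => a ≤ x)).card := by
    unfold up
    congr
  rw [← this]
  exact hu


end Pool.Agent.H61.Fr.CopyBreadthThree
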