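import Mathlib
import Pool.Agent.Helpers87.FewMain

set_option autoImplicit false

/-!
# Frankl's inequality for large finite lattices with few maximal join-irreducible elements

Let `L` be a finite lattice with `N` elements, let `z ∈ L`, let `κ` be the number of elements below
`z`, and let `j_1, ..., j_r` be join-irreducibles such that every join-irreducible is below `z` or
below some `j_m` (for instance `z = 0` and all maximal join-irreducibles).  Let `K ≤ 2 ^ r` be the
number of different sets `T(x) = {m : j_m ≤ x}`.  If `N > (K κ) ^ (r + 1)`, then some `j_m` satisfies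
`2 |{x : j_m ≤ x}| < N`.

Proof.  Let `c N` be the smallest of the numbers `|{x : j_m ≤ x}|`.

* (`Weights.lean`, `WeightsZ.lean`)  For every class `D = {x : T(x) = S}` there are weights
  `w_S(m) ≥ 0` with `log |D| ≤ log κ + ∑_m w_S(m)` such that `∑_{m ∈ A} w_S(m)` is at most the
  logarithm of the number of different families `(x ⊓ j_m)_{m ∈ A}`, `x ∈ D`, for every `A` (a chain
  rule for entropies, proved by an elementary induction).
* For `x, y ∈ L` the meet `x ⊓ y` determines `x ⊓ j_m` for `m ∈ T(y)` and `y ⊓ j_m` for `m ∈ T(x)`.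
  Hence `M(x, y) = ∑_{m ∈ T(y)} w_{T(x)}(m) + ∑_{m ∈ T(x)} w_{T(y)}(m)` is at most `log N`, and it is
  `0` for `x = y`.
* The sum of all `M(x, y)` is at least `2 c N ∑_x (log |{y : T(y) = T(x)}| - log κ)`, and this is at
  least `2 c N ^ 2 (log N - log K - log κ)`, because there are `K` classes.
* (`H68/Fr/TracePos.lean`)  The matrix `P = (log N - M(x, y))` is symmetric, has at most `r + 1`
  positive eigenvalues, entries in `[0, log N]` and diagonal `log N`.  So
  `(N log N)^2 = (trace P)^2 ≤ (r + 1) ∑ P(x, y)^2 ≤ (r + 1) (log N) ∑ P(x, y)`, and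
  `log N ≤ (r + 1) (log N - 2 c (log N - log K - log κ))`.
-/

namespace Pool.Agent.H61.Fr.CopyFewMaximal

/-- In a finite lattice `z ≤ w` holds as soon as every join-irreducible below `z` is below `w`. -/
lemma le_of_forall_supIrred {L : Type*} [Lattice L] [Finite L] {z w : L}
    (h : ∀ c : L, SupIrred c → c ≤ z → c ≤ w) : z ≤ w := by
  by_contra hzw
  obtain ⟨c, hc⟩ := (Set.toFinite {c : L | c ≤ z ∧ ¬ c ≤ w}).exists_minimal ⟨z, le_rfl, hzw⟩
  have hbelow : ∀ e : L, e < c → e ≤ w := by
    intro e he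
    by_contra hew
    exact absurd (hc.le_of_le ⟨he.le.trans hc.prop.1, hew⟩ he.le) (not_le_of_gt he)
  refine hc.prop.2 (h c ⟨fun hmin => hc.prop.2 ((hmin inf_le_left).trans inf_le_right), ?_⟩
    hc.prop.1)
  intro b e hbe
  by_contra hne
  have hb : b < c := lt_of_le_of_ne (hbe ▸ le_sup_left) (fun h' => hne (Or.inl h'))
  have he : e < c := lt_of_le_of_ne (hbe ▸ le_sup_right) (fun h' => hne (Or.inr h'))
  exact hc.prop.2 (hbe ▸ sup_le (hbelow b hb) (hbelow e he))

/-- Let `L` be a finite lattice (semimodular or not), `z ∈ L`, and `M` a set of `r` join-irreducible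
elements such that every join-irreducible is below `z` or below an element of `M`.  Let `κ` be the
number of elements below `z` and `K` the number of different sets `{m ∈ M : m ≤ x}`, `x ∈ L` (so
`K ≤ 2 ^ r`).  If `|L| > (K * κ) ^ (r + 1)`, then some `a ∈ M` satisfies
`2 * |{x : a ≤ x}| < |L|`. -/
theorem result {L : Type*} [Lattice L] [Finite L] (z : L) (M : Finset L)
    (hM : ∀ m ∈ M, SupIrred m) (hdom : ∀ a : L, SupIrred a → a ≤ z ∨ ∃ m ∈ M, a ≤ m)
    (hL : ((Set.range fun x : L => {m : L | m ∈ M ∧ m ≤ x}).ncard *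
      Nat.card {x : L // x ≤ z}) ^ (M.card + 1) < Nat.card L) :
    ∃ a ∈ M, SupIrred a ∧ 2 * Nat.card {x : L // a ≤ x} < Nat.card L := by
  classical
  have := Fintype.ofFinite L
  have hup : ∀ m : L, Nat.card {x : L // m ≤ x} = (Finset.univ.filter fun x : L => m ≤ x).card := by
    intro m
    rw [Nat.card_eq_fintype_card, Fintype.card_subtype]
  set κ : ℕ := Nat.card {x : L // x ≤ z} with hκdef
  have hκpos : 0 < κ := by
    rw [hκdef, Nat.card_pos_iff]
    exact ⟨⟨⟨z, le_rfl⟩⟩, inferInstance⟩
  have hκ : ((Finset.univ : Finset L).image (fun x => x ⊓ z)).card ≤ κ := by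
    rw [hκdef, Nat.card_eq_fintype_card, Fintype.card_subtype]
    refine Finset.card_le_card (fun y hy => ?_)
    obtain ⟨x, _, rfl⟩ := Finset.mem_image.1 hy
    exact Finset.mem_filter.2 ⟨Finset.mem_univ _, inf_le_right⟩
  set K : ℕ := (Set.range fun x : L => {m : L | m ∈ M ∧ m ≤ x}).ncard with hKdef
  have hKpos : 0 < K := by
    rw [hKdef, Set.ncard_pos (Set.toFinite _)]
    exact ⟨_, z, rfl⟩
  have hN : Nat.card L = Fintype.card L := Nat.card_eq_fintype_card
  rw [hN] at hL ⊢
  have hbase : 1 ≤ (K * κ) ^ (M.card + 1) := Nat.one_le_pow _ _ (Nat.mul_pos hKpos hκpos)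
  have hcard2 : 2 ≤ Fintype.card L := by omega
  have hMne : M.Nonempty := by
    rw [Finset.nonempty_iff_ne_empty]
    intro hMe
    have hz : ∀ x : L, x ≤ z := fun x => le_of_forall_supIrred fun c hc _ => by
      rcases hdom c hc with h | ⟨m, hm, _⟩
      · exact h
      · simp [hMe] at hm
    have h1 : κ = Fintype.card L := by
      rw [hκdef, Nat.card_eq_fintype_card]
      exact Fintype.card_of_subtype Finset.univ (fun x => by simp [hz x])
    rw [hMe, Finset.card_empty, zero_add, pow_one, h1] at hL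
    have h2 : Fintype.card L ≤ K * Fintype.card L := Nat.le_mul_of_pos_left _ hKpos
    omega
  -- a member of `M` with the smallest filter
  obtain ⟨a, haM, hmin⟩ := Finset.exists_min_image M
    (fun m => (Finset.univ.filter fun x : L => m ≤ x).card) hMne
  set r := M.card with hrdef
  let j : Fin r → L := fun m => (M.equivFin.symm m : L)
  have hj : ∀ m, j m ∈ M := fun m => (M.equivFin.symm m).2
  have hjs : ∀ a ∈ M, ∃ m, j m = a := fun a ha => ⟨M.equivFin ⟨a, ha⟩, by simp [j]⟩
  have hle : ∀ x y : L, x ⊓ z = y ⊓ z → (∀ m, x ⊓ j m = y ⊓ j m) → x ≤ y := by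
    intro x y h0 h
    refine le_of_forall_supIrred (fun c hc hcx => ?_)
    rcases hdom c hc with hcz | ⟨a, ha, hca⟩
    · have h1 : c ≤ x ⊓ z := le_inf hcx hcz
      rw [h0] at h1
      exact h1.trans inf_le_left
    · obtain ⟨m, rfl⟩ := hjs a ha
      have h1 : c ≤ x ⊓ j m := le_inf hcx hca
      rw [h m] at h1
      exact h1.trans inf_le_left
  have hK : ((Finset.univ : Finset L).image
      (fun x => (Finset.univ.filter (fun m => j m ≤ x) : Finset (Fin r)))).card ≤ K := by
    have h1 : ((Finset.univ : Finset L).image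
        (fun x => (Finset.univ.filter (fun m => j m ≤ x) : Finset (Fin r)))) =
        ((Finset.univ : Finset L).image (fun x : L => {m : L | m ∈ M ∧ m ≤ x})).image
          (fun S => (Finset.univ.filter (fun m => j m ∈ S) : Finset (Fin r))) := by
      rw [Finset.image_image]
      refine Finset.image_congr (fun x _ => ?_)
      ext m
      simp [hj m]
    rw [h1, hKdef, ← Set.image_univ, ← Finset.coe_univ, ← Finset.coe_image, Set.ncard_coe_finset]
    exact Finset.card_image_le
  have hNpos : (0 : ℝ) < (Fintype.card L : ℝ) := by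
    have : 0 < Fintype.card L := by omega
    exact_mod_cast this
  set u : ℕ := (Finset.univ.filter fun x : L => a ≤ x).card with hu
  have hmain := Pool.Agent.Helpers87.FewMaximal.log_card_le_of_freq r j z
    (fun x y h0 h => le_antisymm (hle x y h0 h) (hle y x h0.symm (fun m => (h m).symm)))
    κ hκ K hK ((u : ℝ) / (Fintype.card L : ℝ)) (by positivity)
    (fun m => by
      rw [div_mul_cancel₀ _ hNpos.ne']
      exact_mod_cast hmin (j m) (hj m)) hcard2
  have hκr : (0 : ℝ) < (κ : ℝ) := by exact_mod_cast hκpos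
  have hKr : (0 : ℝ) < (K : ℝ) := by exact_mod_cast hKpos
  set Λ : ℝ := Real.log (Fintype.card L : ℝ) with hΛ
  refine ⟨a, haM, hM a haM, ?_⟩
  rw [hup]
  by_contra hlt
  have hge : (1 : ℝ) ≤ 2 * ((u : ℝ) / (Fintype.card L : ℝ)) := by
    have h1 : (Fintype.card L : ℝ) ≤ 2 * (u : ℝ) := by exact_mod_cast not_lt.1 hlt
    rw [← mul_div_assoc, le_div_iff₀ hNpos]
    linarith
  have hlog : (r + 1) * (Real.log (K : ℝ) + Real.log (κ : ℝ)) < Λ := by
    have h1 : Real.log (((K : ℝ) * (κ : ℝ)) ^ (r + 1)) < Λ :=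
      Real.log_lt_log (by positivity) (by exact_mod_cast hL)
    rw [Real.log_pow, Real.log_mul hKr.ne' hκr.ne'] at h1
    push_cast at h1
    exact h1
  have hlogκ : 0 ≤ Real.log (κ : ℝ) := Real.log_nonneg (by exact_mod_cast hκpos)
  have hlogK : 0 ≤ Real.log (K : ℝ) := Real.log_nonneg (by exact_mod_cast hKpos)
  have hr0 : (0 : ℝ) ≤ (r : ℝ) := Nat.cast_nonneg _
  have hq : 0 ≤ Λ - Real.log (K : ℝ) - Real.log (κ : ℝ) := by
    nlinarith [mul_nonneg hr0 (add_nonneg hlogK hlogκ)]
  have h2 : Λ ≤ (r + 1) * (Λ - (Λ - Real.log (K : ℝ) - Real.log (κ : ℝ))) := by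
    refine hmain.trans (mul_le_mul_of_nonneg_left ?_ (by positivity))
    have := mul_le_mul_of_nonneg_right hge hq
    linarith
  linarith [h2]

end Pool.Agent.H61.Fr.CopyFewMaximal
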