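import Mathlib

set_option autoImplicit false

/-!
# Frankl's inequality for upper semimodular lattices with few lower covers above a left modular element

Let `L` be a finite upper semimodular lattice and `s` a left modular element of `L`, that is,
`(x ∨ s) ∧ z = x ∨ (s ∧ z)` for all `x ≤ z`, and not the greatest element, such that every element
that is an irredundant join of four elements of `[s, 1]` covers at most four elements of `L`.
(For `s = 0`: every irredundant join of four elements covers at most four elements; for instance `L`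
has breadth at most three, or every element of `L` covers at most four elements.)  Then some
join-irreducible, not below `s`, lies under at most half of the elements of `L`.

Proof.  If `a ∨ s = 1` for a join-irreducible `a`, then `y = a ∨ (s ∧ y)` for all `y ≥ a`.
Otherwise take `c ≥ s` maximal such that no join-irreducible `a` has `a ∨ c = 1`; then some
join-irreducibles `a`, `b` have `a ∨ b ∨ c = 1`, and they are not below `c`.  Fix a maximal chain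
`s = c₀ < ... < c_m = c` and take the pair `a`, `b` for which the sequence
`(w ∨ c_m, ..., w ∨ c₀)`, `w = a ∨ b`, is lexicographically maximal.  Then (exchange) if a
join-irreducible `d` is not below `w ∨ c_j`, `a` is not below `b ∨ d ∨ c_j`, and `b` is not below
`a ∨ d ∨ c_j`.  Let `y ≥ w`.  If `y ≥ s`, let `k` be the last index with `c_k ≤ y` and `t = c_k`;
otherwise let `k = 0` and `t = s ∧ y`.  In both cases `w ∨ t ≤ v ≤ x ≤ y` and `x ≤ v ∨ c_k` imply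
`x = v`.  Now `y` is `w ∨ t` or `w ∨ t ∨ d` with a join-irreducible `d`: otherwise there are
join-irreducibles `d₁, d₂ ≤ y` with `w ∨ t ∨ d₁`, `w ∨ t ∨ d₂` incomparable, hence also
`w ∨ c_k ∨ d₁`, `w ∨ c_k ∨ d₂`, and for the last `i` with `w ∨ c_i ∨ d₁`, `w ∨ c_i ∨ d₂`
incomparable the element `w ∨ d₂ ∨ c_(i+1) = w ∨ c_i ∨ d₁ ∨ d₂` is an irredundant join of four
elements of `[s, 1]` and covers at least five elements.  So `y = w ∨ x` with `x = t` or `x = t ∨ d`,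
which is above neither `a` nor `b`, and the elements above `a` and `b` are at most as many as those
above neither.
-/

namespace Pool.Agent.H61.Fr.CopyFourCovers

variable {L : Type*} [Lattice L]

/-- If `y` is not below `v`, some join-irreducible below `y` is not below `v`. -/
lemma exists_irr [Finite L] {y v : L} (h : ¬ y ≤ v) :
    ∃ d : L, SupIrred d ∧ d ≤ y ∧ ¬ d ≤ v := by
  classical
  obtain ⟨c, hc⟩ := (Set.toFinite {c : L | c ≤ y ∧ ¬ c ≤ v}).exists_minimal ⟨y, le_rfl, h⟩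
  have key : ∀ e : L, e < c → e ≤ v := by
    intro e he
    by_contra hew
    exact absurd (hc.le_of_le ⟨he.le.trans hc.prop.1, hew⟩ he.le) (not_le_of_gt he)
  refine ⟨c, ⟨fun hmin => hc.prop.2 ((hmin inf_le_left).trans inf_le_right), ?_⟩,
    hc.prop.1, hc.prop.2⟩
  intro b d hbd
  by_contra hne
  push Not at hne
  have hb : b < c := lt_of_le_of_ne (hbd ▸ le_sup_left) hne.1
  have hd : d < c := lt_of_le_of_ne (hbd ▸ le_sup_right) hne.2
  exact hc.prop.2 (hbd ▸ sup_le (key b hb) (key d hd))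

/-- A maximal chain from `s` to `c`. -/
lemma exists_chain [Finite L] (s c : L) (hsc : s ≤ c) :
    ∃ (m : ℕ) (ch : ℕ → L), ch 0 = s ∧ ch m = c ∧ ∀ i < m, ch i ⋖ ch (i + 1) := by
  induction c using WellFoundedLT.induction with
  | ind c ih =>
    rcases eq_or_lt_of_le hsc with h | h
    · exact ⟨0, fun _ => s, rfl, h, fun i hi => absurd hi (Nat.not_lt_zero i)⟩
    · obtain ⟨e, hse, hec⟩ := exists_le_covBy_of_lt h
      obtain ⟨m, ch, h0, hm, hcov⟩ := ih e hec.lt hse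
      refine ⟨m + 1, fun i => if i ≤ m then ch i else c, by simp [h0], by simp, ?_⟩
      intro i hi
      rcases Nat.lt_succ_iff_lt_or_eq.mp hi with h1 | h1
      · have h2 : i ≤ m := h1.le
        have h3 : i + 1 ≤ m := h1
        simp only [h2, h3, if_true]
        exact hcov i h1
      · subst h1
        simp only [le_refl, if_true, Nat.not_succ_le_self, if_false]
        rw [hm]
        exact hec

/-- A lexicographically maximal element. -/
lemma exists_lexmax {P : Type*} (f : ℕ → P → L) [Finite P] (n : ℕ) (S : Set P)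
    (hS : S.Nonempty) :
    ∃ p ∈ S, ∀ q ∈ S, ∀ j < n, (∀ i, j ≤ i → i < n → f i p ≤ f i q) → f j q ≤ f j p := by
  induction n generalizing S with
  | zero =>
    obtain ⟨p, hp⟩ := hS
    exact ⟨p, hp, fun q _ j hj => absurd hj (Nat.not_lt_zero j)⟩
  | succ n ih =>
    obtain ⟨p0, hp0⟩ := Set.Finite.exists_maximalFor (f n) S (Set.toFinite S) hS
    obtain ⟨p, hp, hlex⟩ := ih {q | q ∈ S ∧ f n q = f n p0} ⟨p0, hp0.1, rfl⟩
    refine ⟨p, hp.1, fun q hq j hj hle => ?_⟩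
    have h1 : f n p0 ≤ f n q := by
      rw [← hp.2]
      exact hle n (Nat.lt_succ_iff.mp hj) (Nat.lt_succ_self n)
    have h2 : f n q = f n p0 := le_antisymm (hp0.2 hq h1) h1
    rcases Nat.lt_succ_iff_lt_or_eq.mp hj with h3 | h3
    · exact hlex q ⟨hq, h2⟩ j h3 (fun i hi hin => hle i hi (hin.trans (Nat.lt_succ_self n)))
    · subst h3
      rw [h2, hp.2]

lemma wcov_sup [IsUpperModularLattice L] {s t : L} (h : s ⋖ t) (w : L) : w ⊔ s ⩿ w ⊔ t := by
  by_cases ht : t ≤ w ⊔ s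
  · have : w ⊔ t = w ⊔ s := le_antisymm (sup_le le_sup_left ht) (sup_le_sup_left h.le w)
    rw [this]
    exact WCovBy.refl _
  · have hinf : t ⊓ (w ⊔ s) = s := by
      rcases h.eq_or_eq (le_inf h.le le_sup_right) inf_le_left with h1 | h1
      · exact h1
      · exact absurd (inf_eq_left.mp h1) ht
    have hcov : w ⊔ s ⋖ t ⊔ (w ⊔ s) := covBy_sup_of_inf_covBy_left (by rw [hinf]; exact h)
    have : t ⊔ (w ⊔ s) = w ⊔ t := by
      rw [sup_left_comm, sup_eq_left.mpr h.le]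
    rw [this] at hcov
    exact hcov.wcovBy

/-- Five lower covers. -/
lemma five_covers [Finite L] [IsUpperModularLattice L] {a b d₁ d₂ s t : L} (hst : s ⋖ t)
    (h1 : ¬ d₁ ≤ a ⊔ b ⊔ s ⊔ d₂) (h2 : ¬ d₂ ≤ a ⊔ b ⊔ s ⊔ d₁)
    (h3 : d₁ ≤ a ⊔ b ⊔ t ⊔ d₂) (h4 : ¬ s ≤ a ⊔ b ⊔ d₁ ⊔ d₂)
    (ha : ¬ a ≤ b ⊔ d₂ ⊔ t) (hb : ¬ b ≤ a ⊔ d₂ ⊔ t) :
    ¬ {x : L | x ⋖ a ⊔ b ⊔ d₂ ⊔ t}.ncard ≤ 4 := by
  set Z := a ⊔ b ⊔ d₂ ⊔ t with hZ
  have haZ : a ≤ Z := le_sup_left.trans (le_sup_left.trans le_sup_left)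
  have hbZ : b ≤ Z := le_sup_right.trans (le_sup_left.trans le_sup_left)
  have hdZ : d₂ ≤ Z := le_sup_right.trans le_sup_left
  have htZ : t ≤ Z := le_sup_right
  have hsZ : s ≤ Z := hst.le.trans htZ
  have hle : ∀ z : L, a ≤ z → b ≤ z → d₂ ≤ z → t ≤ z → Z ≤ z := fun z p q r u =>
    sup_le (sup_le (sup_le p q) r) u
  have hd1Z : d₁ ≤ Z := h3.trans (sup_le (sup_le (sup_le haZ hbZ) htZ) hdZ)
  -- the first lower cover
  have hcov : a ⊔ b ⊔ d₂ ⊔ s ⩿ Z := wcov_sup hst (a ⊔ b ⊔ d₂)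
  have hus : a ⊔ b ⊔ s ⊔ d₂ = a ⊔ b ⊔ d₂ ⊔ s := sup_right_comm _ _ _
  rw [hus] at h1
  have hu : a ⊔ b ⊔ d₂ ⊔ s ⋖ Z := by
    refine hcov.covBy_of_ne (fun h => h1 ?_)
    rw [h]
    exact hd1Z
  -- `Z` is also generated by `a, b, s, d₁, d₂`
  have hZ' : ∀ z : L, a ≤ z → b ≤ z → s ≤ z → d₁ ≤ z → d₂ ≤ z → Z ≤ z := by
    intro z p q r u v
    have h5 : a ⊔ b ⊔ d₂ ⊔ s < (a ⊔ b ⊔ d₂ ⊔ s) ⊔ d₁ :=
      lt_of_le_of_ne le_sup_left (fun h => h1 (by rw [h]; exact le_sup_right))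
    have h6 : (a ⊔ b ⊔ d₂ ⊔ s) ⊔ d₁ ≤ Z := sup_le hu.le hd1Z
    rcases hu.eq_or_eq h5.le h6 with h7 | h7
    · exact absurd h7 h5.ne'
    · rw [← h7]
      exact sup_le (sup_le (sup_le (sup_le p q) v) r) u
  have cov : ∀ z : L, z ≤ Z → z ≠ Z → ∃ m : L, m ⋖ Z ∧ z ≤ m := by
    intro z hz hne
    obtain ⟨m, hm1, hm2⟩ := exists_le_covBy_of_lt (lt_of_le_of_ne hz hne)
    exact ⟨m, hm2, hm1⟩
  obtain ⟨m₂, hm₂, hm₂'⟩ := cov (a ⊔ b ⊔ s ⊔ d₁)
    (sup_le (sup_le (sup_le haZ hbZ) hsZ) hd1Z) (fun h => h2 (by rw [h]; exact hdZ))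
  obtain ⟨m₃, hm₃, hm₃'⟩ := cov (a ⊔ b ⊔ d₁ ⊔ d₂)
    (sup_le (sup_le (sup_le haZ hbZ) hd1Z) hdZ) (fun h => h4 (by rw [h]; exact hsZ))
  obtain ⟨m₄, hm₄, hm₄'⟩ := cov (b ⊔ d₂ ⊔ t)
    (sup_le (sup_le hbZ hdZ) htZ) (fun h => ha (by rw [h]; exact haZ))
  obtain ⟨m₅, hm₅, hm₅'⟩ := cov (a ⊔ d₂ ⊔ t)
    (sup_le (sup_le haZ hdZ) htZ) (fun h => hb (by rw [h]; exact hbZ))
  -- what the five lower covers contain
  have a1 : a ≤ a ⊔ b ⊔ d₂ ⊔ s := le_sup_left.trans (le_sup_left.trans le_sup_left)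
  have b1 : b ≤ a ⊔ b ⊔ d₂ ⊔ s := le_sup_right.trans (le_sup_left.trans le_sup_left)
  have e1 : d₂ ≤ a ⊔ b ⊔ d₂ ⊔ s := le_sup_right.trans le_sup_left
  have s1 : s ≤ a ⊔ b ⊔ d₂ ⊔ s := le_sup_right
  have a2 : a ≤ m₂ := (le_sup_left.trans (le_sup_left.trans le_sup_left)).trans hm₂'
  have b2 : b ≤ m₂ := (le_sup_right.trans (le_sup_left.trans le_sup_left)).trans hm₂'
  have s2 : s ≤ m₂ := (le_sup_right.trans le_sup_left).trans hm₂'
  have f2 : d₁ ≤ m₂ := le_sup_right.trans hm₂'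
  have e2 : ¬ d₂ ≤ m₂ := fun h => absurd (hZ' m₂ a2 b2 s2 f2 h) (not_le_of_gt hm₂.lt)
  have a3 : a ≤ m₃ := (le_sup_left.trans (le_sup_left.trans le_sup_left)).trans hm₃'
  have b3 : b ≤ m₃ := (le_sup_right.trans (le_sup_left.trans le_sup_left)).trans hm₃'
  have f3 : d₁ ≤ m₃ := (le_sup_right.trans le_sup_left).trans hm₃'
  have e3 : d₂ ≤ m₃ := le_sup_right.trans hm₃'
  have s3 : ¬ s ≤ m₃ := fun h => absurd (hZ' m₃ a3 b3 h f3 e3) (not_le_of_gt hm₃.lt)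
  have b4 : b ≤ m₄ := (le_sup_left.trans le_sup_left).trans hm₄'
  have e4 : d₂ ≤ m₄ := (le_sup_right.trans le_sup_left).trans hm₄'
  have t4 : t ≤ m₄ := le_sup_right.trans hm₄'
  have a4 : ¬ a ≤ m₄ := fun h => absurd (hle m₄ h b4 e4 t4) (not_le_of_gt hm₄.lt)
  have a5 : a ≤ m₅ := (le_sup_left.trans le_sup_left).trans hm₅'
  have e5 : d₂ ≤ m₅ := (le_sup_right.trans le_sup_left).trans hm₅'
  have t5 : t ≤ m₅ := le_sup_right.trans hm₅'
  have b5 : ¬ b ≤ m₅ := fun h => absurd (hle m₅ a5 h e5 t5) (not_le_of_gt hm₅.lt)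
  classical
  have hcard : (({a ⊔ b ⊔ d₂ ⊔ s, m₂, m₃, m₄, m₅} : Finset L)).card = 5 := by
    rw [Finset.card_insert_of_notMem, Finset.card_insert_of_notMem,
      Finset.card_insert_of_notMem, Finset.card_insert_of_notMem, Finset.card_singleton]
    · simp only [Finset.mem_singleton]
      exact fun h => a4 (h ▸ a5)
    · simp only [Finset.mem_insert, Finset.mem_singleton, not_or]
      exact ⟨fun h => a4 (h ▸ a3), fun h => b5 (h ▸ b3)⟩
    · simp only [Finset.mem_insert, Finset.mem_singleton, not_or]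
      exact ⟨fun h => s3 (h ▸ s2), fun h => a4 (h ▸ a2), fun h => b5 (h ▸ b2)⟩
    · simp only [Finset.mem_insert, Finset.mem_singleton, not_or]
      exact ⟨fun h => e2 (h ▸ e1), fun h => s3 (h ▸ s1), fun h => a4 (h ▸ a1),
        fun h => b5 (h ▸ b1)⟩
  have hsub : (({a ⊔ b ⊔ d₂ ⊔ s, m₂, m₃, m₄, m₅} : Finset L) : Set L) ⊆ {x : L | x ⋖ Z} := by
    intro x hx
    simp only [Finset.coe_insert, Finset.coe_singleton, Set.mem_insert_iff,
      Set.mem_singleton_iff] at hx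
    rcases hx with rfl | rfl | rfl | rfl | rfl
    · exact hu
    · exact hm₂
    · exact hm₃
    · exact hm₄
    · exact hm₅
  have h8 := Set.ncard_le_ncard hsub (Set.toFinite _)
  rw [Set.ncard_coe_finset, hcard] at h8
  omega

/-- A pair of join-irreducibles `a`, `b` such that every element above both is
`x ⊔ (a ⊔ b)` with `x` above neither. -/
lemma exists_pair [BoundedOrder L] [Finite L] [IsUpperModularLattice L] (s : L)
    (hmod : ∀ x z : L, x ≤ z → (x ⊔ s) ⊓ z = x ⊔ (s ⊓ z))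
    (h : ∀ p q r t : L, s ≤ p → s ≤ q → s ≤ r → s ≤ t →
      p ≤ q ⊔ r ⊔ t ∨ q ≤ p ⊔ r ⊔ t ∨ r ≤ p ⊔ q ⊔ t ∨ t ≤ p ⊔ q ⊔ r ∨
      {x : L | x ⋖ p ⊔ q ⊔ r ⊔ t}.ncard ≤ 4)
    (c : L) (hsc : s ≤ c) (hc : ∀ a : L, SupIrred a → a ⊔ c ≠ ⊤)
    (h0 : ∃ a b : L, SupIrred a ∧ SupIrred b ∧ a ⊔ b ⊔ c = ⊤) :
    ∃ a b : L, (SupIrred a ∧ ¬ a ≤ c) ∧ (SupIrred b ∧ ¬ b ≤ c) ∧
      ∀ y : L, a ≤ y → b ≤ y → ∃ x : L, ¬ a ≤ x ∧ ¬ b ≤ x ∧ x ⊔ (a ⊔ b) = y := by
  obtain ⟨m, ch, hch0, hchm, hcov⟩ := exists_chain s c hsc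
  have hmono : ∀ i j : ℕ, i ≤ j → j ≤ m → ch i ≤ ch j := by
    intro i j hij
    induction j, hij using Nat.le_induction with
    | base => exact fun _ => le_rfl
    | succ j _ ihj => exact fun hj => (ihj (by omega)).trans (hcov j (by omega)).le
  have hs : ∀ i ≤ m, s ≤ ch i := fun i hi => hch0 ▸ hmono 0 i (Nat.zero_le i) hi
  obtain ⟨⟨a, b⟩, ⟨ha, hb, hab⟩, hlex⟩ := exists_lexmax
    (fun i (p : L × L) => p.1 ⊔ p.2 ⊔ ch i) (m + 1)
    {p : L × L | SupIrred p.1 ∧ SupIrred p.2 ∧ p.1 ⊔ p.2 ⊔ c = ⊤}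
    (by obtain ⟨a, b, h1⟩ := h0; exact ⟨(a, b), h1⟩)
  simp only at ha hb hab hlex
  -- exchange
  have exa : ∀ j ≤ m, ∀ d : L, SupIrred d → ¬ d ≤ a ⊔ b ⊔ ch j → ¬ a ≤ b ⊔ d ⊔ ch j := by
    intro j hj d hd hdj hle
    have key : ∀ i, j ≤ i → i < m + 1 → a ⊔ b ⊔ ch i ≤ d ⊔ b ⊔ ch i := by
      intro i hji him
      have h1 : ch j ≤ ch i := hmono j i hji (by omega)
      refine sup_le (sup_le (hle.trans (sup_le (sup_le (le_sup_right.trans le_sup_left)
        (le_sup_left.trans le_sup_left)) (h1.trans le_sup_right)))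
        (le_sup_right.trans le_sup_left)) le_sup_right
    have hq : d ⊔ b ⊔ c = ⊤ := by
      have := key m hj (by omega)
      rw [hchm, hab] at this
      exact top_le_iff.mp this
    have := hlex (d, b) ⟨hd, hb, hq⟩ j (by omega) key
    exact hdj ((le_sup_left.trans le_sup_left).trans this)
  have exb : ∀ j ≤ m, ∀ d : L, SupIrred d → ¬ d ≤ a ⊔ b ⊔ ch j → ¬ b ≤ a ⊔ d ⊔ ch j := by
    intro j hj d hd hdj hle
    have key : ∀ i, j ≤ i → i < m + 1 → a ⊔ b ⊔ ch i ≤ a ⊔ d ⊔ ch i := by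
      intro i hji him
      have h1 : ch j ≤ ch i := hmono j i hji (by omega)
      exact sup_le (sup_le (le_sup_left.trans le_sup_left) (hle.trans (sup_le (sup_le
        (le_sup_left.trans le_sup_left) (le_sup_right.trans le_sup_left))
        (h1.trans le_sup_right)))) le_sup_right
    have hq : a ⊔ d ⊔ c = ⊤ := by
      have := key m hj (by omega)
      rw [hchm, hab] at this
      exact top_le_iff.mp this
    have := hlex (a, d) ⟨ha, hd, hq⟩ j (by omega) key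
    exact hdj ((le_sup_right.trans le_sup_left).trans this)
  have hac : ¬ a ≤ c := fun h1 => hc b hb (by
    rw [← top_le_iff, ← hab]
    exact sup_le (sup_le (h1.trans le_sup_right) le_sup_left) le_sup_right)
  have hbc : ¬ b ≤ c := fun h1 => hc a ha (by
    rw [← top_le_iff, ← hab]
    exact sup_le (sup_le le_sup_left (h1.trans le_sup_right)) le_sup_right)
  refine ⟨a, b, ⟨ha, hac⟩, ⟨hb, hbc⟩, fun y hay hby => ?_⟩
  by_cases hcy : c ≤ y
  · refine ⟨c, hac, hbc, ?_⟩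
    rw [sup_comm, hab]
    exact (top_le_iff.mp (hab ▸ sup_le (sup_le hay hby) hcy)).symm
  -- the index `k` and the element `τ`
  obtain ⟨k, τ, hkm, hτy, hτk, hkey, hnot⟩ : ∃ (k : ℕ) (τ : L), k ≤ m ∧ τ ≤ y ∧ τ ≤ ch k ∧
      (∀ v x : L, a ⊔ b ⊔ τ ≤ v → v ≤ x → x ≤ y → x ≤ v ⊔ ch k → x ≤ v) ∧
      ∀ i, k ≤ i → i < m → ¬ ch (i + 1) ≤ y := by
    by_cases hsy : s ≤ y
    · have hk : ∃ k < m, ch k ≤ y ∧ ¬ ch (k + 1) ≤ y := by
        by_contra hk
        push Not at hk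
        have h1 : ∀ k ≤ m, ch k ≤ y := by
          intro k
          induction k with
          | zero => exact fun _ => by rw [hch0]; exact hsy
          | succ k ihk => exact fun hk' => hk k (by omega) (ihk (by omega))
        exact hcy (hchm ▸ h1 m le_rfl)
      obtain ⟨k, hkm, hky, hky'⟩ := hk
      refine ⟨k, ch k, hkm.le, hky, le_rfl, fun v x hv _ _ hx => ?_, fun i hki him hi => ?_⟩
      · exact hx.trans (sup_le le_rfl (le_sup_right.trans hv))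
      · exact hky' ((hmono (k + 1) (i + 1) (by omega) (by omega)).trans hi)
    · refine ⟨0, s ⊓ y, Nat.zero_le m, inf_le_right, ?_, fun v x hv hvx hxy hx => ?_,
        fun i _ him hi => hsy ((hs (i + 1) (by omega)).trans hi)⟩
      · rw [hch0]; exact inf_le_left
      · rw [hch0] at hx
        calc x ≤ (v ⊔ s) ⊓ x := le_inf hx le_rfl
          _ = v ⊔ (s ⊓ x) := hmod v x hvx
          _ ≤ v := sup_le le_rfl ((le_inf inf_le_left (inf_le_right.trans hxy)).trans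
            (le_sup_right.trans hv))
  have hvy : a ⊔ b ⊔ τ ≤ y := sup_le (sup_le hay hby) hτy
  have hτc : τ ≤ c := hτk.trans (hchm ▸ hmono k m hkm le_rfl)
  by_cases hyv : y ≤ a ⊔ b ⊔ τ
  · refine ⟨τ, fun h1 => hac (h1.trans hτc), fun h1 => hbc (h1.trans hτc), ?_⟩
    rw [sup_comm]
    exact le_antisymm hvy hyv
  by_cases hchain : ∀ d e : L, SupIrred d → SupIrred e → d ≤ y → e ≤ y →
      a ⊔ b ⊔ τ ⊔ d ≤ a ⊔ b ⊔ τ ⊔ e ∨ a ⊔ b ⊔ τ ⊔ e ≤ a ⊔ b ⊔ τ ⊔ d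
  · obtain ⟨d0, hd0, hd0y, _⟩ := exists_irr hyv
    obtain ⟨d, ⟨hd, hdy⟩, hdmax⟩ := Set.Finite.exists_maximalFor
      (fun d : L => a ⊔ b ⊔ τ ⊔ d) {d : L | SupIrred d ∧ d ≤ y} (Set.toFinite _)
      ⟨d0, hd0, hd0y⟩
    simp only at hdmax
    have hyd : y ≤ a ⊔ b ⊔ τ ⊔ d := by
      by_contra hyd
      obtain ⟨e, he, hey, hed⟩ := exists_irr hyd
      rcases hchain d e hd he hdy hey with h1 | h1
      · exact hed (le_sup_right.trans (hdmax ⟨he, hey⟩ h1))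
      · exact hed (le_sup_right.trans h1)
    have hdv : ¬ d ≤ a ⊔ b ⊔ ch k := fun h1 => hyv (hkey (a ⊔ b ⊔ τ) y le_rfl hvy le_rfl
      (hyd.trans (sup_le le_sup_left (h1.trans (sup_le_sup_right le_sup_left _)))))
    refine ⟨τ ⊔ d, fun h1 => exa k hkm d hd hdv (h1.trans (sup_le (hτk.trans le_sup_right)
      (le_sup_right.trans le_sup_left))), fun h1 => exb k hkm d hd hdv (h1.trans
      (sup_le (hτk.trans le_sup_right) (le_sup_right.trans le_sup_left))), ?_⟩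
    rw [sup_comm, ← sup_assoc]
    exact le_antisymm (sup_le hvy hdy) hyd
  exfalso
  push Not at hchain
  obtain ⟨d₁, d₂, hd₁, hd₂, hd₁y, hd₂y, hm1, hm2⟩ := hchain
  have trans : ∀ d e : L, d ≤ y → e ≤ y → ¬ a ⊔ b ⊔ τ ⊔ d ≤ a ⊔ b ⊔ τ ⊔ e →
      ¬ a ⊔ b ⊔ ch k ⊔ d ≤ a ⊔ b ⊔ ch k ⊔ e := by
    intro d e hdy hey hn hle
    have h1 : a ⊔ b ⊔ τ ⊔ e ⊔ d ≤ a ⊔ b ⊔ τ ⊔ e := by
      refine hkey _ _ le_sup_left le_sup_left (sup_le (sup_le hvy hey) hdy)
        (sup_le le_sup_left ?_)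
      refine (le_sup_right.trans hle).trans (sup_le (sup_le ?_ le_sup_right) ?_)
      · exact (le_sup_left.trans le_sup_left).trans le_sup_left
      · exact le_sup_right.trans le_sup_left
    exact hn (sup_le le_sup_left (le_sup_right.trans h1))
  have hn1 := trans d₁ d₂ hd₁y hd₂y hm1
  have hn2 := trans d₂ d₁ hd₂y hd₁y hm2
  -- the last index at which the two joins are incomparable
  have hlast : ∃ i, k ≤ i ∧ i < m ∧
      (¬ a ⊔ b ⊔ ch i ⊔ d₁ ≤ a ⊔ b ⊔ ch i ⊔ d₂ ∧ ¬ a ⊔ b ⊔ ch i ⊔ d₂ ≤ a ⊔ b ⊔ ch i ⊔ d₁) ∧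
      (a ⊔ b ⊔ ch (i + 1) ⊔ d₁ ≤ a ⊔ b ⊔ ch (i + 1) ⊔ d₂ ∨
        a ⊔ b ⊔ ch (i + 1) ⊔ d₂ ≤ a ⊔ b ⊔ ch (i + 1) ⊔ d₁) := by
    by_contra hcon
    push Not at hcon
    have h1 : ∀ j, k ≤ j → j ≤ m →
        (¬ a ⊔ b ⊔ ch j ⊔ d₁ ≤ a ⊔ b ⊔ ch j ⊔ d₂ ∧ ¬ a ⊔ b ⊔ ch j ⊔ d₂ ≤ a ⊔ b ⊔ ch j ⊔ d₁) := by
      intro j hkj
      induction j, hkj using Nat.le_induction with
      | base => exact fun _ => ⟨hn1, hn2⟩
      | succ j hj ihj => exact fun hjm => hcon j hj (by omega) (ihj (by omega))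
    refine (h1 m hkm le_rfl).1 ?_
    rw [hchm, hab, top_sup_eq, top_sup_eq]
  obtain ⟨i, hki, him, ⟨hs1, hs2⟩, hs3⟩ := hlast
  -- the contradiction, for the two orders of `d₁`, `d₂`
  have core : ∀ d e : L, SupIrred e → d ≤ y → e ≤ y →
      ¬ a ⊔ b ⊔ ch i ⊔ d ≤ a ⊔ b ⊔ ch i ⊔ e → ¬ a ⊔ b ⊔ ch i ⊔ e ≤ a ⊔ b ⊔ ch i ⊔ d →
      a ⊔ b ⊔ ch (i + 1) ⊔ d ≤ a ⊔ b ⊔ ch (i + 1) ⊔ e → False := by
    intro d e he hdy hey hn1 hn2 hle
    have hst := hcov i him
    have h1 : ¬ d ≤ a ⊔ b ⊔ ch i ⊔ e := fun h => hn1 (sup_le le_sup_left h)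
    have h2 : ¬ e ≤ a ⊔ b ⊔ ch i ⊔ d := fun h => hn2 (sup_le le_sup_left h)
    have h3 : d ≤ a ⊔ b ⊔ ch (i + 1) ⊔ e := le_sup_right.trans hle
    -- `a ⊔ b ⊔ ch i ⊔ e` is covered by its join with `ch (i + 1)`, which is its join with `d`
    have hw : a ⊔ b ⊔ e ⊔ ch i ⩿ a ⊔ b ⊔ e ⊔ ch (i + 1) := wcov_sup hst _
    have h5 : a ⊔ b ⊔ e ⊔ ch i < a ⊔ b ⊔ e ⊔ ch i ⊔ d :=
      lt_of_le_of_ne le_sup_left (fun h => h1 (by
        rw [sup_right_comm (a ⊔ b) (ch i) e, h]; exact le_sup_right))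
    have h6 : a ⊔ b ⊔ e ⊔ ch i ⊔ d ≤ a ⊔ b ⊔ e ⊔ ch (i + 1) :=
      sup_le hw.le (by rw [sup_right_comm (a ⊔ b) e (ch (i + 1))]; exact h3)
    have h7 : a ⊔ b ⊔ e ⊔ ch i ⊔ d = a ⊔ b ⊔ e ⊔ ch (i + 1) := by
      rcases h6.eq_or_lt with h | h
      · exact h
      · exact absurd h (hw.2 h5)
    have hchi : ¬ ch i ≤ y := fun h => hnot i hki him (by
      refine le_trans ?_ (sup_le (sup_le (sup_le (sup_le hay hby) hey) h) hdy)
      rw [h7]
      exact le_sup_right)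
    have h4 : ¬ ch i ≤ a ⊔ b ⊔ d ⊔ e := fun h =>
      hchi (h.trans (sup_le (sup_le (sup_le hay hby) hdy) hey))
    have he1 : ¬ e ≤ a ⊔ b ⊔ ch (i + 1) := by
      intro h
      have hw' : a ⊔ b ⊔ ch i ⩿ a ⊔ b ⊔ ch (i + 1) := wcov_sup hst _
      have h8 : a ⊔ b ⊔ ch i < a ⊔ b ⊔ e ⊔ ch i := by
        rw [sup_right_comm (a ⊔ b) e (ch i)]
        exact lt_of_le_of_ne le_sup_left (fun h' => hn2 (by rw [← h']; exact le_sup_left))
      have h9 : a ⊔ b ⊔ e ⊔ ch i < a ⊔ b ⊔ ch (i + 1) := by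
        refine h5.trans_le (h7.le.trans ?_)
        exact sup_le (sup_le le_sup_left h) le_sup_right
      exact hw'.2 h8 h9
    have hae := exa (i + 1) him e he he1
    have hbe := exb (i + 1) him e he he1
    have hsi : s ≤ ch i := hs i him.le
    have hsi1 : s ≤ ch (i + 1) := hs (i + 1) him
    -- `ch (i + 1)` is not below `a ⊔ b ⊔ e ⊔ ch i`
    have hte : ¬ ch (i + 1) ≤ a ⊔ b ⊔ e ⊔ ch i := by
      intro h
      have h10 : a ⊔ b ⊔ e ⊔ ch (i + 1) ≤ a ⊔ b ⊔ e ⊔ ch i := sup_le le_sup_left h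
      exact absurd (h5.trans_le (h7.le.trans h10)) (lt_irrefl _)
    have hjoin : (a ⊔ s) ⊔ (b ⊔ s) ⊔ (e ⊔ s) ⊔ ch (i + 1) = a ⊔ b ⊔ e ⊔ ch (i + 1) := by
      apply le_antisymm
      · have hx : ∀ x : L, x ≤ a ⊔ b ⊔ e ⊔ ch (i + 1) → x ⊔ s ≤ a ⊔ b ⊔ e ⊔ ch (i + 1) :=
          fun x hx => sup_le hx (hsi1.trans le_sup_right)
        exact sup_le (sup_le (sup_le (hx a (le_sup_left.trans (le_sup_left.trans le_sup_left)))
          (hx b (le_sup_right.trans (le_sup_left.trans le_sup_left))))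
          (hx e (le_sup_right.trans le_sup_left))) le_sup_right
      · exact sup_le_sup_right (sup_le_sup (sup_le_sup le_sup_left le_sup_left) le_sup_left) _
    rcases h (a ⊔ s) (b ⊔ s) (e ⊔ s) (ch (i + 1)) le_sup_right le_sup_right le_sup_right hsi1
      with h' | h' | h' | h' | h'
    · refine hae ((le_sup_left.trans h').trans (sup_le (sup_le (sup_le ?_ ?_) (sup_le ?_ ?_)) ?_))
      · exact le_sup_left.trans le_sup_left
      · exact hsi1.trans le_sup_right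
      · exact le_sup_right.trans le_sup_left
      · exact hsi1.trans le_sup_right
      · exact le_sup_right
    · refine hbe ((le_sup_left.trans h').trans (sup_le (sup_le (sup_le ?_ ?_) (sup_le ?_ ?_)) ?_))
      · exact le_sup_left.trans le_sup_left
      · exact hsi1.trans le_sup_right
      · exact le_sup_right.trans le_sup_left
      · exact hsi1.trans le_sup_right
      · exact le_sup_right
    · refine he1 ((le_sup_left.trans h').trans (sup_le (sup_le (sup_le ?_ ?_) (sup_le ?_ ?_)) ?_))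
      · exact le_sup_left.trans le_sup_left
      · exact hsi1.trans le_sup_right
      · exact le_sup_right.trans le_sup_left
      · exact hsi1.trans le_sup_right
      · exact le_sup_right
    · refine hte (h'.trans (sup_le (sup_le (sup_le ?_ ?_) (sup_le ?_ ?_)) (sup_le ?_ ?_)))
      · exact (le_sup_left.trans le_sup_left).trans le_sup_left
      · exact hsi.trans le_sup_right
      · exact (le_sup_right.trans le_sup_left).trans le_sup_left
      · exact hsi.trans le_sup_right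
      · exact le_sup_right.trans le_sup_left
      · exact hsi.trans le_sup_right
    · rw [hjoin] at h'
      exact five_covers hst h1 h2 h3 h4 hae hbe h'
  rcases hs3 with h' | h'
  · exact core d₁ d₂ hd₂ hd₁y hd₂y hs1 hs2 h'
  · exact core d₂ d₁ hd₁ hd₂y hd₁y hs2 hs1 h'

/-- Two join-irreducibles as in `exists_pair` are together below at most `|L|` elements. -/
lemma card_add_card_le [Fintype L] [DecidableLE L] {a b : L}
    (hQ : ∀ y : L, a ≤ y → b ≤ y → ∃ x : L, ¬ a ≤ x ∧ ¬ b ≤ x ∧ x ⊔ (a ⊔ b) = y) :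
    (Finset.univ.filter fun y : L => a ≤ y).card + (Finset.univ.filter fun y : L => b ≤ y).card
      ≤ Fintype.card L := by
  classical
  have hA : (Finset.univ.filter fun y : L => a ≤ y ∧ b ≤ y).card
      ≤ (Finset.univ.filter fun y : L => ¬ (a ≤ y ∨ b ≤ y)).card := by
    refine Finset.card_le_card_of_surjOn (fun s => s ⊔ (a ⊔ b)) ?_
    intro y hy
    simp only [Finset.coe_filter, Finset.mem_univ, true_and, Set.mem_ofPred_eq] at hy
    obtain ⟨s, hs1, hs2, hsy⟩ := hQ y hy.1 hy.2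
    refine ⟨s, ?_, hsy⟩
    simp only [Finset.coe_filter, Finset.mem_univ, true_and, Set.mem_ofPred_eq, not_or]
    exact ⟨hs1, hs2⟩
  have h1 := Finset.card_union_add_card_inter (Finset.univ.filter fun y : L => a ≤ y)
    (Finset.univ.filter fun y : L => b ≤ y)
  rw [← Finset.filter_or, ← Finset.filter_and] at h1
  have h2 := Finset.card_filter_add_card_filter_not (s := (Finset.univ : Finset L))
    (fun y : L => a ≤ y ∨ b ≤ y)
  rw [Finset.card_univ] at h2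
  omega

/-- **Main theorem.**  Let `L` be a finite upper semimodular lattice and `s` a left modular element
of `L`, not the greatest one, such that every element that is an irredundant join of four elements
of `[s, 1]` covers at most four elements of `L`.  Then some join-irreducible `a`, not below `s`,
satisfies `2 |[a, 1]| ≤ |L|`. -/
theorem result (L : Type*) [Lattice L] [Finite L] [IsUpperModularLattice L]
    (s : L) (hs : ∃ x : L, ¬ x ≤ s)
    (hmod : ∀ x z : L, x ≤ z → (x ⊔ s) ⊓ z = x ⊔ (s ⊓ z))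
    (h : ∀ p q r t : L, s ≤ p → s ≤ q → s ≤ r → s ≤ t →
      p ≤ q ⊔ r ⊔ t ∨ q ≤ p ⊔ r ⊔ t ∨ r ≤ p ⊔ q ⊔ t ∨ t ≤ p ⊔ q ⊔ r ∨
      {x : L | x ⋖ p ⊔ q ⊔ r ⊔ t}.ncard ≤ 4) :
    ∃ a : L, SupIrred a ∧ ¬ a ≤ s ∧ 2 * Nat.card {x : L // a ≤ x} ≤ Nat.card L := by
  classical
  have := Fintype.ofFinite L
  have : Nonempty L := ⟨s⟩
  let _ : BoundedOrder L := Fintype.toBoundedOrder L
  have hup : ∀ m : L, Nat.card {x : L // m ≤ x} = (Finset.univ.filter fun x : L => m ≤ x).card := by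
    intro m
    rw [Nat.card_eq_fintype_card, Fintype.card_subtype]
  simp_rw [hup, Nat.card_eq_fintype_card]
  have hst : ¬ (⊤ : L) ≤ s := fun h1 => by
    obtain ⟨x, hx⟩ := hs
    exact hx (le_top.trans h1)
  -- it is enough to find two join-irreducibles as in `card_add_card_le`
  have hQ : ∃ a b : L, (SupIrred a ∧ ¬ a ≤ s) ∧ (SupIrred b ∧ ¬ b ≤ s) ∧
      ∀ y : L, a ≤ y → b ≤ y → ∃ x : L, ¬ a ≤ x ∧ ¬ b ≤ x ∧ x ⊔ (a ⊔ b) = y := by
    by_cases hbot : ∀ a : L, SupIrred a → a ⊔ s ≠ ⊤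
    · obtain ⟨c, ⟨hsc, hc⟩, hmax⟩ := (Set.toFinite
        {c : L | s ≤ c ∧ ∀ a : L, SupIrred a → a ⊔ c ≠ ⊤}).exists_maximal ⟨s, le_rfl, hbot⟩
      have hct : ¬ (⊤ : L) ≤ c := by
        intro hct
        obtain ⟨d, hd, _, _⟩ := exists_irr hst
        exact hc d hd (top_le_iff.mp (hct.trans le_sup_right))
      obtain ⟨b, hb, _, hbc⟩ := exists_irr hct
      have h0 : ∃ a b : L, SupIrred a ∧ SupIrred b ∧ a ⊔ b ⊔ c = ⊤ := by
        by_contra hcon
        push Not at hcon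
        have h1 : b ⊔ c ≤ c := hmax ⟨hsc.trans le_sup_right, fun a ha => by
          rw [← sup_assoc]; exact hcon a b ha hb⟩ le_sup_right
        exact hbc (le_sup_left.trans h1)
      obtain ⟨a, b, ⟨ha, hac⟩, ⟨hb, hbc⟩, hQ⟩ := exists_pair s hmod h c hsc hc h0
      exact ⟨a, b, ⟨ha, fun h1 => hac (h1.trans hsc)⟩, ⟨hb, fun h1 => hbc (h1.trans hsc)⟩, hQ⟩
    · push Not at hbot
      obtain ⟨a, ha, hat⟩ := hbot
      have has : ¬ a ≤ s := fun h1 => hst (by rw [← hat]; exact sup_le h1 le_rfl)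
      refine ⟨a, a, ⟨ha, has⟩, ⟨ha, has⟩, fun y hay _ => ⟨s ⊓ y,
        fun h1 => has (h1.trans inf_le_left), fun h1 => has (h1.trans inf_le_left), ?_⟩⟩
      rw [sup_idem, sup_comm, ← hmod a y hay, hat, top_inf_eq]
  obtain ⟨a, b, ⟨ha, has⟩, ⟨hb, hbs⟩, hQ⟩ := hQ
  have h1 := card_add_card_le hQ
  rcases le_total (Finset.univ.filter fun y : L => a ≤ y).card
    (Finset.univ.filter fun y : L => b ≤ y).card with h2 | h2
  · exact ⟨a, ha, has, by omega⟩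
  · exact ⟨b, hb, hbs, by omega⟩

end Pool.Agent.H61.Fr.CopyFourCovers
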