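import Pool.Agent.H15.Fr.Gen
import Pool.Agent.H15.Fr.Height2

set_option autoImplicit false

/-!
# Frankl's inequality for upper semimodular lattices of length at most eight, and for many others

The theorem is for the finite upper semimodular lattices without a chain `x₀ < x₁ < ⋯ < x₉` in which
`x₃` is join-irreducible and `x₅` is join-irreducible in `[x₃, 1]`.

If all join-irreducibles of `L` have height at most two, this is `Height2.result` (an average over
pairs of elements).  Otherwise there is a join-irreducible `j` of height at least three, and every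
join-irreducible `d` of `[j, 1]` which does not cover `j` has `[d, 1]` of length at most three;
`gen'` applies to `j`.
-/

namespace Pool.Agent.H61.Fr.CopyLengthEight

open Pool.Agent.H15.Fr

lemma chain10 {L : Type*} [Lattice L] (x y z a b c d e f g : L) (k1 : x < y) (k2 : y < z)
    (k3 : z < a) (h1 : a < b) (h2 : b < c) (h3 : c < d)
    (h4 : d < e) (h5 : e < f) (h6 : f < g) : StrictMono ![x, y, z, a, b, c, d, e, f, g] := by
  rw [Fin.strictMono_iff_lt_succ]
  intro i
  fin_cases i <;> assumption

/-- **Frankl's inequality** for the finite upper semimodular lattices without a chain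
`x₀ < x₁ < ⋯ < x₉` such that `x₃` is join-irreducible and `x₄` is the greatest element of
`{t : x₃ ≤ t < x₅}`. -/
theorem result (L : Type*) [Lattice L] [BoundedOrder L] [Finite L] [IsUpperModularLattice L]
    (hL : 2 ≤ Nat.card L)
    (h : ∀ x : Fin 10 → L, StrictMono x → SupIrred (x 3) →
      ¬ ∀ t : L, x 3 ≤ t → t < x 5 → t ≤ x 4) :
    ∃ a : L, SupIrred a ∧ 2 * Nat.card {x : L // a ≤ x} ≤ Nat.card L := by
  classical
  have := Fintype.ofFinite L
  by_cases hh : ∀ a : L, SupIrred a → ∀ b c : L, c < b → b < a → c = ⊥
  · exact Height2.result L hL hh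
  · push Not at hh
    obtain ⟨a, ha, b, c, hcb, hba, hc⟩ := hh
    refine gen' ha ?_
    intro γ hγ hγc x y z w h1 h2 h3 h4
    obtain ⟨g, hag, hgγ, hglow⟩ := exists_predM hγ
    have hag' : a < g := by
      refine lt_of_le_of_ne hag ?_
      rintro rfl
      exact hγc ⟨hγ.1, fun t ht1 ht2 => absurd (hglow t ht1.le ht2) (not_le_of_gt ht1)⟩
    exact h _ (chain10 ⊥ c b a g γ x y z w (bot_lt_iff_ne_bot.2 hc) hcb hba hag' hgγ h1 h2 h3 h4)
      ha hglow

/-- The lattices of length at most eight. -/
theorem length_eight (L : Type*) [Lattice L] [BoundedOrder L] [Finite L] [IsUpperModularLattice L]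
    (hL : 2 ≤ Nat.card L) (h : ∀ x : Fin 10 → L, ¬ StrictMono x) :
    ∃ a : L, SupIrred a ∧ 2 * Nat.card {x : L // a ≤ x} ≤ Nat.card L :=
  result L hL (fun x hx => absurd hx (h x))

end Pool.Agent.H61.Fr.CopyLengthEight
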