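import Mathlib

set_option autoImplicit false

/-!
# Frankl's inequality for upper semimodular lattices with at most six tall maximal join-irreducibles

Let `L` be a finite upper semimodular lattice with at least two elements.  Suppose there is a set `M`
of at most six join-irreducibles such that every join-irreducible `a` is below a member of `M`, or
has all elements strictly below `a` under every coatom.  Then some join-irreducible lies under at
most half of the elements of `L`.

Proof.  Call a join-irreducible `a` *thin over* `x` if every element strictly below `a` is below `x`.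

* (`two_elements`)  Let `x ≠ 1` and let `m`, `m'` be join-irreducibles such that every
  join-irreducible which is not below `x` is below `m`, or below `m'`, or thin over `x`.  Then some
  join-irreducible lies under at most half of the elements of `L`.  Suppose `m` and `m'` are not
  below `x`.  For `y ≥ m, m'` choose `w` maximal in `[y ⊓ x, y]` subject to `¬ m ≤ w` and
  `¬ m' ≤ w`.  A join-irreducible `c ≤ y` that is thin over `x` and not below `w` has `w ⋖ c ⊔ w`,
  so by maximality `c ⊔ w` is `m ⊔ w` or `m' ⊔ w`.  Hence `y = w ⊔ m ⊔ m'`, so the elements above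
  `m` and `m'` are at most as many as those above neither, and the two filters have together at most
  `|L|` elements.
* (`averaging`)  By the first step we may assume that every `x ≠ 1` misses at least three members of
  `M`; as `|M| ≤ 6` it is above at most half of them, and the bottom, which is above no member of
  `M`, pays for the top in the count of the pairs `(m, x)` with `m ≤ x`.
-/

namespace Pool.Agent.H61.Fr.CopySixMaximalJoinIrred

variable {L : Type*} [Lattice L]

/-- In a finite lattice `z ≤ w` holds as soon as every join-irreducible below `z` is below `w`. -/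
lemma le_of_forall_supIrred [Finite L] {z w : L}
    (h : ∀ c : L, SupIrred c → c ≤ z → c ≤ w) : z ≤ w := by
  classical
  by_contra hzw
  obtain ⟨c, hc⟩ := (Set.toFinite {c : L | c ≤ z ∧ ¬ c ≤ w}).exists_minimal ⟨z, le_rfl, hzw⟩
  refine hc.prop.2 (h c ⟨fun hmin => hc.prop.2 ((hmin inf_le_left).trans inf_le_right), ?_⟩
    hc.prop.1)
  intro b d hbd
  by_contra hne
  push Not at hne
  have hb : b < c := lt_of_le_of_ne (hbd ▸ le_sup_left) hne.1
  have hd : d < c := lt_of_le_of_ne (hbd ▸ le_sup_right) hne.2
  have key : ∀ e : L, e < c → e ≤ w := by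
    intro e he
    by_contra hew
    exact absurd (hc.le_of_le ⟨he.le.trans hc.prop.1, hew⟩ he.le) (not_le_of_gt he)
  exact hc.prop.2 (hbd ▸ sup_le (key b hb) (key d hd))

/-- Every `y ≥ m, m'` is the join of `m ⊔ m'` and an element above neither `m` nor `m'`. -/
lemma exists_avoiding [Finite L] [IsUpperModularLattice L] {x m m' : L} (hm : ¬ m ≤ x)
    (hm' : ¬ m' ≤ x)
    (hx : ∀ a : L, SupIrred a → ¬ a ≤ x → a ≤ m ∨ a ≤ m' ∨ ∀ b : L, b < a → b ≤ x)
    {y : L} (hy : m ≤ y) (hy' : m' ≤ y) :
    ∃ w : L, ¬ m ≤ w ∧ ¬ m' ≤ w ∧ w ⊔ (m ⊔ m') = y := by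
  classical
  obtain ⟨w, hw⟩ := (Set.toFinite {w : L | (y ⊓ x ≤ w ∧ w ≤ y) ∧ ¬ m ≤ w ∧ ¬ m' ≤ w}).exists_maximal
    ⟨y ⊓ x, ⟨le_rfl, inf_le_left⟩, fun h => hm (h.trans inf_le_right),
      fun h => hm' (h.trans inf_le_right)⟩
  obtain ⟨⟨hw1, hw2⟩, hw3, hw4⟩ := hw.prop
  refine ⟨w, hw3, hw4, le_antisymm (sup_le hw2 (sup_le hy hy')) ?_⟩
  refine le_of_forall_supIrred fun c hc hcy => ?_
  by_cases hcx : c ≤ x
  · exact ((le_inf hcy hcx).trans hw1).trans le_sup_left
  rcases hx c hc hcx with h | h | h
  · exact h.trans (le_sup_left.trans le_sup_right)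
  · exact h.trans (le_sup_right.trans le_sup_right)
  by_cases hcw : c ≤ w
  · exact hcw.trans le_sup_left
  have hcov : c ⊓ w ⋖ c := by
    refine ⟨lt_of_le_of_ne inf_le_left fun h => hcw (inf_eq_left.mp h), fun e he1 he2 => ?_⟩
    have hew : e ≤ w := (le_inf (he2.le.trans hcy) (h e he2)).trans hw1
    exact absurd (le_inf he2.le hew) (not_le_of_gt he1)
  have hcov' : w ⋖ c ⊔ w := covBy_sup_of_inf_covBy_left hcov
  have hnot : ¬ (¬ m ≤ c ⊔ w ∧ ¬ m' ≤ c ⊔ w) := fun hno =>
    absurd (hw.le_of_ge ⟨⟨hw1.trans le_sup_right, sup_le hcy hw2⟩, hno⟩ le_sup_right)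
      (not_le_of_gt hcov'.lt)
  have hstep : ∀ n : L, ¬ n ≤ w → n ≤ c ⊔ w → c ≤ n ⊔ w := by
    intro n hnw hn
    have h1 : w < n ⊔ w := lt_of_le_of_ne le_sup_right fun h' => hnw (h' ▸ le_sup_left)
    have h2 : n ⊔ w ≤ c ⊔ w := sup_le hn le_sup_right
    rcases hcov'.eq_or_eq h1.le h2 with h3 | h3
    · exact absurd h3 h1.ne'
    · rw [h3]
      exact le_sup_left
  by_cases hmc : m ≤ c ⊔ w
  · exact (hstep m hw3 hmc).trans (sup_le (le_sup_left.trans le_sup_right) le_sup_left)
  · by_cases hmc' : m' ≤ c ⊔ w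
    · exact (hstep m' hw4 hmc').trans (sup_le (le_sup_right.trans le_sup_right) le_sup_left)
    · exact absurd ⟨hmc, hmc'⟩ hnot

/-- The filters of `m` and `m'` have together at most `|L|` elements. -/
lemma card_add_card_le [Fintype L] [DecidableLE L] [IsUpperModularLattice L] {x m m' : L}
    (hm : ¬ m ≤ x) (hm' : ¬ m' ≤ x)
    (hx : ∀ a : L, SupIrred a → ¬ a ≤ x → a ≤ m ∨ a ≤ m' ∨ ∀ b : L, b < a → b ≤ x) :
    (Finset.univ.filter fun y : L => m ≤ y).card + (Finset.univ.filter fun y : L => m' ≤ y).card
      ≤ Fintype.card L := by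
  classical
  have hA : (Finset.univ.filter fun y : L => m ≤ y ∧ m' ≤ y).card
      ≤ (Finset.univ.filter fun y : L => ¬ (m ≤ y ∨ m' ≤ y)).card := by
    refine Finset.card_le_card_of_surjOn (fun w => w ⊔ (m ⊔ m')) ?_
    intro y hy
    simp only [Finset.coe_filter, Finset.mem_univ, true_and, Set.mem_ofPred_eq] at hy
    obtain ⟨w, hw1, hw2, hw3⟩ := exists_avoiding hm hm' hx hy.1 hy.2
    refine ⟨w, ?_, hw3⟩
    simp only [Finset.coe_filter, Finset.mem_univ, true_and, Set.mem_ofPred_eq, not_or]
    exact ⟨hw1, hw2⟩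
  have h1 := Finset.card_union_add_card_inter (Finset.univ.filter fun y : L => m ≤ y)
    (Finset.univ.filter fun y : L => m' ≤ y)
  rw [← Finset.filter_or, ← Finset.filter_and] at h1
  have h2 := Finset.card_filter_add_card_filter_not (s := (Finset.univ : Finset L))
    (fun y : L => m ≤ y ∨ m' ≤ y)
  rw [Finset.card_univ] at h2
  omega

/-- The first part, with `Fintype` cardinalities. -/
lemma two_elements [Fintype L] [DecidableLE L] [IsUpperModularLattice L] {x m m' y₀ : L}
    (hx0 : ¬ y₀ ≤ x) (hm : SupIrred m) (hm' : SupIrred m')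
    (hx : ∀ a : L, SupIrred a → ¬ a ≤ x → a ≤ m ∨ a ≤ m' ∨ ∀ b : L, b < a → b ≤ x) :
    ∃ a : L, SupIrred a ∧ 2 * (Finset.univ.filter fun y : L => a ≤ y).card ≤ Fintype.card L := by
  classical
  have hone : ∀ n : L, SupIrred n → ¬ n ≤ x →
      (∀ a : L, SupIrred a → ¬ a ≤ x → a ≤ n ∨ ∀ b : L, b < a → b ≤ x) →
      ∃ a : L, SupIrred a ∧ 2 * (Finset.univ.filter fun y : L => a ≤ y).card
        ≤ Fintype.card L := by
    intro n hn hnx hall
    have := card_add_card_le hnx hnx fun a ha hax => by
      rcases hall a ha hax with h | h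
      · exact Or.inl h
      · exact Or.inr (Or.inr h)
    exact ⟨n, hn, by omega⟩
  by_cases h1 : m ≤ x
  · by_cases h2 : m' ≤ x
    · obtain ⟨p, hp, hpx⟩ : ∃ p : L, SupIrred p ∧ ¬ p ≤ x := by
        by_contra hno
        push Not at hno
        exact hx0 (le_of_forall_supIrred fun c hc _ => hno c hc)
      refine hone p hp hpx fun a ha hax => Or.inr ?_
      rcases hx a ha hax with h | h | h
      · exact absurd (h.trans h1) hax
      · exact absurd (h.trans h2) hax
      · exact h
    · refine hone m' hm' h2 fun a ha hax => ?_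
      rcases hx a ha hax with h | h | h
      · exact absurd (h.trans h1) hax
      · exact Or.inl h
      · exact Or.inr h
  · by_cases h2 : m' ≤ x
    · refine hone m hm h1 fun a ha hax => ?_
      rcases hx a ha hax with h | h | h
      · exact Or.inl h
      · exact absurd (h.trans h2) hax
      · exact Or.inr h
    · have := card_add_card_le h1 h2 hx
      rcases le_total (Finset.univ.filter fun y : L => m ≤ y).card
        (Finset.univ.filter fun y : L => m' ≤ y).card with hle | hle
      · exact ⟨m, hm, by omega⟩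
      · exact ⟨m', hm', by omega⟩

/-- If every `x ≠ 1` is above at most half of the join-irreducibles in the nonempty set `M`, some
member of `M` lies under at most half of `L`. -/
lemma averaging [BoundedOrder L] [Nontrivial L] [Fintype L] [DecidableLE L] {M : Finset L}
    (hM : ∀ m ∈ M, SupIrred m) (hMne : M.Nonempty)
    (hC : ∀ x : L, x ≠ ⊤ → 2 * (M.filter fun m => m ≤ x).card ≤ M.card) :
    ∃ a : L, SupIrred a ∧ 2 * (Finset.univ.filter fun y : L => a ≤ y).card ≤ Fintype.card L := by
  classical
  by_contra hno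
  push Not at hno
  have hcard : 2 ≤ Fintype.card L := Fintype.one_lt_card
  have hlt : ∑ m ∈ M, Fintype.card L < ∑ m ∈ M, 2 * (Finset.univ.filter fun x : L => m ≤ x).card :=
    Finset.sum_lt_sum_of_nonempty hMne fun m hm => hno m (hM m hm)
  have hdouble : ∑ m ∈ M, (Finset.univ.filter fun x : L => m ≤ x).card
      = ∑ x : L, (M.filter fun m => m ≤ x).card :=
    Finset.sum_card_bipartiteAbove_eq_sum_card_bipartiteBelow (fun m x : L => m ≤ x)
  have hbot : (M.filter fun m => m ≤ (⊥ : L)).card = 0 := by
    rw [Finset.card_eq_zero, Finset.filter_eq_empty_iff]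
    intro m hm hle
    exact (hM m hm).1 (by
      rw [le_bot_iff.mp hle]
      exact isMin_bot)
  have htop : (M.filter fun m => m ≤ (⊤ : L)).card = M.card := by
    congr 1
    exact Finset.filter_true_of_mem fun m _ => le_top
  have hsplit : ∑ x : L, (M.filter fun m => m ≤ x).card
      = (M.filter fun m => m ≤ (⊤ : L)).card + ((M.filter fun m => m ≤ (⊥ : L)).card
        + ∑ x ∈ (Finset.univ.erase (⊤ : L)).erase ⊥, (M.filter fun m => m ≤ x).card) := by
    rw [Finset.add_sum_erase (Finset.univ.erase (⊤ : L))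
      (fun x => (M.filter fun m => m ≤ x).card)
      (Finset.mem_erase.mpr ⟨bot_ne_top, Finset.mem_univ _⟩),
      Finset.add_sum_erase Finset.univ (fun x => (M.filter fun m => m ≤ x).card)
      (Finset.mem_univ _)]
  have hrest : 2 * ∑ x ∈ (Finset.univ.erase (⊤ : L)).erase ⊥, (M.filter fun m => m ≤ x).card
      ≤ (Fintype.card L - 2) * M.card := by
    rw [Finset.mul_sum]
    have hc : ((Finset.univ.erase (⊤ : L)).erase ⊥).card = Fintype.card L - 2 := by
      rw [Finset.card_erase_of_mem (Finset.mem_erase.mpr ⟨bot_ne_top, Finset.mem_univ _⟩),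
        Finset.card_erase_of_mem (Finset.mem_univ _), Finset.card_univ]
      omega
    rw [← hc, ← smul_eq_mul]
    refine Finset.sum_le_card_nsmul _ _ _ fun x hx => hC x ?_
    rw [Finset.mem_erase, Finset.mem_erase] at hx
    exact hx.2.1
  rw [← Finset.mul_sum, hdouble, hsplit, hbot, htop, Finset.sum_const, smul_eq_mul] at hlt
  have : M.card * Fintype.card L = 2 * M.card + (Fintype.card L - 2) * M.card := by
    obtain ⟨n, hn⟩ : ∃ n, Fintype.card L = n + 2 := ⟨Fintype.card L - 2, by omega⟩
    rw [hn, Nat.add_sub_cancel]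
    ring
  omega

/-- Let `L` be a finite upper semimodular lattice with at least two elements.  Suppose that there is
a set `M` of at most six join-irreducibles such that every join-irreducible `a` is below a member of
`M` or has all elements strictly below `a` under every coatom.  Then some join-irreducible `a`
satisfies `2 * |{x : a ≤ x}| ≤ |L|`. -/
theorem result {L : Type*} [Lattice L] [BoundedOrder L] [Nontrivial L] [Finite L]
    [IsUpperModularLattice L] (M : Finset L) (h6 : M.card ≤ 6) (hM : ∀ m ∈ M, SupIrred m)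
    (hdom : ∀ a : L, SupIrred a →
      (∃ m ∈ M, a ≤ m) ∨ ∀ b : L, b < a → ∀ x : L, IsCoatom x → b ≤ x) :
    ∃ a : L, SupIrred a ∧ 2 * Nat.card {x : L // a ≤ x} ≤ Nat.card L := by
  classical
  have := Fintype.ofFinite L
  have hup : ∀ m : L, Nat.card {x : L // m ≤ x} = (Finset.univ.filter fun x : L => m ≤ x).card := by
    intro m
    rw [Nat.card_eq_fintype_card, Fintype.card_subtype]
  simp_rw [hup, Nat.card_eq_fintype_card]
  by_contra hno
  have hthree : ∀ x : L, IsCoatom x → 3 ≤ (M.filter fun m => ¬ m ≤ x).card := by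
    intro x hx
    by_contra hlt
    refine hno ?_
    obtain ⟨p, hp, hpx⟩ : ∃ p : L, SupIrred p ∧ ¬ p ≤ x := by
      by_contra hno
      push Not at hno
      exact hx.1 (top_le_iff.mp (le_of_forall_supIrred fun c hc _ => hno c hc))
    have hx0 : ¬ (⊤ : L) ≤ x := fun h => hx.1 (top_le_iff.mp h)
    have hcov : ∀ m m' : L, (∀ n ∈ M.filter fun m => ¬ m ≤ x, n = m ∨ n = m') →
        ∀ a : L, SupIrred a → ¬ a ≤ x → a ≤ m ∨ a ≤ m' ∨ ∀ b : L, b < a → b ≤ x := by
      intro m m' hmm a ha hax
      rcases hdom a ha with ⟨n, hn, han⟩ | hthin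
      · rcases hmm n (Finset.mem_filter.mpr ⟨hn, fun hnx => hax (han.trans hnx)⟩) with rfl | rfl
        · exact Or.inl han
        · exact Or.inr (Or.inl han)
      · exact Or.inr (Or.inr fun b hb => hthin b hb x hx)
    rcases (show (M.filter fun m => ¬ m ≤ x).card = 0 ∨ (M.filter fun m => ¬ m ≤ x).card = 1 ∨
      (M.filter fun m => ¬ m ≤ x).card = 2 by omega) with h0 | h1 | h2
    · rw [Finset.card_eq_zero] at h0
      exact two_elements hx0 hp hp (hcov p p (by rw [h0]; simp))
    · obtain ⟨m, hm⟩ := Finset.card_eq_one.mp h1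
      have hmM : m ∈ M := (Finset.mem_filter.mp (hm ▸ Finset.mem_singleton_self m)).1
      exact two_elements hx0 (hM m hmM) (hM m hmM) (hcov m m (by rw [hm]; simp))
    · obtain ⟨m, m', _, hm⟩ := Finset.card_eq_two.mp h2
      have hmM : m ∈ M := (Finset.mem_filter.mp (hm ▸ Finset.mem_insert_self m {m'})).1
      have hmM' : m' ∈ M := (Finset.mem_filter.mp
        (hm ▸ Finset.mem_insert_of_mem (Finset.mem_singleton_self m'))).1
      exact two_elements hx0 (hM m hmM) (hM m' hmM') (hcov m m' (by rw [hm]; simp))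
  have hMne : M.Nonempty := by
    obtain ⟨x, hx, _⟩ := (eq_top_or_exists_le_coatom (⊥ : L)).resolve_left bot_ne_top
    have := hthree x hx
    have h4 := Finset.card_filter_le M fun m => ¬ m ≤ x
    rw [← Finset.card_pos]
    omega
  refine hno (averaging hM hMne fun x hx => ?_)
  obtain ⟨x', hx', hxx'⟩ := (eq_top_or_exists_le_coatom x).resolve_left hx
  have h1 := hthree x' hx'
  have h2 : (M.filter fun m => ¬ m ≤ x').card ≤ (M.filter fun m => ¬ m ≤ x).card :=
    Finset.card_le_card fun m hm => by
      rw [Finset.mem_filter] at hm ⊢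
      exact ⟨hm.1, fun hmx => hm.2 (hmx.trans hxx')⟩
  have h3 := Finset.card_filter_add_card_filter_not (s := M) (fun m => m ≤ x)
  omega

end Pool.Agent.H61.Fr.CopySixMaximalJoinIrred
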