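import Mathlib
import Pool.Agent.H61.Fr.HeightTwo

set_option autoImplicit false

/-!
# Frankl's inequality for upper semimodular lattices of length at most six

Let `L` be a finite upper semimodular lattice with at least two elements and of length at most six
(no chain with more than seven elements).  Then some join-irreducible lies under at most half of the
elements of `L`.

The main step (`main`) holds for every finite upper semimodular lattice: if `b` is a maximal
join-irreducible of `L` which is not an atom, and there is no chain `b < c₁ < c₂ < c₃ < c₄`, then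
`b` lies under at most half of the elements of `L`.

Proof of `main`.  Call `z ≥ b` good if `z = b ⊔ y` for some `y` not above `b`.  If `z` is not good,
all lower covers of `z` are above `b`, and `z` has two of them, `p ≠ q`, because it is not
join-irreducible.  If both covered `b`, then a minimal join-irreducible below `p` (resp. `q`) and not
below `b` would give a cover `w` (resp. `v`) of the lower cover `s` of `b`, with `b ⊔ w = p`,
`b ⊔ v = q`, and by semimodularity `w ⊔ v` would be not above `b`, so that `z = b ⊔ (w ⊔ v)` would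
be good.  So there are `b < c < d < z`, and under the hypothesis only the top element can fail to be
good.  This is paid by the two elements `⊥ ≠ s`, which have the same join with `b`.

Proof of the theorem.  If some join-irreducible has height at least three, the maximal
join-irreducibles above it satisfy `main`; otherwise the lattice is covered by our theorem
`HeightTwo.result`.
-/

namespace Pool.Agent.H61.Fr.LengthSix

variable {L : Type*} [Lattice L]

/-- The largest element strictly below a join-irreducible. -/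
lemma exists_lower [Finite L] [OrderBot L] {b : L} (hb : SupIrred b) :
    ∃ s : L, s < b ∧ ∀ z : L, z < b → z ≤ s := by
  classical
  have := Fintype.ofFinite L
  refine ⟨(Finset.univ.filter (fun z : L => z < b)).sup id, ?_, ?_⟩
  · refine lt_of_le_of_ne (Finset.sup_le fun z hz => (Finset.mem_filter.1 hz).2.le) ?_
    intro h
    obtain ⟨i, hi, hib⟩ := hb.finset_sup_eq h
    exact (Finset.mem_filter.1 hi).2.ne hib
  · intro z hz
    exact Finset.le_sup (f := id) (Finset.mem_filter.2 ⟨Finset.mem_univ _, hz⟩)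

/-- A lower cover of `z` not above `b ≤ z` makes `z` good. -/
lemma sup_eq_of_covBy {b y z : L} (hbz : b ≤ z) (hy : y ⋖ z) (hby : ¬ b ≤ y) : b ⊔ y = z := by
  rcases hy.eq_or_eq (c := b ⊔ y) le_sup_right (sup_le hbz hy.le) with h | h
  · exact absurd (h ▸ le_sup_left) hby
  · exact h

/-- Two distinct lower covers. -/
lemma exists_two [Finite L] {b z : L} (hbz : b < z) (hz : ¬ SupIrred z) :
    ∃ p q : L, p ⋖ z ∧ q ⋖ z ∧ p ≠ q := by
  have hmin : ¬ IsMin z := fun h => h.not_lt hbz
  have h1 : ∃ p q : L, p ⊔ q = z ∧ p ≠ z ∧ q ≠ z := by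
    by_contra hne
    push Not at hne
    refine hz ⟨hmin, fun p q hpq => ?_⟩
    by_cases hp : p = z
    · exact Or.inl hp
    · exact Or.inr (hne p q hpq hp)
  obtain ⟨p, q, hpq, hp, hq⟩ := h1
  have hpz : p < z := lt_of_le_of_ne (hpq ▸ le_sup_left) hp
  have hqz : q < z := lt_of_le_of_ne (hpq ▸ le_sup_right) hq
  obtain ⟨p', hp1, hp2⟩ := exists_le_covBy_of_lt hpz
  obtain ⟨q', hq1, hq2⟩ := exists_le_covBy_of_lt hqz
  refine ⟨p', q', hp2, hq2, fun h => ?_⟩
  have : z ≤ p' := hpq ▸ sup_le hp1 (h ▸ hq1)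
  exact absurd this (not_le_of_gt hp2.lt)

/-- Over a cover `p` of the maximal join-irreducible `b` there is a cover of `s` joining with `b`
to `p`. -/
lemma exists_cover [Finite L] [IsUpperModularLattice L] {b s p : L}
    (hmax : ∀ q : L, SupIrred q → b ≤ q → q = b) (hs : s < b) (hsmax : ∀ z : L, z < b → z ≤ s)
    (hp : b ⋖ p) : ∃ w : L, s ⋖ w ∧ ¬ b ≤ w ∧ b ⊔ w = p := by
  have := Fintype.ofFinite L
  obtain ⟨c, hc, hcp, hcb, hlow⟩ := HeightTwo.exists_min (not_le_of_gt hp.lt)
  have hlow' : ∀ e : L, e < c → e ≤ s := by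
    intro e he
    refine hsmax e (lt_of_le_of_ne (hlow e he) ?_)
    intro h
    rw [h] at he
    exact he.ne (hmax c hc he.le).symm
  have hcs : ¬ c ≤ s := fun h => hcb (h.trans hs.le)
  have hcov := HeightTwo.covBy_sup hlow' hcs
  have hbw : ¬ b ≤ c ⊔ s := by
    intro h
    rcases hcov.eq_or_eq hs.le h with h1 | h1
    · exact hs.ne h1.symm
    · exact hcb (h1 ▸ le_sup_left)
  refine ⟨c ⊔ s, hcov, hbw, ?_⟩
  rcases hp.eq_or_eq (c := b ⊔ (c ⊔ s)) le_sup_left
    (sup_le hp.le (sup_le hcp (hs.le.trans hp.le))) with h | h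
  · exact absurd (le_sup_left.trans (le_sup_right.trans h.le)) hcb
  · exact h

/-- An element above the maximal join-irreducible `b` which is not good has height at least three
above `b`. -/
lemma good_or_chain [Finite L] [IsUpperModularLattice L] {b s z : L}
    (hmax : ∀ q : L, SupIrred q → b ≤ q → q = b) (hs : s < b) (hsmax : ∀ z : L, z < b → z ≤ s)
    (hbz : b ≤ z) (hbad : ∀ y : L, ¬ b ≤ y → b ⊔ y ≠ z) : ∃ c d : L, b < c ∧ c < d ∧ d < z := by
  have hbz' : b < z := by
    refine lt_of_le_of_ne hbz fun h => ?_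
    exact hbad s (not_le_of_gt hs) ((sup_eq_left.2 hs.le).trans h)
  have hz : ¬ SupIrred z := fun h => hbz'.ne (hmax z h hbz).symm
  obtain ⟨p, q, hp, hq, hpq⟩ := exists_two hbz' hz
  have hbp : b ≤ p := by
    by_contra h
    exact hbad p h (sup_eq_of_covBy hbz hp h)
  have hbq : b ≤ q := by
    by_contra h
    exact hbad q h (sup_eq_of_covBy hbz hq h)
  have key : ∀ p q : L, p ⋖ z → q ⋖ z → p ≠ q → b ≤ p → b ≤ q → b < p := by
    intro p q hp hq hpq hbp hbq
    refine lt_of_le_of_ne hbp fun h => ?_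
    subst h
    rcases hp.eq_or_eq hbq hq.le with h1 | h1
    · exact hpq h1.symm
    · exact hq.lt.ne h1
  have hbp' := key p q hp hq hpq hbp hbq
  have hbq' := key q p hq hp hpq.symm hbq hbp
  by_contra hno
  push Not at hno
  have hcp : b ⋖ p := ⟨hbp', fun c hc hcp => hno c p hc hcp hp.lt⟩
  have hcq : b ⋖ q := ⟨hbq', fun c hc hcq => hno c q hc hcq hq.lt⟩
  obtain ⟨w, hw1, hw2, hw3⟩ := exists_cover hmax hs hsmax hcp
  obtain ⟨v, hv1, hv2, hv3⟩ := exists_cover hmax hs hsmax hcq
  have hwv : w ≠ v := fun h => hpq (by rw [← hw3, ← hv3, h])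
  -- `w ⊓ v = s`
  have hinf : w ⊓ v = s := by
    rcases hw1.eq_or_eq (c := w ⊓ v) (le_inf hw1.le hv1.le) inf_le_left with h | h
    · exact h
    · exfalso
      have hwv' : w ≤ v := h ▸ inf_le_right
      rcases hv1.eq_or_eq hw1.le hwv' with h1 | h1
      · exact hw1.lt.ne h1.symm
      · exact hwv h1
  have hcov1 : v ⋖ w ⊔ v := covBy_sup_of_inf_covBy_left (by rw [hinf]; exact hw1)
  have hcov2 : w ⋖ w ⊔ v := covBy_sup_of_inf_covBy_right (by rw [hinf]; exact hv1)
  by_cases hb : b ≤ w ⊔ v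
  · have h1 : p = w ⊔ v := by
      rcases hcov2.eq_or_eq (c := p) (hw3 ▸ le_sup_right) (hw3 ▸ sup_le hb le_sup_left) with h | h
      · exact absurd (h ▸ hbp) hw2
      · exact h
    have h2 : q = w ⊔ v := by
      rcases hcov1.eq_or_eq (c := q) (hv3 ▸ le_sup_right) (hv3 ▸ sup_le hb le_sup_right) with h | h
      · exact absurd (h ▸ hbq) hv2
      · exact h
    exact hpq (h1.trans h2.symm)
  · refine hbad (w ⊔ v) hb ?_
    have h1 : b ⊔ (w ⊔ v) = p ⊔ q := by
      rw [← hw3, ← hv3]
      apply le_antisymm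
      · exact sup_le (le_sup_left.trans le_sup_left)
          (sup_le (le_sup_right.trans le_sup_left) (le_sup_right.trans le_sup_right))
      · exact sup_le (sup_le le_sup_left (le_sup_left.trans le_sup_right))
          (sup_le le_sup_left (le_sup_right.trans le_sup_right))
    rw [h1]
    rcases hp.eq_or_eq (c := p ⊔ q) le_sup_left (sup_le hp.le hq.le) with h | h
    · exfalso
      have hqp : q ≤ p := h ▸ le_sup_right
      rcases hq.eq_or_eq hqp hp.le with h3 | h3
      · exact hpq h3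
      · exact hp.lt.ne h3
    · exact h

/-- The count, part (a). -/
lemma main [Finite L] [BoundedOrder L] [IsUpperModularLattice L] {b : L} (hb : SupIrred b)
    (hmax : ∀ q : L, SupIrred q → b ≤ q → q = b) (hat : ¬ IsAtom b)
    (hch : ∀ c₁ c₂ c₃ c₄ : L, b < c₁ → c₁ < c₂ → c₂ < c₃ → ¬ c₃ < c₄) :
    2 * Nat.card {x : L // b ≤ x} ≤ Nat.card L := by
  classical
  obtain ⟨s, hs, hsmax⟩ := exists_lower hb
  have hb0 : b ≠ ⊥ := fun h0 => hb.1 (h0 ▸ isMin_bot)
  have hs0 : s ≠ ⊥ := by
    intro h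
    refine hat ⟨hb0, fun c hc => ?_⟩
    exact le_bot_iff.1 (h ▸ hsmax c hc)
  -- every element above `b` except the top one is a join of `b` and a nonzero element not above `b`
  have hgood : ∀ x : L, b ≤ x → (¬ ∃ y : L, ¬ b ≤ y ∧ y ≠ ⊥ ∧ b ⊔ y = x) → x = ⊤ := by
    intro x hx hno
    have hbad : ∀ y : L, ¬ b ≤ y → b ⊔ y ≠ x := by
      intro y hy hyx
      by_cases hy0 : y = ⊥
      · refine hno ⟨s, not_le_of_gt hs, hs0, ?_⟩
        rw [← hyx, hy0, sup_bot_eq, sup_eq_left.2 hs.le]
      · exact hno ⟨y, hy, hy0, hyx⟩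
    obtain ⟨c, d, hc, hd, hdx⟩ := good_or_chain hmax hs hsmax hx hbad
    by_contra htop
    exact hch c d x ⊤ hc hd hdx (lt_top_iff_ne_top.2 htop)
  have hbot : ¬ b ≤ ⊥ := fun h => hb0 (le_bot_iff.1 h)
  let g : {x : L // b ≤ x} → {y : L // ¬ b ≤ y} := fun x =>
    if h : ∃ y : L, ¬ b ≤ y ∧ y ≠ ⊥ ∧ b ⊔ y = x.1 then ⟨h.choose, h.choose_spec.1⟩ else ⟨⊥, hbot⟩
  have hg1 : ∀ x : {x : L // b ≤ x}, (∃ y : L, ¬ b ≤ y ∧ y ≠ ⊥ ∧ b ⊔ y = x.1) →
      (g x).1 ≠ ⊥ ∧ b ⊔ (g x).1 = x.1 := by
    intro x hx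
    simp only [g, dif_pos hx]
    exact hx.choose_spec.2
  have hg2 : ∀ x : {x : L // b ≤ x}, (¬ ∃ y : L, ¬ b ≤ y ∧ y ≠ ⊥ ∧ b ⊔ y = x.1) →
      (g x).1 = ⊥ := by
    intro x hx
    simp only [g, dif_neg hx]
  have hinj : Function.Injective g := by
    intro x x' hxx
    have hval : (g x).1 = (g x').1 := congrArg Subtype.val hxx
    by_cases hx : ∃ y : L, ¬ b ≤ y ∧ y ≠ ⊥ ∧ b ⊔ y = x.1
    · by_cases hx' : ∃ y : L, ¬ b ≤ y ∧ y ≠ ⊥ ∧ b ⊔ y = x'.1
      · apply Subtype.ext
        rw [← (hg1 x hx).2, ← (hg1 x' hx').2, hval]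
      · exact absurd (hval.trans (hg2 x' hx')) (hg1 x hx).1
    · by_cases hx' : ∃ y : L, ¬ b ≤ y ∧ y ≠ ⊥ ∧ b ⊔ y = x'.1
      · exact absurd (hval.symm.trans (hg2 x hx)) (hg1 x' hx').1
      · apply Subtype.ext
        rw [hgood x.1 x.2 hx, hgood x'.1 x'.2 hx']
  have hcard := Nat.card_le_card_of_injective _ hinj
  have hsum : Nat.card {x : L // b ≤ x} + Nat.card {y : L // ¬ b ≤ y} = Nat.card L := by
    rw [← Nat.card_sum]
    exact Nat.card_congr (Equiv.sumCompl (fun x : L => b ≤ x))
  omega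

theorem result (L : Type*) [Lattice L] [BoundedOrder L] [Finite L] [IsUpperModularLattice L]
    (hL : 2 ≤ Nat.card L) (hlen : ∀ s : LTSeries L, s.length ≤ 6) :
    ∃ a : L, SupIrred a ∧ 2 * Nat.card {x : L // a ≤ x} ≤ Nat.card L := by
  by_cases h : ∀ a : L, SupIrred a → ∀ b c : L, c < b → b < a → c = ⊥
  · exact HeightTwo.result L hL h
  · push Not at h
    obtain ⟨a, ha, d, c, hcd, hda, hc0⟩ := h
    obtain ⟨b, hab, hb⟩ := (Set.toFinite {q : L | SupIrred q}).exists_le_maximal ha
    have hbmax : ∀ q : L, SupIrred q → b ≤ q → q = b := fun q hq hbq =>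
      le_antisymm (hb.le_of_ge hq hbq) hbq
    have hdb : d < b := lt_of_lt_of_le hda hab
    refine ⟨b, hb.prop, main hb.prop hbmax (fun hat => ?_) ?_⟩
    · have h1 := hat.2 d hdb
      rw [h1] at hcd
      exact absurd hcd not_lt_bot
    · intro c₁ c₂ c₃ c₄ h₁ h₂ h₃ h₄
      have hbc : (⊥ : L) < c := bot_lt_iff_ne_bot.2 hc0
      let f : Fin 8 → L := ![⊥, c, d, b, c₁, c₂, c₃, c₄]
      have hf : ∀ i : Fin 7, f i.castSucc < f i.succ := by
        intro i
        fin_cases i
        · exact hbc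
        · exact hcd
        · exact hdb
        · exact h₁
        · exact h₂
        · exact h₃
        · exact h₄
      have := hlen ⟨7, f, hf⟩
      simp at this

end Pool.Agent.H61.Fr.LengthSix
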