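import Mathlib

set_option autoImplicit false

/-!
# Frankl's inequality for join-distributive lattices: a condition on the longest paths

Let `L` be a finite lattice which is upper semimodular and meet-semidistributive (these are the
join-distributive lattices, that is, the lattices of feasible sets of antimatroids).  A
meet-irreducible `m` is an endpoint of `a` if `m` is not above `a` but above everything strictly
below `a`; then `a` is join-irreducible.  Suppose that every `b` which has a common endpoint with a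
join-irreducible of the largest height `ℓ` has height at least `ℓ - 1`.  Then some
join-irreducible `a` satisfies `2 |{x : a ≤ x}| ≤ |L|`.  This contains the distributive lattices
(every `m` is the endpoint of one `a`) and the join-distributive lattices whose join-irreducibles
have height at most `3`.

`L` is isomorphic to a union-closed accessible family `F` of finite sets (map `x` to the set of
meet-irreducible elements which are not above `x`).  The join-irreducibles are the minimal members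
`P` of `F` which contain a given point `e` (paths with endpoint `e`).

* For a path `P` with endpoint `e`, `|F| + |Bad| = 2 |{z : P ⊆ z}| + |{z : ¬ P \ e ⊆ z}|`, where
  `Bad` is the set of all `z ∈ F` with `P ⊆ z` and `z \ e ∉ F`.
* Let `E` be a set of points such that every path `P` with endpoint `f` which contains a point
  `e ≠ f` of `E` is a maximal path, has `f ∈ E` and contains no third point of `E`.  For `x ∈ F` let
  `I x` be the set of all `e ∈ E ∩ x` with `x \ e ∈ F` such that all paths of `e` inside `x` are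
  maximal paths.  For `e ∈ I x` let `P x e` be a path of `e` inside `x`.  For all `x, z ∈ F`,
  `#{e ∈ I x : P x e ⊆ z, z \ e ∉ F} ≤ #{f ∈ I z : ¬ P z f \ f ⊆ x}`:
  a point `e` counted on the left is charged to a removable point `f ≠ e` of `z` all of whose paths
  inside `z` contain `e`.
* Sum over all pairs `(x, z)`: some path with endpoint in `E` is good.
* The set `E` of the endpoints of the longest paths has the property.
-/

namespace Pool.Agent.H61.Fr.LongestPaths

open Finset

section Sets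

variable {α : Type*} [DecidableEq α]

/-- `F` contains the empty set, is closed under union and accessible. -/
structure Anti (F : Finset (Finset α)) : Prop where
  zero : ∅ ∈ F
  union : ∀ A ∈ F, ∀ B ∈ F, A ∪ B ∈ F
  acc : ∀ A ∈ F, A.Nonempty → ∃ a ∈ A, A.erase a ∈ F

variable {F : Finset (Finset α)}

lemma Anti.exch (hF : Anti F) {A : Finset α} (hA : A ∈ F) :
    ∀ (n : ℕ) (B : Finset α), B.card = n → B ∈ F → ¬ B ⊆ A → ∃ e ∈ B, e ∉ A ∧ insert e A ∈ F := by
  intro n
  induction n with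
  | zero =>
    intro B hn _ hBA
    exact absurd (Finset.card_eq_zero.1 hn ▸ Finset.empty_subset A) hBA
  | succ n ih =>
    intro B hn hB hBA
    have hne : B.Nonempty := Finset.card_pos.1 (by omega)
    obtain ⟨a, ha, hBa⟩ := hF.acc B hB hne
    by_cases hsub : B.erase a ⊆ A
    · have haA : a ∉ A := by
        intro haA
        apply hBA
        intro b hb
        by_cases hba : b = a
        · exact hba ▸ haA
        · exact hsub (Finset.mem_erase.2 ⟨hba, hb⟩)
      refine ⟨a, ha, haA, ?_⟩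
      have : insert a A = A ∪ B := by
        ext b
        simp only [Finset.mem_insert, Finset.mem_union]
        constructor
        · rintro (h | h)
          · exact Or.inr (h ▸ ha)
          · exact Or.inl h
        · rintro (h | h)
          · exact Or.inr h
          · by_cases hba : b = a
            · exact Or.inl hba
            · exact Or.inr (hsub (Finset.mem_erase.2 ⟨hba, h⟩))
      rw [this]
      exact hF.union A hA B hB
    · obtain ⟨e, he, heA, hins⟩ := ih (B.erase a)
        (by rw [Finset.card_erase_of_mem ha]; omega) hBa hsub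
      exact ⟨e, Finset.mem_of_mem_erase he, heA, hins⟩

lemma Anti.rem (hF : Anti F) {B : Finset α} (hB : B ∈ F) :
    ∀ (n : ℕ) (A : Finset α), (B \ A).card = n → A ∈ F → A ⊆ B → A ≠ B →
      ∃ f ∈ B, f ∉ A ∧ B.erase f ∈ F := by
  intro n
  induction n with
  | zero =>
    intro A hn _ hAB hne
    exact absurd (Finset.Subset.antisymm hAB (Finset.sdiff_eq_empty_iff_subset.1
      (Finset.card_eq_zero.1 hn))) hne
  | succ n ih =>
    intro A hn hA hAB hne
    have hnot : ¬ B ⊆ A := fun h => hne (Finset.Subset.antisymm hAB h)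
    obtain ⟨e, heB, heA, hins⟩ := hF.exch hA B.card B rfl hB hnot
    by_cases heq : insert e A = B
    · refine ⟨e, heB, heA, ?_⟩
      rw [← heq, Finset.erase_insert heA]
      exact hA
    · have hsub : insert e A ⊆ B := Finset.insert_subset heB hAB
      have hcard : (B \ insert e A).card = n := by
        have h1 : B \ insert e A = (B \ A).erase e := by
          ext b
          simp only [Finset.mem_sdiff, Finset.mem_insert, Finset.mem_erase]
          tauto
        rw [h1, Finset.card_erase_of_mem (Finset.mem_sdiff.2 ⟨heB, heA⟩)]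
        omega
      obtain ⟨f, hfB, hfA, hf⟩ := ih (insert e A) hcard hins hsub heq
      exact ⟨f, hfB, fun h => hfA (Finset.mem_insert_of_mem h), hf⟩

/-- `P` is a path with endpoint `e`: a minimal member of `F` containing `e`. -/
def IsPath (F : Finset (Finset α)) (P : Finset α) (e : α) : Prop :=
  P ∈ F ∧ e ∈ P ∧ ∀ B ∈ F, e ∈ B → B ⊆ P → B = P

/-- `P` is not strictly contained in a path. -/
def IsTop (F : Finset (Finset α)) (P : Finset α) : Prop :=
  ∀ Q g, IsPath F Q g → P ⊆ Q → Q = P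

lemma exists_path {x : Finset α} (hx : x ∈ F) {e : α} (he : e ∈ x) :
    ∃ P, IsPath F P e ∧ P ⊆ x := by
  obtain ⟨P, hP, hmin⟩ := Finset.exists_min_image (F.filter (fun B => e ∈ B ∧ B ⊆ x)) Finset.card
    ⟨x, Finset.mem_filter.2 ⟨hx, he, Finset.Subset.refl x⟩⟩
  obtain ⟨h1, h2, h3⟩ := Finset.mem_filter.1 hP
  refine ⟨P, ⟨h1, h2, ?_⟩, h3⟩
  intro B hB heB hBP
  exact Finset.eq_of_subset_of_card_le hBP
    (hmin B (Finset.mem_filter.2 ⟨hB, heB, hBP.trans h3⟩))

open Classical in
/-- The chosen path. -/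
noncomputable def pth (F : Finset (Finset α)) (x : Finset α) (e : α) : Finset α :=
  if h : ∃ P, IsPath F P e ∧ P ⊆ x then h.choose else ∅

lemma pth_spec {x : Finset α} (hx : x ∈ F) {e : α} (he : e ∈ x) :
    IsPath F (pth F x e) e ∧ pth F x e ⊆ x := by
  have h := exists_path hx he
  rw [pth, dif_pos h]
  exact h.choose_spec

lemma IsPath.erase {e : α} {P : Finset α} (hF : Anti F) (hP : IsPath F P e) :
    P.erase e ∈ F := by
  obtain ⟨y, hy, hPy⟩ := hF.acc P hP.1 ⟨e, hP.2.1⟩
  by_cases hye : y = e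
  · exact hye ▸ hPy
  · exfalso
    have h1 := hP.2.2 _ hPy (Finset.mem_erase.2 ⟨fun h => hye h.symm, hP.2.1⟩)
      (Finset.erase_subset _ _)
    rw [Finset.erase_eq_self] at h1
    exact h1 hy

lemma IsPath.unique {e f : α} {P : Finset α} (hF : Anti F) (hP : IsPath F P e)
    (hP' : IsPath F P f) : e = f := by
  by_contra hne
  have h1 := hP.2.2 _ (hP'.erase hF) (Finset.mem_erase.2 ⟨hne, hP.2.1⟩) (Finset.erase_subset _ _)
  rw [Finset.erase_eq_self] at h1
  exact h1 hP'.2.1

/-- The counting identity. -/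
lemma count (hF : Anti F) {e : α} {P : Finset α} (hP : IsPath F P e) :
    F.card + (F.filter (fun z => P ⊆ z ∧ z.erase e ∉ F)).card =
      2 * (F.filter (fun z => P ⊆ z)).card + (F.filter (fun z => ¬ P.erase e ⊆ z)).card := by
  have h1 : (F.filter (fun z => P.erase e ⊆ z)).card + (F.filter (fun z => ¬ P.erase e ⊆ z)).card
      = F.card := Finset.card_filter_add_card_filter_not _
  have h2 : (F.filter (fun z => P.erase e ⊆ z)).card =
      (F.filter (fun z => P ⊆ z)).card + (F.filter (fun z => P.erase e ⊆ z ∧ e ∉ z)).card := by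
    rw [← Finset.card_union_of_disjoint]
    · congr 1
      ext z
      simp only [Finset.mem_filter, Finset.mem_union]
      constructor
      · rintro ⟨hz, hs⟩
        by_cases hez : e ∈ z
        · left
          refine ⟨hz, ?_⟩
          intro b hb
          by_cases hbe : b = e
          · exact hbe ▸ hez
          · exact hs (Finset.mem_erase.2 ⟨hbe, hb⟩)
        · exact Or.inr ⟨hz, hs, hez⟩
      · rintro (⟨hz, hs⟩ | ⟨hz, hs, -⟩)
        · exact ⟨hz, (Finset.erase_subset _ _).trans hs⟩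
        · exact ⟨hz, hs⟩
    · rw [Finset.disjoint_left]
      intro z hz hz'
      exact (Finset.mem_filter.1 hz').2.2 ((Finset.mem_filter.1 hz).2 hP.2.1)
  have h3 : (F.filter (fun z => P ⊆ z)).card =
      (F.filter (fun z => P ⊆ z ∧ z.erase e ∈ F)).card +
        (F.filter (fun z => P ⊆ z ∧ z.erase e ∉ F)).card := by
    rw [← Finset.filter_filter, ← Finset.filter_filter]
    exact (Finset.card_filter_add_card_filter_not _).symm
  have h4 : (F.filter (fun z => P.erase e ⊆ z ∧ e ∉ z)).card =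
      (F.filter (fun z => P ⊆ z ∧ z.erase e ∈ F)).card := by
    refine Finset.card_bij' (fun z _ => insert e z) (fun z _ => z.erase e) ?_ ?_ ?_ ?_
    · intro z hz
      obtain ⟨hzF, hs, hez⟩ := Finset.mem_filter.1 hz
      have hins : insert e z = z ∪ P := by
        ext b
        simp only [Finset.mem_insert, Finset.mem_union]
        constructor
        · rintro (h | h)
          · exact Or.inr (h ▸ hP.2.1)
          · exact Or.inl h
        · rintro (h | h)
          · exact Or.inr h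
          · by_cases hbe : b = e
            · exact Or.inl hbe
            · exact Or.inr (hs (Finset.mem_erase.2 ⟨hbe, h⟩))
      refine Finset.mem_filter.2 ⟨?_, ?_, ?_⟩
      · rw [hins]; exact hF.union z hzF P hP.1
      · rw [hins]; exact Finset.subset_union_right
      · rw [Finset.erase_insert hez]; exact hzF
    · intro z hz
      obtain ⟨hzF, hs, hez⟩ := Finset.mem_filter.1 hz
      exact Finset.mem_filter.2 ⟨hez, Finset.erase_subset_erase _ hs, Finset.notMem_erase _ _⟩
    · intro z hz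
      exact Finset.erase_insert (Finset.mem_filter.1 hz).2.2
    · intro z hz
      exact Finset.insert_erase ((Finset.mem_filter.1 hz).2.1 hP.2.1)
  omega

open Classical in
/-- The set `I x`. -/
noncomputable def II (F : Finset (Finset α)) (E : Set α) (x : Finset α) : Finset α :=
  x.filter (fun e => x.erase e ∈ F ∧ e ∈ E ∧ ∀ P, IsPath F P e → P ⊆ x → IsTop F P)

lemma mem_II {E : Set α} {x : Finset α} {e : α} :
    e ∈ II F E x ↔ e ∈ x ∧ x.erase e ∈ F ∧ e ∈ E ∧ ∀ P, IsPath F P e → P ⊆ x → IsTop F P := by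
  simp only [II, Finset.mem_filter]

/-- Charging. -/
lemma charge (hF : Anti F) {z : Finset α} (hz : z ∈ F) {e : α} (hez : z.erase e ∉ F) :
    ∃ f ∈ z, z.erase f ∈ F ∧ f ≠ e ∧ ∀ B ∈ F, f ∈ B → B ⊆ z → e ∈ B := by
  set w := (F.filter (fun B => B ⊆ z.erase e)).sup id with hw
  have hwF : w ∈ F := by
    rw [hw]
    refine Finset.sup_induction hF.zero (fun A hA B hB => hF.union A hA B hB) ?_
    intro B hB
    exact (Finset.mem_filter.1 hB).1
  have hwz : w ⊆ z.erase e := by
    rw [hw]
    refine Finset.sup_le ?_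
    intro B hB
    exact (Finset.mem_filter.1 hB).2
  have hmax : ∀ B ∈ F, B ⊆ z.erase e → B ⊆ w := by
    intro B hB hBz
    rw [hw]
    exact Finset.le_sup (f := id) (Finset.mem_filter.2 ⟨hB, hBz⟩)
  have hne : w ≠ z := by
    intro h
    have h1 : z ⊆ z.erase e := by
      intro b hb
      exact hwz (h ▸ hb)
    have h2 : z.erase e = z := Finset.Subset.antisymm (Finset.erase_subset _ _) h1
    exact hez (h2.symm ▸ hz)
  obtain ⟨f, hfz, hfw, hf⟩ := hF.rem hz _ w rfl hwF (hwz.trans (Finset.erase_subset _ _)) hne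
  refine ⟨f, hfz, hf, ?_, ?_⟩
  · intro h
    exact hez (h ▸ hf)
  · intro B hB hfB hBz
    by_contra heB
    refine hfw (hmax B hB ?_ hfB)
    intro b hb
    exact Finset.mem_erase.2 ⟨fun h => heB (h ▸ hb), hBz hb⟩

/-- The hypothesis on `E`. -/
def Good (F : Finset (Finset α)) (E : Set α) : Prop :=
  ∀ P f, IsPath F P f → ∀ e ∈ E, e ∈ P → e ≠ f →
    f ∈ E ∧ IsTop F P ∧ ∀ e' ∈ E, e' ∈ P → e' ≠ f → e' = e

lemma pair (hF : Anti F) {E : Set α} (hE : Good F E) {x z : Finset α} (hz : z ∈ F) :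
    ((II F E x).filter (fun e => pth F x e ⊆ z ∧ z.erase e ∉ F)).card ≤
      ((II F E z).filter (fun f => ¬ (pth F z f).erase f ⊆ x)).card := by
  classical
  have key : ∀ e ∈ (II F E x).filter (fun e => pth F x e ⊆ z ∧ z.erase e ∉ F),
      ∃ f ∈ z, z.erase f ∈ F ∧ f ≠ e ∧ ∀ B ∈ F, f ∈ B → B ⊆ z → e ∈ B :=
    fun e he => charge hF hz (Finset.mem_filter.1 he).2.2
  choose! g hg1 hg2 hg3 hg4 using key
  refine Finset.card_le_card_of_injOn g ?_ ?_
  · intro e he
    have he' : e ∈ (II F E x).filter (fun e => pth F x e ⊆ z ∧ z.erase e ∉ F) := he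
    obtain ⟨heI, -, -⟩ := Finset.mem_filter.1 he'
    obtain ⟨-, -, heE, htop⟩ := mem_II.1 heI
    have hfe : e ≠ g e := fun h => hg3 e he' h.symm
    have hall := hg4 e he'
    obtain ⟨hp, hpz⟩ := pth_spec hz (hg1 e he')
    have hep : e ∈ pth F z (g e) := hall _ hp.1 hp.2.1 hpz
    refine Finset.mem_coe.2 (Finset.mem_filter.2 ⟨mem_II.2 ⟨hg1 e he', hg2 e he', ?_, ?_⟩, ?_⟩)
    · exact (hE _ _ hp e heE hep hfe).1
    · intro P hP hPz
      exact (hE _ _ hP e heE (hall P hP.1 hP.2.1 hPz) hfe).2.1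
    · intro hsub
      obtain ⟨Q, hQ, hQs⟩ := exists_path (hp.erase hF) (Finset.mem_erase.2 ⟨hfe, hep⟩)
      have h1 : pth F z (g e) = Q :=
        htop Q hQ (hQs.trans hsub) _ _ hp (hQs.trans (Finset.erase_subset _ _))
      have h2 : g e ∈ Q := h1 ▸ hp.2.1
      exact Finset.notMem_erase _ _ (hQs h2)
  · intro e he e' he' hgg
    have hm : e ∈ (II F E x).filter (fun e => pth F x e ⊆ z ∧ z.erase e ∉ F) := he
    have hm' : e' ∈ (II F E x).filter (fun e => pth F x e ⊆ z ∧ z.erase e ∉ F) := he'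
    obtain ⟨-, -, heE, -⟩ := mem_II.1 (Finset.mem_filter.1 hm).1
    obtain ⟨-, -, heE', -⟩ := mem_II.1 (Finset.mem_filter.1 hm').1
    obtain ⟨hp, hpz⟩ := pth_spec hz (hg1 e hm)
    have h1 : e ∈ pth F z (g e) := hg4 e hm _ hp.1 hp.2.1 hpz
    have h2 : e' ∈ pth F z (g e) := hg4 e' hm' _ hp.1 (hgg ▸ hp.2.1) hpz
    exact ((hE _ _ hp e heE h1 (fun h => hg3 e hm h.symm)).2.2 e' heE' h2
      (fun h => hg3 e' hm' (by rw [← hgg]; exact h.symm))).symm

theorem core (hF : Anti F) {E : Set α} (hE : Good F E) (hne : ∃ e ∈ E, ∃ x ∈ F, e ∈ x) :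
    ∃ P, ∃ e ∈ E, IsPath F P e ∧ 2 * (F.filter (fun z => P ⊆ z)).card ≤ F.card := by
  classical
  -- a path which is maximal, with endpoint in `E`
  obtain ⟨P₀, f₀, hf₀, hP₀, htop⟩ : ∃ P f, f ∈ E ∧ IsPath F P f ∧ IsTop F P := by
    obtain ⟨e, he, x, hx, hex⟩ := hne
    obtain ⟨P, hP, -⟩ := exists_path hx hex
    by_cases h : IsTop F P
    · exact ⟨P, e, he, hP, h⟩
    · have h' : ∃ Q g, IsPath F Q g ∧ P ⊆ Q ∧ Q ≠ P := by
        by_contra hcon
        push Not at hcon
        exact h fun Q g hQ hPQ => hcon Q g hQ hPQ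
      obtain ⟨Q, g, hQ, hPQ, hne'⟩ := h'
      have heQ : e ∈ Q := hPQ hP.2.1
      have heg : e ≠ g := by
        intro h1
        exact hne' (hQ.2.2 P hP.1 (h1 ▸ hP.2.1) hPQ).symm
      obtain ⟨h1, h2, -⟩ := hE Q g hQ e he heQ heg
      exact ⟨Q, g, h1, hQ, h2⟩
  have hfI : f₀ ∈ II F E P₀ := by
    refine mem_II.2 ⟨hP₀.2.1, hP₀.erase hF, hf₀, ?_⟩
    intro P hP hPP
    rw [hP₀.2.2 P hP.1 hP.2.1 hPP]
    exact htop
  by_contra hcon
  push Not at hcon
  have hsum : ∑ x ∈ F, ∑ e ∈ II F E x, (F.filter (fun z => pth F x e ⊆ z ∧ z.erase e ∉ F)).card ≤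
      ∑ x ∈ F, ∑ e ∈ II F E x, (F.filter (fun z => ¬ (pth F x e).erase e ⊆ z)).card := by
    have h1 : ∀ x ∈ F, ∑ e ∈ II F E x, (F.filter (fun z => pth F x e ⊆ z ∧ z.erase e ∉ F)).card =
        ∑ z ∈ F, ((II F E x).filter (fun e => pth F x e ⊆ z ∧ z.erase e ∉ F)).card := by
      intro x _
      simp_rw [Finset.card_filter]
      rw [Finset.sum_comm]
    have h2 : ∀ x ∈ F, ∑ e ∈ II F E x, (F.filter (fun z => ¬ (pth F x e).erase e ⊆ z)).card =
        ∑ z ∈ F, ((II F E x).filter (fun e => ¬ (pth F x e).erase e ⊆ z)).card := by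
      intro x _
      simp_rw [Finset.card_filter]
      rw [Finset.sum_comm]
    rw [Finset.sum_congr rfl h1, Finset.sum_congr rfl h2, Finset.sum_comm (s := F) (t := F)
      (f := fun x z => ((II F E x).filter (fun e => ¬ (pth F x e).erase e ⊆ z)).card)]
    exact Finset.sum_le_sum fun x _ => Finset.sum_le_sum fun z hz => pair hF hE hz
  have hlt : ∀ x ∈ F, ∀ e ∈ II F E x, (F.filter (fun z => ¬ (pth F x e).erase e ⊆ z)).card <
      (F.filter (fun z => pth F x e ⊆ z ∧ z.erase e ∉ F)).card := by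
    intro x hx e he
    obtain ⟨hex, -, heE, -⟩ := mem_II.1 he
    have hp := (pth_spec hx hex).1
    have h1 := count hF hp
    have h2 := hcon _ e heE hp
    omega
  have hlt2 : ∑ x ∈ F, ∑ e ∈ II F E x, (F.filter (fun z => ¬ (pth F x e).erase e ⊆ z)).card <
      ∑ x ∈ F, ∑ e ∈ II F E x, (F.filter (fun z => pth F x e ⊆ z ∧ z.erase e ∉ F)).card := by
    refine Finset.sum_lt_sum (fun x hx => Finset.sum_le_sum fun e he => (hlt x hx e he).le) ?_
    exact ⟨P₀, hP₀.1, Finset.sum_lt_sum_of_nonempty ⟨f₀, hfI⟩ fun e he => hlt P₀ hP₀.1 e he⟩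
  exact absurd hsum (not_le.2 hlt2)

/-- The set of the endpoints of the longest paths is good. -/
lemma good_of_card (hF : Anti F) (l : ℕ)
    (h : ∀ P Q e, IsPath F P e → IsPath F Q e → P.card = l → P.card ≤ Q.card + 1)
    (hl : ∀ P e, IsPath F P e → P.card ≤ l) :
    Good F {e | ∃ P, IsPath F P e ∧ P.card = l} := by
  have key : ∀ P f, IsPath F P f → ∀ e, (∃ Q, IsPath F Q e ∧ Q.card = l) → e ∈ P → e ≠ f →
      P.card = l ∧ IsPath F (P.erase f) e := by
    intro P f hP e ⟨Q, hQ, hQl⟩ heP hef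
    obtain ⟨R, hR, hRs⟩ := exists_path (hP.erase hF) (Finset.mem_erase.2 ⟨hef, heP⟩)
    have h1 := h Q R e hQ hR hQl
    have h2 := Finset.card_le_card hRs
    have h3 : (P.erase f).card + 1 = P.card := by
      rw [Finset.card_erase_of_mem hP.2.1]
      have : 0 < P.card := Finset.card_pos.2 ⟨_, hP.2.1⟩
      omega
    have h4 := hl P f hP
    refine ⟨by omega, ?_⟩
    have h5 : R = P.erase f := Finset.eq_of_subset_of_card_le hRs (by omega)
    exact h5 ▸ hR
  intro P f hP e he heP hef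
  obtain ⟨h1, h2⟩ := key P f hP e he heP hef
  refine ⟨⟨P, hP, h1⟩, ?_, ?_⟩
  · intro Q g hQ hPQ
    exact (Finset.eq_of_subset_of_card_le hPQ (by rw [h1]; exact hl Q g hQ)).symm
  · intro e' he' heP' hef'
    exact (key P f hP e' he' heP' hef').2.unique hF h2

theorem core_card (hF : Anti F) (hne : ∃ A ∈ F, A.Nonempty)
    (h : ∀ P Q e, IsPath F P e → IsPath F Q e → (∀ R g, IsPath F R g → R.card ≤ P.card) →
      P.card ≤ Q.card + 1) :
    ∃ P e, IsPath F P e ∧ 2 * (F.filter (fun z => P ⊆ z)).card ≤ F.card := by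
  classical
  obtain ⟨A, hA, a, haA⟩ := hne
  obtain ⟨P₁, hP₁, -⟩ := exists_path hA haA
  obtain ⟨P₀, hP₀, hmax⟩ := Finset.exists_max_image (F.filter (fun P => ∃ e, IsPath F P e))
    Finset.card ⟨P₁, Finset.mem_filter.2 ⟨hP₁.1, a, hP₁⟩⟩
  obtain ⟨e, he⟩ := (Finset.mem_filter.1 hP₀).2
  have hmax' : ∀ P e, IsPath F P e → P.card ≤ P₀.card :=
    fun P e hP => hmax P (Finset.mem_filter.2 ⟨hP.1, e, hP⟩)
  obtain ⟨P, f, -, hP, hle⟩ := core hF (good_of_card hF P₀.card
    (fun P Q e hP hQ hc => h P Q e hP hQ (fun R g hR => hc ▸ hmax' R g hR)) hmax')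
    ⟨e, ⟨P₀, he, rfl⟩, P₀, he.1, he.2.1⟩
  exact ⟨P, f, hP, hle⟩

end Sets

section Lattice

variable {L : Type*} [Lattice L] [Fintype L]

/-- Meet-irreducible separators. -/
lemma exists_max {x y : L} (h : ¬ x ≤ y) : ∃ m : L, InfIrred m ∧ y ≤ m ∧ ¬ x ≤ m := by
  classical
  obtain ⟨c, hc⟩ := (Set.toFinite {c : L | y ≤ c ∧ ¬ x ≤ c}).exists_maximal ⟨y, le_rfl, h⟩
  have key : ∀ e : L, c < e → x ≤ e := by
    intro e he
    by_contra hxe
    exact absurd (hc.le_of_ge ⟨hc.prop.1.trans he.le, hxe⟩ he.le) (not_le_of_gt he)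
  refine ⟨c, ⟨?_, ?_⟩, hc.prop.1, hc.prop.2⟩
  · intro hmax
    exact hc.prop.2 (le_sup_right.trans (hmax (le_sup_left : c ≤ c ⊔ x)))
  · intro b d hbd
    by_contra hne
    push Not at hne
    have hb : c < b := lt_of_le_of_ne (hbd ▸ inf_le_left) (Ne.symm hne.1)
    have hd : c < d := lt_of_le_of_ne (hbd ▸ inf_le_right) (Ne.symm hne.2)
    exact hc.prop.2 (hbd ▸ le_inf (key b hb) (key d hd))

open Classical in
/-- The set of meet-irreducibles which are not above `x`. -/
noncomputable def S (x : L) : Finset L := Finset.univ.filter (fun m => InfIrred m ∧ ¬ x ≤ m)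

lemma mem_S {x m : L} : m ∈ S x ↔ InfIrred m ∧ ¬ x ≤ m := by
  simp only [S, Finset.mem_filter, Finset.mem_univ, true_and]

lemma S_subset {x y : L} : S x ⊆ S y ↔ x ≤ y := by
  constructor
  · intro h
    by_contra hxy
    obtain ⟨m, hm, hym, hxm⟩ := exists_max hxy
    exact (mem_S.1 (h (mem_S.2 ⟨hm, hxm⟩))).2 hym
  · intro h m hm
    obtain ⟨h1, h2⟩ := mem_S.1 hm
    exact mem_S.2 ⟨h1, fun h3 => h2 (h.trans h3)⟩

lemma S_inj {x y : L} (h : S x = S y) : x = y :=
  le_antisymm (S_subset.1 (h ▸ Finset.Subset.refl _)) (S_subset.1 (h ▸ Finset.Subset.refl _))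

open Classical in
lemma S_sup (x y : L) : S x ∪ S y = S (x ⊔ y) := by
  ext m
  simp only [Finset.mem_union, mem_S, sup_le_iff]
  tauto

open Classical in
lemma S_acc [IsUpperModularLattice L]
    (hsd : ∀ x y z : L, x ⊓ y = x ⊓ z → x ⊓ (y ⊔ z) = x ⊓ y) {x : L} (hx : (S x).Nonempty) :
    ∃ m ∈ S x, ∃ y : L, y < x ∧ (S x).erase m = S y := by
  obtain ⟨m₀, hm₀⟩ := hx
  have hlt : ∃ y : L, y < x := by
    refine ⟨x ⊓ m₀, lt_of_le_of_ne inf_le_left ?_⟩
    intro h
    exact (mem_S.1 hm₀).2 (h ▸ inf_le_right)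
  obtain ⟨y, hy⟩ := (Set.toFinite {y : L | y < x}).exists_maximal hlt
  have hcov : y ⋖ x := by
    refine ⟨hy.prop, ?_⟩
    intro c hc hcx
    exact absurd (hy.le_of_ge hcx hc.le) (not_le_of_gt hc)
  have hmeet : ∀ m : L, y ≤ m → ¬ x ≤ m → x ⊓ m = y := by
    intro m h1 h2
    rcases hcov.eq_or_eq (le_inf hcov.le h1) inf_le_left with h | h
    · exact h
    · exact absurd (h ▸ inf_le_right) h2
  have hmax : ∀ m m' : L, InfIrred m → y ≤ m → ¬ x ≤ m → y ≤ m' → ¬ x ≤ m' → m' ≤ m := by
    intro m m' hm h1 h2 h1' h2'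
    have e1 := hmeet m h1 h2
    have e2 := hmeet m' h1' h2'
    have e3 : x ⊓ (m ⊔ m') = y := by rw [hsd x m m' (e1.trans e2.symm), e1]
    have hc : m ⋖ x ⊔ m := covBy_sup_of_inf_covBy_left (by rw [e1]; exact hcov)
    rcases hc.eq_or_eq (le_inf le_sup_right le_sup_left : m ≤ (x ⊔ m) ⊓ (m ⊔ m')) inf_le_left
      with h | h
    · rcases hm.2 h with h' | h'
      · exact absurd (h' ▸ le_sup_left) h2
      · exact h' ▸ le_sup_right
    · exfalso
      have hxn : x ≤ m ⊔ m' := by
        have : x ⊔ m ≤ m ⊔ m' := h ▸ inf_le_right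
        exact le_sup_left.trans this
      rw [inf_eq_left.2 hxn] at e3
      exact hcov.lt.ne e3.symm
  obtain ⟨m, hm, hym, hxm⟩ := exists_max (not_le_of_gt hcov.lt)
  refine ⟨m, mem_S.2 ⟨hm, hxm⟩, y, hcov.lt, ?_⟩
  ext m'
  simp only [Finset.mem_erase, mem_S]
  constructor
  · rintro ⟨hne, hm', hxm'⟩
    refine ⟨hm', fun hym' => hne ?_⟩
    exact le_antisymm (hmax m m' hm hym hxm hym' hxm') (hmax m' m hm' hym' hxm' hym hxm)
  · rintro ⟨hm', hym'⟩
    refine ⟨?_, hm', fun h => hym' (hcov.le.trans h)⟩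
    intro h
    exact hym' (h ▸ hym)

/-- The meet-irreducible element `m` is an endpoint of `a`: it is not above `a`, but above every
element strictly below `a`. -/
def Endp (a m : L) : Prop := InfIrred m ∧ ¬ a ≤ m ∧ ∀ b : L, b < a → b ≤ m

omit [Fintype L] in
lemma Endp.supIrred {a m : L} (h : Endp a m) : SupIrred a := by
  refine ⟨?_, ?_⟩
  · intro hmin
    exact h.2.1 ((hmin inf_le_left).trans (inf_le_right : a ⊓ m ≤ m))
  · intro b c hbc
    by_contra hne
    push Not at hne
    have hb : b < a := lt_of_le_of_ne (hbc ▸ le_sup_left) hne.1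
    have hc : c < a := lt_of_le_of_ne (hbc ▸ le_sup_right) hne.2
    exact h.2.1 (hbc ▸ sup_le (h.2.2 b hb) (h.2.2 c hc))

end Lattice

section Transport

variable (L : Type*) [Lattice L] [Fintype L]

open Classical in
/-- The family of all sets `S x`. -/
noncomputable def Fam : Finset (Finset L) := Finset.univ.image (S : L → Finset L)

variable {L}

lemma mem_Fam {A : Finset L} : A ∈ Fam L ↔ ∃ x : L, S x = A := by
  simp only [Fam, Finset.mem_image, Finset.mem_univ, true_and]

open Classical in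
lemma anti_Fam [IsUpperModularLattice L] [Nonempty L]
    (hsd : ∀ x y z : L, x ⊓ y = x ⊓ z → x ⊓ (y ⊔ z) = x ⊓ y) : Anti (Fam L) := by
  refine ⟨?_, ?_, ?_⟩
  · obtain ⟨b, hb⟩ := (Set.toFinite (Set.univ : Set L)).exists_minimal
      ⟨(inferInstance : Nonempty L).some, trivial⟩
    rw [mem_Fam]
    refine ⟨b, ?_⟩
    by_contra hS
    obtain ⟨m, hm⟩ := Finset.nonempty_iff_ne_empty.2 hS
    refine (mem_S.1 hm).2 ?_
    exact (hb.le_of_le (Set.mem_univ (b ⊓ m)) inf_le_left).trans inf_le_right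
  · intro A hA B hB
    obtain ⟨x, rfl⟩ := mem_Fam.1 hA
    obtain ⟨y, rfl⟩ := mem_Fam.1 hB
    exact mem_Fam.2 ⟨x ⊔ y, (S_sup x y).symm⟩
  · intro A hA hAne
    obtain ⟨x, rfl⟩ := mem_Fam.1 hA
    obtain ⟨m, hm, y, -, hy⟩ := S_acc hsd hAne
    exact ⟨m, hm, mem_Fam.2 ⟨y, hy.symm⟩⟩

open Classical in
lemma isPath_iff {a m : L} : IsPath (Fam L) (S a) m ↔ Endp a m := by
  constructor
  · intro h
    obtain ⟨h1, h2⟩ := mem_S.1 h.2.1
    refine ⟨h1, h2, ?_⟩
    intro b hb
    by_contra hbm
    have h3 := h.2.2 (S b) (mem_Fam.2 ⟨b, rfl⟩) (mem_S.2 ⟨h1, hbm⟩) (S_subset.2 hb.le)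
    exact hb.ne (S_inj h3)
  · intro h
    refine ⟨mem_Fam.2 ⟨a, rfl⟩, mem_S.2 ⟨h.1, h.2.1⟩, ?_⟩
    intro B hB hmB hBa
    obtain ⟨b, rfl⟩ := mem_Fam.1 hB
    have hba : b ≤ a := S_subset.1 hBa
    rcases hba.eq_or_lt with h1 | h1
    · rw [h1]
    · exact absurd (h.2.2 b h1) (mem_S.1 hmB).2

open Classical in
lemma card_Fam : (Fam L).card = Nat.card L := by
  rw [Fam, Finset.card_image_of_injective _ (fun x y h => S_inj h), Finset.card_univ,
    Nat.card_eq_fintype_card]

open Classical in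
lemma card_up (a : L) :
    ((Fam L).filter (fun z => S a ⊆ z)).card = Nat.card {x : L // a ≤ x} := by
  have h5 : (Fam L).filter (fun z => S a ⊆ z) =
      (Finset.univ.filter (fun x : L => a ≤ x)).image S := by
    ext z
    simp only [Finset.mem_filter, mem_Fam, Finset.mem_image, Finset.mem_univ, true_and]
    constructor
    · rintro ⟨⟨x, rfl⟩, hx⟩
      exact ⟨x, S_subset.1 hx, rfl⟩
    · rintro ⟨x, hx, rfl⟩
      exact ⟨⟨x, rfl⟩, S_subset.2 hx⟩
  rw [h5, Finset.card_image_of_injective _ (fun x y h => S_inj h), Nat.card_eq_fintype_card,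
    Fintype.card_subtype]

open Classical in
lemma height_eq [IsUpperModularLattice L]
    (hsd : ∀ x y z : L, x ⊓ y = x ⊓ z → x ⊓ (y ⊔ z) = x ⊓ y) (x : L) :
    Order.height x = (S x).card := by
  apply le_antisymm
  · have hmono : StrictMono (fun x : L => (S x).card) := by
      intro a b hab
      refine Finset.card_lt_card ?_
      refine (Finset.ssubset_iff_subset_ne).2 ⟨S_subset.2 hab.le, ?_⟩
      intro h
      exact hab.ne (S_inj h)
    have h1 := Order.height_le_height_apply_of_strictMono _ hmono x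
    simpa using h1
  · have key : ∀ (n : ℕ) (x : L), (S x).card = n → (n : ℕ∞) ≤ Order.height x := by
      intro n
      induction n with
      | zero => intro x _; simp
      | succ n ih =>
        intro x hx
        obtain ⟨m, hm, y, hyx, hy⟩ := S_acc hsd (Finset.card_pos.1 (by omega : 0 < (S x).card))
        have hy' : (S y).card = n := by
          rw [← hy, Finset.card_erase_of_mem hm]
          omega
        have h1 := ih y hy'
        push_cast
        exact (add_le_add_left h1 1).trans (Order.height_add_one_le hyx)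
    exact key _ x rfl

end Transport

open Classical in
lemma exists_endp {L : Type*} [Lattice L] [Fintype L] [IsUpperModularLattice L]
    (hsd : ∀ x y z : L, x ⊓ y = x ⊓ z → x ⊓ (y ⊔ z) = x ⊓ y) {c : L} (hc : SupIrred c) :
    ∃ m : L, Endp c m := by
  have hne : (S c).Nonempty := by
    obtain ⟨b, hb⟩ := not_isMin_iff.1 hc.1
    obtain ⟨m, hm, -, hcm⟩ := exists_max (not_le_of_gt hb)
    exact ⟨m, mem_S.2 ⟨hm, hcm⟩⟩
  obtain ⟨m, hm, y, hyc, hy⟩ := S_acc hsd hne
  refine ⟨m, (mem_S.1 hm).1, (mem_S.1 hm).2, ?_⟩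
  intro b hb
  by_contra hbm
  have h1 : S (y ⊔ b) = S c := by
    rw [← S_sup, ← hy]
    apply Finset.Subset.antisymm
    · exact Finset.union_subset (Finset.erase_subset _ _) (S_subset.2 hb.le)
    · intro t ht
      by_cases htm : t = m
      · exact Finset.mem_union_right _ (htm ▸ mem_S.2 ⟨(mem_S.1 hm).1, hbm⟩)
      · exact Finset.mem_union_left _ (Finset.mem_erase.2 ⟨htm, ht⟩)
  rcases hc.2 (S_inj h1) with h | h
  · exact hyc.ne h
  · exact hb.ne h

theorem result (L : Type*) [Lattice L] [Finite L] [IsUpperModularLattice L]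
    (h2 : 2 ≤ Nat.card L)
    (hsd : ∀ x y z : L, x ⊓ y = x ⊓ z → x ⊓ (y ⊔ z) = x ⊓ y)
    (h : ∀ a b m : L, Endp a m → Endp b m →
      (∀ c : L, SupIrred c → Order.height c ≤ Order.height a) →
        Order.height a ≤ Order.height b + 1) :
    ∃ a : L, SupIrred a ∧ 2 * Nat.card {x : L // a ≤ x} ≤ Nat.card L := by
  classical
  have := Fintype.ofFinite L
  have hne : Nonempty L := by
    rw [← not_isEmpty_iff]
    intro h
    rw [Nat.card_of_isEmpty] at h2
    omega
  have hnon : ∃ A ∈ Fam L, A.Nonempty := by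
    by_contra hcon
    push Not at hcon
    have hall : ∀ x : L, S x = ∅ := fun x =>
      Finset.not_nonempty_iff_eq_empty.1 (fun h => by
        have := hcon (S x) (mem_Fam.2 ⟨x, rfl⟩)
        simp_all)
    have : Nat.card L ≤ 1 := by
      rw [Finite.card_le_one_iff_subsingleton]
      exact ⟨fun a b => S_inj ((hall a).trans (hall b).symm)⟩
    omega
  obtain ⟨P, e, hP, hle⟩ := core_card (anti_Fam hsd) hnon (by
    intro P Q e hP hQ hmax
    obtain ⟨a, rfl⟩ := mem_Fam.1 hP.1
    obtain ⟨b, rfl⟩ := mem_Fam.1 hQ.1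
    have h1 := h a b e (isPath_iff.1 hP) (isPath_iff.1 hQ) (by
      intro c hc
      obtain ⟨m, hm⟩ := exists_endp hsd hc
      have h3 := hmax (S c) m (isPath_iff.2 hm)
      rw [height_eq hsd, height_eq hsd]
      exact_mod_cast h3)
    rw [height_eq hsd, height_eq hsd] at h1
    exact_mod_cast h1)
  obtain ⟨a, rfl⟩ := mem_Fam.1 hP.1
  refine ⟨a, (isPath_iff.1 hP).supIrred, ?_⟩
  rw [← card_up, ← card_Fam (L := L)]
  exact hle

end Pool.Agent.H61.Fr.LongestPaths
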