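import Mathlib

set_option autoImplicit false

/-!
# Frankl's inequality for upper semimodular lattices, above the non-maximal join-irreducibles

Let `L` be a finite upper semimodular lattice and let `m` be an element above every join-irreducible
element which is not maximal among the join-irreducible elements.  Then every join-irreducible `p`
which is not below `m` lies under at most half of the elements of `L`.

Proof: for `p ≤ x` choose `y` maximal in the interval `[x ⊓ m, x]` subject to `¬ p ≤ y`.  Every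
join-irreducible `c ≤ x` with `¬ c ≤ y` has all smaller elements below `y`, so `y ⋖ c ⊔ y`, and by
maximality `p ≤ c ⊔ y`, whence `c ⊔ y = p ⊔ y`.  Thus `x = p ⊔ y`, and `x ↦ y` is injective.
-/

namespace Pool.Agent.H61.Fr.NonMaximalJoin

variable {L : Type*} [Lattice L] [Finite L]

/-- If `z` is not below `w`, some join-irreducible below `z` is not below `w`, and all elements
strictly below it are below `w`. -/
lemma exists_min {z w : L} (h : ¬ z ≤ w) :
    ∃ c : L, SupIrred c ∧ c ≤ z ∧ ¬ c ≤ w := by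
  classical
  obtain ⟨c, hc⟩ := (Set.toFinite {c : L | c ≤ z ∧ ¬ c ≤ w}).exists_minimal ⟨z, le_rfl, h⟩
  refine ⟨c, ⟨?_, ?_⟩, hc.prop.1, hc.prop.2⟩
  · intro hmin
    exact hc.prop.2 ((hmin inf_le_left).trans inf_le_right)
  · intro b d hbd
    by_contra hne
    push Not at hne
    have hb : b < c := lt_of_le_of_ne (hbd ▸ le_sup_left) hne.1
    have hd : d < c := lt_of_le_of_ne (hbd ▸ le_sup_right) hne.2
    have key : ∀ e : L, e < c → e ≤ w := by
      intro e he
      by_contra hew
      exact absurd (hc.le_of_le ⟨he.le.trans hc.prop.1, hew⟩ he.le) (not_le_of_gt he)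
    exact hc.prop.2 (hbd ▸ sup_le (key b hb) (key d hd))

/-- The retraction: above `p` every element is a join of `p` and an element not above `p`. -/
lemma exists_compl [IsUpperModularLattice L] {m p x : L}
    (hm : ∀ q : L, SupIrred q → (∃ r : L, SupIrred r ∧ q < r) → q ≤ m)
    (hp : SupIrred p) (hpm : ¬ p ≤ m) (hpx : p ≤ x) : ∃ y : L, ¬ p ≤ y ∧ p ⊔ y = x := by
  classical
  obtain ⟨y, hy⟩ := (Set.toFinite {y : L | x ⊓ m ≤ y ∧ y ≤ x ∧ ¬ p ≤ y}).exists_maximal
    ⟨x ⊓ m, le_rfl, inf_le_left, fun h => hpm (h.trans inf_le_right)⟩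
  obtain ⟨⟨hy1, hy2, hy3⟩, hymax⟩ := hy
  -- every join-irreducible `c ≤ x` not below `y` gives a cover of `y` which is above `p`
  have cov : ∀ c : L, SupIrred c → c ≤ x → ¬ c ≤ y → y ⋖ c ⊔ y ∧ p ≤ c ⊔ y := by
    intro c hc hcx hcy
    have hlow : ∀ z : L, z < c → z ≤ y := by
      intro z hz
      by_contra hzy
      obtain ⟨d, hd, hdz, hdy⟩ := exists_min hzy
      exact hdy ((le_inf (hdz.trans (hz.le.trans hcx))
        (hm d hd ⟨c, hc, lt_of_le_of_lt hdz hz⟩)).trans hy1)
    have hcov : c ⊓ y ⋖ c := by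
      refine ⟨lt_of_le_of_ne inf_le_left (fun h => hcy (h ▸ inf_le_right)), ?_⟩
      intro z h1 h2
      exact absurd (le_inf h2.le (hlow z h2)) (not_le_of_gt h1)
    have h2 : y ⋖ c ⊔ y := covBy_sup_of_inf_covBy_left hcov
    refine ⟨h2, ?_⟩
    by_contra hpc
    have h3 := hymax (show c ⊔ y ∈ {y : L | x ⊓ m ≤ y ∧ y ≤ x ∧ ¬ p ≤ y} from
      ⟨hy1.trans le_sup_right, sup_le hcx hy2, hpc⟩) le_sup_right
    exact hcy (le_sup_left.trans h3)
  have hpcov := (cov p hp hpx hy3).1
  refine ⟨y, hy3, le_antisymm (sup_le hpx hy2) ?_⟩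
  by_contra hx
  obtain ⟨c, hc, hcx, hcn⟩ := exists_min hx
  have hcy : ¬ c ≤ y := fun h => hcn (h.trans le_sup_right)
  obtain ⟨h1, h2⟩ := cov c hc hcx hcy
  have h3 : p ⊔ y ≤ c ⊔ y := sup_le h2 le_sup_right
  have h4 : p ⊔ y = c ⊔ y := by
    rcases h1.eq_or_eq hpcov.le h3 with h | h
    · exact absurd (h ▸ le_sup_left) hy3
    · exact h
  exact hcn (h4 ▸ le_sup_left)

theorem result (L : Type*) [Lattice L] [Finite L] [IsUpperModularLattice L] (m : L)
    (hm : ∀ q : L, SupIrred q → (∃ r : L, SupIrred r ∧ q < r) → q ≤ m) (hne : ¬ IsMax m) :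
    (∃ a : L, SupIrred a ∧ ¬ a ≤ m) ∧
      ∀ a : L, SupIrred a → ¬ a ≤ m → 2 * Nat.card {x : L // a ≤ x} ≤ Nat.card L := by
  classical
  constructor
  · rw [not_isMax_iff] at hne
    obtain ⟨b, hb⟩ := hne
    obtain ⟨c, hc, -, hcm⟩ := exists_min (not_le_of_gt hb)
    exact ⟨c, hc, hcm⟩
  · intro a ha ham
    have h := fun x : {x : L // a ≤ x} => exists_compl hm ha ham x.2
    choose f hf using h
    have hinj : Function.Injective (fun x : {x : L // a ≤ x} => (⟨f x, (hf x).1⟩ : {y : L // ¬ a ≤ y})) := by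
      intro x x' hxx
      have h1 : f x = f x' := congrArg Subtype.val hxx
      apply Subtype.ext
      rw [← (hf x).2, ← (hf x').2, h1]
    have hcard := Nat.card_le_card_of_injective _ hinj
    have hsum : Nat.card {x : L // a ≤ x} + Nat.card {y : L // ¬ a ≤ y} = Nat.card L := by
      rw [← Nat.card_sum]
      exact Nat.card_congr (Equiv.sumCompl (fun x : L => a ≤ x))
    omega

end Pool.Agent.H61.Fr.NonMaximalJoin
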