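import Mathlib

set_option autoImplicit false

/-!
# Frankl's inequality for upper semimodular lattices without covering squares

Let `L` be a finite upper semimodular lattice with at least two elements.  Suppose that no interval
of length two of `L` has exactly four elements (it is a chain, or it has at least three elements
strictly between its ends).  Then for every order-reversing weight `f : L → ℕ` some join-irreducible
`j` satisfies `2 ∑ (x ≥ j) f x ≤ ∑ x, f x`; for `f = 1` this is Frankl's inequality.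

More generally this is proved for every lattice which can be reduced by three rules (`Fine`); the
rules reduce an interval `[z, t]` of `L`, all weights being order-reversing on `[z, t]`.
* `lift`: let `a` cover `z`, and let `p` be a join-irreducible of `[a, t]` with
  `2 f[p, t] ≤ f[a, t]`, maximal among them.  The lower covers `j ≥ z` of `p` with `¬ a ≤ j` are
  join-irreducibles of `[z, t]`, and two of them have join `p ≥ a`.
  If there is none, `p` is a join-irreducible of `[z, t]`.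
  If there are two, `j` and `j'`, an element not above `a` is above at most one of them, so
  `f[j, t] + f[j', t] ≤ 2 f[p, t] + f([z, t] \ [a, t]) ≤ f[z, t]`.
  If there is exactly one, it is enough that every `x ≥ j` with `¬ a ≤ x` has a lower cover `y ≥ z`
  with `¬ j ≤ y`; if there is no covering square this case does not occur.
* `proj`: an order-reversing weight on `[z, t]` is pushed forward to `[z, s]` by `x ↦ x ⊓ s`.
* `pair`: two join-irreducibles `b`, `c` such that `x ↦ x ⊔ b ⊔ c` maps the elements above neither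
  onto the elements above both.
-/

namespace Pool.Agent.H61.Fr.ThickSquares

open Finset

/-- `p` is join-irreducible in the set of all elements above `z`. -/
def IrrAbove {L : Type*} [Lattice L] (z p : L) : Prop :=
  z < p ∧ ∀ x y : L, z ≤ x → z ≤ y → x ⊔ y = p → x = p ∨ y = p

/-- The intervals `[z, t]` which can be reduced by the three rules. -/
inductive Fine {L : Type*} [Lattice L] : L → L → Prop
  /-- Two join-irreducibles `b`, `c` of `[z, t]` (possibly equal) such that every `x` in `[z, t]`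
  above both is `y ⊔ b ⊔ c` for some `y` in `[z, t]` above neither. -/
  | pair (z t b c : L) (hb : IrrAbove z b) (hc : IrrAbove z c) (hbt : b ≤ t) (hct : c ≤ t)
      (h : ∀ x : L, x ≤ t → b ≤ x → c ≤ x →
        ∃ y : L, z ≤ y ∧ ¬ b ≤ y ∧ ¬ c ≤ y ∧ y ⊔ (b ⊔ c) = x) : Fine z t
  /-- An element `s > z` such that `[s, t]` is fine and every maximal join-irreducible `p` of `[s, t]`
  is a join-irreducible of `[z, t]`, or there are join-irreducibles `j`, `j'` of `[z, t]` (possibly
  equal) with `s ⊔ j = s ⊔ j' = p` such that every `x` in `[z, t]` above `j` and `j'` and not above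
  `s` is `y ⊔ j ⊔ j'` for some `y` in `[z, t]` above neither.  (There is no such `x` if
  `s ≤ j ⊔ j'`.) -/
  | lift (z s t : L) (hzs : z < s) (hs : Fine s t)
      (h : ∀ p : L, p ≤ t → IrrAbove s p →
        (∀ p' : L, p' ≤ t → IrrAbove s p' → p ≤ p' → p' = p) →
        IrrAbove z p ∨ ∃ j j' : L, IrrAbove z j ∧ IrrAbove z j' ∧ s ⊔ j = p ∧ s ⊔ j' = p ∧
          ∀ x : L, x ≤ t → j ≤ x → j' ≤ x → ¬ s ≤ x →
            ∃ y : L, z ≤ y ∧ ¬ j ≤ y ∧ ¬ j' ≤ y ∧ y ⊔ (j ⊔ j') = x) : Fine z t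
  /-- An element `s` of `[z, t]` such that `[z, s]` is fine and, for every cover `w ⋖ w'` in
  `[z, s]`, every `x` in `[z, t]` with `x ⊓ s = w'` is `y ⊔ w'` for some `y` with `y ⊓ s = w`. -/
  | proj (z s t : L) (hs : Fine z s) (hst : s ≤ t)
      (h : ∀ w w' x : L, z ≤ w → w ⋖ w' → w' ≤ s → x ≤ t → x ⊓ s = w' →
        ∃ y : L, y ⊓ s = w ∧ y ⊔ w' = x) : Fine z t

section

variable {L : Type*} [Lattice L]

lemma sup_eq_of_cov {a p q : L} (hap : a ≤ p) (hqp : q ⋖ p) (haq : ¬ a ≤ q) : a ⊔ q = p := by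
  have h1 : q < a ⊔ q := lt_of_le_of_ne le_sup_right (fun h => haq (h ▸ le_sup_left))
  rcases (sup_le hap hqp.le).eq_or_lt with h | h
  · exact h
  · exact absurd h (hqp.2 h1)

lemma irr_of_cov {z a : L} (hza : z ⋖ a) : IrrAbove z a := by
  refine ⟨hza.lt, ?_⟩
  intro x y hx hy hxy
  rcases hx.eq_or_lt with h | h
  · subst h
    right
    rw [← hxy]
    exact (sup_eq_right.2 hy).symm
  · left
    rcases (hxy ▸ le_sup_left : x ≤ a).eq_or_lt with h' | h'
    · exact h'
    · exact absurd h' (hza.2 h)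

lemma fine_of_cov {z t : L} (h : z ⋖ t) : Fine z t := by
  refine Fine.pair z t t t (irr_of_cov h) (irr_of_cov h) le_rfl le_rfl ?_
  intro x hxt htx _
  refine ⟨z, le_rfl, not_le_of_gt h.lt, not_le_of_gt h.lt, ?_⟩
  rw [sup_idem, le_antisymm hxt htx]
  exact sup_eq_right.2 h.le

/-- If a join-irreducible `p` of `[a, ⊤]` has no lower cover `q ≥ z` with `¬ a ≤ q`, it is a
join-irreducible of `[z, ⊤]`. -/
lemma irr_stay [Finite L] {z a p : L} (hza : z ⋖ a) (hp : IrrAbove a p)
    (hno : ∀ q : L, z ≤ q → q ⋖ p → a ≤ q) : IrrAbove z p := by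
  refine ⟨hza.lt.trans hp.1, ?_⟩
  intro x y hx hy hxy
  have hxp : x ≤ p := hxy ▸ le_sup_left
  have hyp : y ≤ p := hxy ▸ le_sup_right
  have main : ∀ x : L, z ≤ x → x ≤ p → a ⊔ x = p → x = p := by
    intro x hx hxp hax
    by_contra hne
    obtain ⟨q, hxq, hqp⟩ := exists_le_covBy_of_lt (lt_of_le_of_ne hxp hne)
    have haq := hno q (hx.trans hxq) hqp
    exact absurd (hax ▸ sup_le haq hxq) (not_le_of_gt hqp.lt)
  have hs : (a ⊔ x) ⊔ (a ⊔ y) = p := by
    rw [sup_sup_sup_comm, sup_idem, hxy]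
    exact sup_eq_right.2 hp.1.le
  rcases hp.2 _ _ le_sup_left le_sup_left hs with h | h
  · exact Or.inl (main x hx hxp h)
  · exact Or.inr (main y hy hyp h)

variable [IsUpperModularLattice L]

lemma cov_sup {z a x : L} (hza : z ⋖ a) (hzx : z ≤ x) (hax : ¬ a ≤ x) : x ⋖ a ⊔ x := by
  have h1 : z ≤ a ⊓ x := le_inf hza.le hzx
  have h2 : a ⊓ x < a := lt_of_le_of_ne inf_le_left (fun h => hax (inf_eq_left.1 h))
  have h3 : a ⊓ x = z := by
    rcases h1.eq_or_lt with h | h
    · exact h.symm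
    · exact absurd h2 (hza.2 h)
  exact covBy_sup_of_inf_covBy_left (by rw [h3]; exact hza)

lemma cov_of_third {u j p m : L} (huj : u ⋖ j) (hjp : j ⋖ p) (hum : u < m) (hjm : ¬ j ≤ m)
    (hmp : m ≤ p) : m ⋖ p := by
  have h1 : j ⊓ m = u := by
    have h2 : u ≤ j ⊓ m := le_inf huj.le hum.le
    have h3 : j ⊓ m < j := lt_of_le_of_ne inf_le_left (fun h' => hjm (inf_eq_left.1 h'))
    rcases h2.eq_or_lt with h4 | h4
    · exact h4.symm
    · exact absurd h3 (huj.2 h4)
  have h5 : m ⋖ j ⊔ m := covBy_sup_of_inf_covBy_left (by rw [h1]; exact huj)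
  have h6 : j ⊔ m = p := by
    have h7 : j < j ⊔ m := by
      refine lt_of_le_of_ne le_sup_left (fun h' => ?_)
      have h8 : m ≤ j := h' ▸ le_sup_right
      rcases h8.eq_or_lt with h9 | h9
      · exact hjm h9.symm.le
      · exact absurd h9 (huj.2 hum)
    rcases (sup_le hjp.le hmp).eq_or_lt with h8 | h8
    · exact h8
    · exact absurd h8 (hjp.2 h7)
  rw [h6] at h5
  exact h5

/-- A lower cover `q ≥ z`, not above `a`, of a join-irreducible `p` of `[a, ⊤]` is a join-irreducible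
of `[z, ⊤]`. -/
lemma irr_lift {z a p q : L} (hza : z ⋖ a) (hp : IrrAbove a p) (hzq : z ≤ q) (hqp : q ⋖ p)
    (haq : ¬ a ≤ q) : IrrAbove z q := by
  have hap : a < p := hp.1
  have hzq' : z < q := by
    rcases hzq.eq_or_lt with h | h
    · subst h
      exact absurd hap (hqp.2 hza.lt)
    · exact h
  have key : ∀ x : L, z ≤ x → x ≤ q → a ⊔ x = p → x = q := by
    intro x hx hxq hax
    have h1 : ¬ a ≤ x := fun h => haq (h.trans hxq)
    have h2 : x ⋖ a ⊔ x := cov_sup hza hx h1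
    rw [hax] at h2
    rcases hxq.eq_or_lt with h | h
    · exact h
    · exact absurd hqp.lt (h2.2 h)
  refine ⟨hzq', ?_⟩
  intro x y hx hy hxy
  have hxq : x ≤ q := hxy ▸ le_sup_left
  have hyq : y ≤ q := hxy ▸ le_sup_right
  have hs : (a ⊔ x) ⊔ (a ⊔ y) = p := by
    rw [← sup_eq_of_cov hap.le hqp haq, ← hxy]
    rw [sup_sup_sup_comm, sup_idem]
  rcases hp.2 _ _ le_sup_left le_sup_left hs with h | h
  · exact Or.inl (key x hx hxq h)
  · exact Or.inr (key y hy hyq h)

end

section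

open scoped Classical

variable {L : Type*} [Lattice L] [Fintype L]

/-- The total weight of `[z, t]`. -/
noncomputable def wt (f : L → ℕ) (t z : L) : ℕ := ∑ x ∈ univ.filter (fun x : L => x ≤ t),
  if z ≤ x then f x else 0

lemma wt_anti (f : L → ℕ) (t : L) {p q : L} (h : p ≤ q) : wt f t q ≤ wt f t p := by
  apply Finset.sum_le_sum
  intro x _
  by_cases hq : q ≤ x
  · rw [if_pos hq, if_pos (h.trans hq)]
  · rw [if_neg hq]; exact Nat.zero_le _

/-- A weight which decreases along `[z, t]`. -/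
def AntiOn (f : L → ℕ) (z t : L) : Prop := ∀ x y : L, z ≤ x → x ≤ y → y ≤ t → f y ≤ f x

lemma sum_inj {f : L → ℕ} {z t : L} (hf : AntiOn f z t) (P Q : L → Prop) [DecidablePred P]
    [DecidablePred Q] (u : L) (hP : ∀ x, P x → x ≤ t)
    (h : ∀ x, P x → ∃ y, z ≤ y ∧ Q y ∧ y ⊔ u = x) :
    ∑ x ∈ univ.filter P, f x ≤ ∑ x ∈ univ.filter Q, f x := by
  have h' : ∀ x : L, ∃ y : L, (P x → z ≤ y ∧ Q y ∧ y ⊔ u = x) := by
    intro x
    by_cases h1 : P x
    · obtain ⟨y, hy⟩ := h x h1
      exact ⟨y, fun _ => hy⟩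
    · exact ⟨x, fun h2 => absurd h2 h1⟩
  choose g hg using h'
  have hinj : Set.InjOn g (univ.filter P : Finset L) := by
    intro x hx x' hx' hgg
    have hx1 : P x := by simpa using hx
    have hx1' : P x' := by simpa using hx'
    rw [← (hg x hx1).2.2, ← (hg x' hx1').2.2, hgg]
  calc ∑ x ∈ univ.filter P, f x
      ≤ ∑ x ∈ univ.filter P, f (g x) := by
        apply Finset.sum_le_sum
        intro x hx
        have hx1 : P x := by simpa using hx
        obtain ⟨h1, _, h3⟩ := hg x hx1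
        exact hf _ _ h1 (le_sup_left.trans h3.le) (hP x hx1)
    _ = ∑ y ∈ (univ.filter P).image g, f y := by
        rw [Finset.sum_image hinj]
    _ ≤ _ := by
        apply Finset.sum_le_sum_of_subset
        intro y hy
        simp only [mem_image, mem_filter, mem_univ, true_and] at hy ⊢
        obtain ⟨x, hx, rfl⟩ := hy
        exact (hg x hx).2.1

lemma fine_main {z t : L} (H : Fine z t) :
    ∀ f : L → ℕ, AntiOn f z t → ∃ p : L, p ≤ t ∧ IrrAbove z p ∧ 2 * wt f t p ≤ wt f t z := by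
  induction H with
  | pair z t b c hb hc hbt hct h =>
    intro f hf
    have hD : ∑ x ∈ univ.filter (fun x : L => x ≤ t ∧ b ≤ x ∧ c ≤ x), f x ≤
        ∑ x ∈ univ.filter (fun x : L => x ≤ t ∧ z ≤ x ∧ ¬ b ≤ x ∧ ¬ c ≤ x), f x := by
      apply sum_inj hf (fun x : L => x ≤ t ∧ b ≤ x ∧ c ≤ x)
        (fun x : L => x ≤ t ∧ z ≤ x ∧ ¬ b ≤ x ∧ ¬ c ≤ x) (b ⊔ c) (fun x hx => hx.1)
      intro x hx
      obtain ⟨y, h1, h2, h3, h4⟩ := h x hx.1 hx.2.1 hx.2.2
      exact ⟨y, h1, ⟨(le_sup_left.trans h4.le).trans hx.1, h1, h2, h3⟩, h4⟩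
    have e1 : wt f t b + wt f t c +
        ∑ x ∈ univ.filter (fun x : L => x ≤ t ∧ z ≤ x ∧ ¬ b ≤ x ∧ ¬ c ≤ x), f x =
        wt f t z + ∑ x ∈ univ.filter (fun x : L => x ≤ t ∧ b ≤ x ∧ c ≤ x), f x := by
      unfold wt
      simp only [Finset.sum_filter]
      rw [← Finset.sum_add_distrib, ← Finset.sum_add_distrib, ← Finset.sum_add_distrib]
      apply Finset.sum_congr rfl
      intro x _
      by_cases h0 : x ≤ t
      · by_cases h1 : b ≤ x
        · have h4 : z ≤ x := hb.1.le.trans h1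
          by_cases h2 : c ≤ x
          · simp [h0, h1, h2, h4]
          · simp [h0, h1, h2, h4]
        · by_cases h2 : c ≤ x
          · have h4 : z ≤ x := hc.1.le.trans h2
            simp [h0, h1, h2, h4]
          · simp [h0, h1, h2]
      · simp [h0]
    rcases le_total (wt f t b) (wt f t c) with h' | h'
    · exact ⟨b, hbt, hb, by omega⟩
    · exact ⟨c, hct, hc, by omega⟩
  | lift z s t hzs hs hH ih =>
    intro f hf
    obtain ⟨p0, hp0t, hp0, hw0⟩ := ih f (fun x y h1 h2 h3 => hf x y (hzs.le.trans h1) h2 h3)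
    obtain ⟨p, hp⟩ := (Set.toFinite {q : L | (q ≤ t ∧ IrrAbove s q) ∧ p0 ≤ q}).exists_maximal
      ⟨p0, ⟨hp0t, hp0⟩, le_rfl⟩
    have hpt : p ≤ t := hp.prop.1.1
    have hpI : IrrAbove s p := hp.prop.1.2
    have hw : 2 * wt f t p ≤ wt f t s := by
      have := wt_anti f t hp.prop.2
      omega
    have hmax : ∀ p' : L, p' ≤ t → IrrAbove s p' → p ≤ p' → p' = p := fun p' h0 h1 h2 =>
      le_antisymm (hp.le_of_ge ⟨⟨h0, h1⟩, hp.prop.2.trans h2⟩ h2) h2
    rcases hH p hpt hpI hmax with hpz | ⟨j, j', hj, hj', hsj, hsj', hx⟩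
    · refine ⟨p, hpt, hpz, ?_⟩
      have := wt_anti f t hzs.le
      omega
    · have hD : ∑ x ∈ univ.filter (fun x : L => x ≤ t ∧ j ≤ x ∧ j' ≤ x ∧ ¬ s ≤ x), f x ≤
          ∑ x ∈ univ.filter (fun x : L => x ≤ t ∧ z ≤ x ∧ ¬ s ≤ x ∧ ¬ j ≤ x ∧ ¬ j' ≤ x), f x := by
        apply sum_inj hf (fun x : L => x ≤ t ∧ j ≤ x ∧ j' ≤ x ∧ ¬ s ≤ x)
          (fun x : L => x ≤ t ∧ z ≤ x ∧ ¬ s ≤ x ∧ ¬ j ≤ x ∧ ¬ j' ≤ x) (j ⊔ j') (fun x hx => hx.1)
        intro x hx1
        obtain ⟨y, h1, h2, h3, h4⟩ := hx x hx1.1 hx1.2.1 hx1.2.2.1 hx1.2.2.2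
        have hyx : y ≤ x := le_sup_left.trans h4.le
        exact ⟨y, h1, ⟨hyx.trans hx1.1, h1, fun h => hx1.2.2.2 (h.trans hyx), h2, h3⟩, h4⟩
      have e1 : wt f t j + wt f t j' + wt f t s +
          ∑ x ∈ univ.filter (fun x : L => x ≤ t ∧ z ≤ x ∧ ¬ s ≤ x ∧ ¬ j ≤ x ∧ ¬ j' ≤ x), f x =
          wt f t p + wt f t p + wt f t z +
          ∑ x ∈ univ.filter (fun x : L => x ≤ t ∧ j ≤ x ∧ j' ≤ x ∧ ¬ s ≤ x), f x := by
        unfold wt
        simp only [Finset.sum_filter]
        simp only [← Finset.sum_add_distrib]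
        apply Finset.sum_congr rfl
        intro x _
        by_cases h0 : x ≤ t
        · by_cases h1 : s ≤ x
          · have hz : z ≤ x := hzs.le.trans h1
            by_cases h2 : p ≤ x
            · have h3 : j ≤ x := (hsj ▸ le_sup_right : j ≤ p).trans h2
              have h4 : j' ≤ x := (hsj' ▸ le_sup_right : j' ≤ p).trans h2
              simp [h0, h1, h2, h3, h4, hz]
            · have h3 : ¬ j ≤ x := fun h => h2 (hsj ▸ sup_le h1 h)
              have h4 : ¬ j' ≤ x := fun h => h2 (hsj' ▸ sup_le h1 h)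
              simp [h0, h1, h2, h3, h4, hz]
          · have h2 : ¬ p ≤ x := fun h => h1 (hpI.1.le.trans h)
            by_cases h3 : j ≤ x
            · have hz : z ≤ x := hj.1.le.trans h3
              by_cases h4 : j' ≤ x
              · simp [h0, h1, h2, h3, h4, hz]
              · simp [h0, h1, h2, h3, h4, hz]
            · by_cases h4 : j' ≤ x
              · have hz : z ≤ x := hj'.1.le.trans h4
                simp [h0, h1, h2, h3, h4, hz]
              · simp [h0, h1, h2, h3, h4]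
        · simp [h0]
      have hjt : j ≤ t := (hsj ▸ le_sup_right : j ≤ p).trans hpt
      have hjt' : j' ≤ t := (hsj' ▸ le_sup_right : j' ≤ p).trans hpt
      rcases le_total (wt f t j) (wt f t j') with h' | h'
      · exact ⟨j, hjt, hj, by omega⟩
      · exact ⟨j', hjt', hj', by omega⟩
  | proj z s t hs hst h ih =>
    intro f hf
    -- the pushed forward weight
    set g : L → ℕ := fun w => ∑ x ∈ univ.filter (fun x : L => x ≤ t ∧ z ≤ x ∧ x ⊓ s = w), f x
      with hg
    have hcov : ∀ u v : L, z ≤ u → u ⋖ v → v ≤ s → g v ≤ g u := by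
      intro u v hzu huv hvs
      apply sum_inj hf (fun x : L => x ≤ t ∧ z ≤ x ∧ x ⊓ s = v)
        (fun x : L => x ≤ t ∧ z ≤ x ∧ x ⊓ s = u) v (fun x hx => hx.1)
      intro x hx
      obtain ⟨y, h1, h2⟩ := h u v x hzu huv hvs hx.1 hx.2.2
      have h3 : z ≤ y := hzu.trans (h1 ▸ inf_le_left)
      exact ⟨y, h3, ⟨(le_sup_left.trans h2.le).trans hx.1, h3, h1⟩, h2⟩
    have hganti : AntiOn g z s := by
      intro u v hzu huv hvs
      induction v using (wellFounded_lt (α := L)).induction with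
      | _ v ihv =>
      rcases huv.eq_or_lt with h1 | h1
      · rw [h1]
      · obtain ⟨w, huw, hwv⟩ := exists_le_covBy_of_lt h1
        exact (hcov w v (hzu.trans huw) hwv hvs).trans
          (ihv w hwv.lt huw (hwv.le.trans hvs))
    obtain ⟨p, hps, hpI, hw⟩ := ih g hganti
    have hpush : ∀ q : L, z ≤ q → q ≤ s → wt g s q = wt f t q := by
      intro q hzq hqs
      have h1 : wt g s q = ∑ w ∈ univ.filter (fun w : L => w ≤ s ∧ q ≤ w), g w := by
        unfold wt
        simp only [Finset.sum_filter]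
        apply Finset.sum_congr rfl
        intro w _
        by_cases h2 : w ≤ s <;> by_cases h3 : q ≤ w <;> simp [h2, h3]
      have h2 : wt f t q = ∑ x ∈ univ.filter (fun x : L => x ≤ t ∧ q ≤ x), f x := by
        unfold wt
        simp only [Finset.sum_filter]
        apply Finset.sum_congr rfl
        intro w _
        by_cases h2 : w ≤ t <;> by_cases h3 : q ≤ w <;> simp [h2, h3]
      rw [h1, h2]
      rw [← Finset.sum_fiberwise_of_maps_to (s := univ.filter (fun x : L => x ≤ t ∧ q ≤ x))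
        (t := univ.filter (fun w : L => w ≤ s ∧ q ≤ w)) (g := fun x => x ⊓ s)]
      · apply Finset.sum_congr rfl
        intro w hw
        simp only [mem_filter, mem_univ, true_and] at hw
        rw [hg]
        apply Finset.sum_congr _ (fun _ _ => rfl)
        ext x
        simp only [mem_filter, mem_univ, true_and]
        constructor
        · rintro ⟨h3, h4, h5⟩
          exact ⟨⟨h3, hw.2.trans (h5 ▸ inf_le_left)⟩, h5⟩
        · rintro ⟨⟨h3, h4⟩, h5⟩
          exact ⟨h3, hzq.trans h4, h5⟩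
      · intro x hx
        simp only [mem_filter, mem_univ, true_and] at hx ⊢
        exact ⟨inf_le_right, le_inf hx.2 hqs⟩
    refine ⟨p, hps.trans hst, hpI, ?_⟩
    rw [← hpush p hpI.1.le hps, ← hpush z le_rfl (hpI.1.le.trans hps)]
    exact hw

end

/-- If in every 4-element interval `{q, u, v, u ⊔ v}` of length two below `t` the element `u` can be
removed from every `x` in `[u, t]` not above `v`, all intervals `[z, t]` are fine. -/
lemma fine_of_squares {L : Type*} [Lattice L] [Finite L] [IsUpperModularLattice L] (t : L)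
    (h : ∀ q u v : L, q ⋖ u → q ⋖ v → u ≠ v → u ⊔ v ≤ t →
      (∃ w : L, q < w ∧ w < u ⊔ v ∧ w ≠ u ∧ w ≠ v) ∨
      ∀ x : L, x ≤ t → u ≤ x → ¬ v ≤ x → ∃ y : L, q ≤ y ∧ ¬ u ≤ y ∧ u ⊔ y = x) :
    ∀ z : L, z < t → Fine z t := by
  intro z
  induction z using (wellFounded_gt (α := L)).induction with
  | _ z ih =>
  intro hzt
  obtain ⟨a, hza, hat⟩ := exists_covBy_le_of_lt hzt
  rcases hat.eq_or_lt with hat' | hat'
  · exact fine_of_cov (hat' ▸ hza)
  refine Fine.lift z a t hza.lt (ih a hza.lt hat') ?_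
  intro p hpt hp _
  by_cases hex : ∃ j : L, z ≤ j ∧ j ⋖ p ∧ ¬ a ≤ j
  swap
  · left
    refine irr_stay hza hp ?_
    intro q h1 h2
    by_contra h3
    exact hex ⟨q, h1, h2, h3⟩
  right
  obtain ⟨j, hzj, hjp, haj⟩ := hex
  have hj := irr_lift hza hp hzj hjp haj
  have haj' : a ⊔ j = p := sup_eq_of_cov hp.1.le hjp haj
  obtain ⟨q, hzq, hqj⟩ := exists_le_covBy_of_lt hj.1
  have haq : ¬ a ≤ q := fun h' => haj (h'.trans hqj.le)
  have hqv : q ⋖ a ⊔ q := cov_sup hza hzq haq
  have hjv : j ≠ a ⊔ q := fun h' => haj (h' ▸ le_sup_left)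
  have hsup : j ⊔ (a ⊔ q) = p := by
    rw [← haj', ← sup_assoc, sup_comm j a, sup_assoc, sup_eq_left.2 hqj.le]
  rcases h q j (a ⊔ q) hqj hqv hjv (hsup.le.trans hpt) with ⟨m, hqm, hmp, hmj, hmv⟩ | hrem
  · rw [hsup] at hmp
    have hjm : ¬ j ≤ m := by
      intro h'
      rcases h'.eq_or_lt with h'' | h''
      · exact hmj h''.symm
      · exact absurd hmp (hjp.2 h'')
    have hmp' : m ⋖ p := cov_of_third hqj hjp hqm hjm hmp.le
    have hvj : ¬ j ≤ a ⊔ q := by
      intro h'
      rcases h'.eq_or_lt with h'' | h''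
      · exact hjv h''
      · exact absurd h'' (hqv.2 hqj.lt)
    have hvp : a ⊔ q ⋖ p :=
      cov_of_third hqj hjp hqv.lt hvj (sup_le hp.1.le (hqj.le.trans hjp.le))
    have ham : ¬ a ≤ m := by
      intro ham
      rcases (sup_le ham hqm.le).eq_or_lt with h' | h'
      · exact hmv h'.symm
      · exact absurd hmp (hvp.2 h')
    refine ⟨j, m, hj, irr_lift hza hp (hzq.trans hqm.le) hmp' ham, haj',
      sup_eq_of_cov hp.1.le hmp' ham, ?_⟩
    intro x _ h1 h2 h3
    exact absurd (hp.1.le.trans ((sup_eq_of_cov hjp.le hmp' hjm) ▸ sup_le h1 h2)) h3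
  · refine ⟨j, j, hj, hj, haj', haj', ?_⟩
    intro x hxt hjx _ hax
    obtain ⟨y, h1, h2, h3⟩ := hrem x hxt hjx (fun h' => hax (le_sup_left.trans h'))
    refine ⟨y, hzq.trans h1, h2, h2, ?_⟩
    rw [sup_idem, sup_comm]
    exact h3

open scoped Classical in
/-- **Main theorem.**  Let `L` be a finite upper semimodular lattice and `s ≠ ⊥` an element such that
* (i) if `u`, `v` are distinct covers of `q` and `u ⊔ v ≤ s`, there is a third element strictly between
  `q` and `u ⊔ v`, or every `x` in `[u, s]` not above `v` is `u ⊔ y` for some `y ≥ q` not above `u`;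
* (ii) if `w' ≤ s` covers `w` and `x ⊓ s = w'`, then `x = y ⊔ w'` for some `y` with `y ⊓ s = w`
  (nothing is required if `s = ⊤`).
Then for every order-reversing weight `f` some join-irreducible `a` satisfies
`2 ∑ (x ≥ a) f x ≤ ∑ x, f x`. -/
theorem result (L : Type*) [Lattice L] [BoundedOrder L] [Fintype L] [IsUpperModularLattice L]
    (s : L) (hs : s ≠ ⊥)
    (h1 : ∀ q u v : L, q ⋖ u → q ⋖ v → u ≠ v → u ⊔ v ≤ s →
      (∃ w : L, q < w ∧ w < u ⊔ v ∧ w ≠ u ∧ w ≠ v) ∨
      ∀ x : L, x ≤ s → u ≤ x → ¬ v ≤ x → ∃ y : L, q ≤ y ∧ ¬ u ≤ y ∧ u ⊔ y = x)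
    (h2 : ∀ w w' x : L, w ⋖ w' → w' ≤ s → x ⊓ s = w' → ∃ y : L, y ⊓ s = w ∧ y ⊔ w' = x)
    (f : L → ℕ) (hf : Antitone f) :
    ∃ a : L, SupIrred a ∧ 2 * (∑ x : {x : L // a ≤ x}, f x) ≤ ∑ x : L, f x := by
  have H : Fine (⊥ : L) ⊤ :=
    Fine.proj ⊥ s ⊤ (fine_of_squares s h1 ⊥ (bot_lt_iff_ne_bot.2 hs)) le_top
      (fun w w' x _ h3 h4 _ h5 => h2 w w' x h3 h4 h5)
  have hconv : ∀ a : L, ∑ x : {x : L // a ≤ x}, f x = wt f ⊤ a := by
    intro a
    unfold wt
    simp only [le_top, Finset.filter_true]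
    rw [← Finset.sum_filter]
    exact (Finset.sum_subtype _ (by simp) f).symm
  obtain ⟨p, -, hp, hw⟩ := fine_main H f (fun x y _ hxy _ => hf hxy)
  refine ⟨p, ⟨fun hm => absurd hp.1 (not_lt_of_ge (hm bot_le)), ?_⟩, ?_⟩
  · intro x y hxy
    exact hp.2 x y bot_le bot_le hxy
  · rw [hconv]
    have h0 : wt f (⊤ : L) ⊥ = ∑ x : L, f x := by
      unfold wt
      simp
    rw [← h0]
    exact hw

end Pool.Agent.H61.Fr.ThickSquares
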